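import Pool.Agent.BoltzD.KK.Scale
import Pool.Agent.BoltzD.Lin.YF
import Pool.Agent.BoltzD.En.Split
import Pool.Agent.BoltzD.Solver.Stmt
import Pool.Agent.BoltzD.Calc.Cube
import Pool.Agent.BoltzD.Solver.Ops

-- ======== part 0: formerly Pool.Agent.BoltzD.Calc.Eval
section MrgPart0

-- ======== part 0: formerly Pool.Agent.BoltzD.En.Flux
section MrgPart0

/-!
From fields to jets: the differentiated transport term and the divergence of the flux.
-/

set_option autoImplicit false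

open Pool.Agent.BoltzC Finset

noncomputable section

namespace Pool.Agent.BoltzD

variable [Dim]

lemma sm_pow {σ : E3 → ℝ} (hσ : Sm σ) (k : ℕ) : Sm fun y => σ y ^ k := by
  induction k with
  | zero => simpa using Sm.const (1 : ℝ)
  | succ k ih => simpa [pow_succ] using ih.mul hσ

lemma dX_pow' {σ : E3 → ℝ} (hσ : Sm σ) (k : ℕ) (i : Ix) (x : E3) :
    dX i (fun y => σ y ^ k) x = k * σ x ^ (k - 1) * dX i σ x := by
  apply dX_eq
  have := ((hσ.dif i x).hasDerivAt.fun_pow k).hd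
  simpa only [zero_smul, add_zero] using this

lemma sm_ip_clm {H : E3 → SV} (hH : Sm H) (A B : SV →L[ℝ] SV) :
    Sm fun y => ip (A (H y)) (B (H y)) := Sm.bilin ip continuous_ip (hH.clm A) (hH.clm B)

lemma dX_ip_clm {H : E3 → SV} (hH : Sm H) (A B : SV →L[ℝ] SV) (i : Ix) (x : E3) :
    dX i (fun y => ip (A (H y)) (B (H y))) x =
      ip (A (dX i H x)) (B (H x)) + ip (A (H x)) (B (dX i H x)) := by
  rw [dX_bilin ip continuous_ip (hH.clm A).dif (hH.clm B).dif, dX_clm hH.dif, dX_clm hH.dif]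

lemma sm_RR {H : E3 → SV} (hH : Sm H) (m : ℕ) : Sm fun y => ip (H y) (RR m (H y)) :=
  sm_ip_clm hH (ContinuousLinearMap.id ℝ SV) (RR m)

lemma dX_RR {H : E3 → SV} (hH : Sm H) (m : ℕ) (i : Ix) (x : E3) :
    dX i (fun y => ip (H y) (RR m (H y))) x = 2 * ip (dX i H x) (RR m (H x)) := by
  have := dX_ip_clm hH (ContinuousLinearMap.id ℝ SV) (RR m) i x
  simp only [ContinuousLinearMap.id_apply] at this
  rw [this, ← ip_RR_symm m (H x), ip_comm (RR m (H x))]
  ring

lemma sm_NV {H : E3 → SV} (hH : Sm H) (m : ℕ) (i : Ix) : Sm fun y => NV m i (H y) (H y) :=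
  Sm.sum (words m) fun w _ => sm_ip_clm hH ((mulV i).comp (apW w)) (apW w)

lemma dX_NV {H : E3 → SV} (hH : Sm H) (m : ℕ) (i k : Ix) (x : E3) :
    dX k (fun y => NV m i (H y) (H y)) x = 2 * NV m i (dX k H x) (H x) := by
  have h1 := congrFun (dX_sum (words m)
    (G := fun w y => ip (((mulV i).comp (apW w)) (H y)) (apW w (H y)))
    (fun w _ => (sm_ip_clm hH _ _).dif) k) x
  refine h1.trans ?_
  rw [NV, mul_sum]
  refine sum_congr rfl fun w _ => ?_
  rw [dX_ip_clm hH]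
  simp only [ContinuousLinearMap.comp_apply]
  rw [ip_mulV i (apW w (H x)), ip_comm (apW w (H x))]
  ring

lemma ip_dXw_smul {a : E3 → ℝ} {H : E3 → SV} (ha : Sm a) (hH : Sm H) (A : SV →L[ℝ] SV)
    (u : List Ix) (x : E3) (h : SV) :
    ip (dXw u (fun y => a y • A (H y)) x) h =
      SP u fun p q => dXw p a x * ip (A (dXw q H x)) h := by
  rw [dXw_smul ha (hH.clm A)]
  simp only [map_list_sum_ip, SP, dXw_clm hH, map_smul, LinearMap.smul_apply, smul_eq_mul]

lemma Fld.Reg.tv {F : Fld} (h : F.Reg) (α : TI) : Sm (F.tv α) := by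
  rcases α with l | p | p
  · exact (h.b0 l).1
  · exact (h.b1 p.1 p.2).1
  · exact (h.b2 p.1).1

lemma Fld.tr_eq (F : Fld) (G : E3 → SV) : F.tr G = fun x =>
    (∑ i, F.u i x • ContinuousLinearMap.id ℝ SV (dX i G x) + ∑ i, F.c x • mulV i (dX i G x))
      - ∑ α, F.tv α x • opT α (G x) := by
  funext x
  rw [Fld.tr, Fld.vel_eq, sum_add_distrib, sub_eq_add_neg]
  rfl

lemma Fld.Reg.sm_tr {F : Fld} (h : F.Reg) {G : E3 → SV} (hG : Sm G) : Sm (F.tr G) := by
  rw [F.tr_eq]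
  exact ((Sm.sum _ fun i _ => (h.u i).1.smul ((hG.dX i).clm _)).add
    (Sm.sum _ fun i _ => h.c.1.smul ((hG.dX i).clm _))).sub
      (Sm.sum _ fun α _ => (h.tv α).smul (hG.clm _))

/-- The jet of the data at a point. -/
def jet (F : Fld) (ω σ μ ωt σt γ : E3 → ℝ) (G : E3 → SV) (x : E3) : Jet where
  U i w := dXw w (F.u i) x
  Cc w := dXw w F.c x
  t α w := dXw w (F.tv α) x
  σ := σ x
  ω := ω x
  μ := μ x
  ωt := ωt x
  σt := σt x
  γ := γ x
  dω i := dX i ω x
  dσ i := dX i σ x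
  dv i := dX i (fun y => F.u i y * ω y) x
  g u := dXw u G x

variable {F : Fld} {K : ℕ → ℝ} {lam : ℝ} {ω σ μ ωt σt γ : E3 → ℝ} {G : E3 → SV}

lemma jet_H (hB : F.Bd K σ μ) (hW : WtBd F K lam ω σ μ ωt σt γ) (x : E3) :
    (jet F ω σ μ ωt σt γ G x).H K lam where
  σ_pos := hW.hσ.pos x
  ω_pos := hW.hω.pos x
  μ_pos := hW.hμ.pos x
  hU i w hw := hB.u i w hw x
  hC w := hB.c w (Nat.zero_le _) x
  ht α w := by
    rcases α with l | p | p
    · exact hB.b0 l w (Nat.zero_le _) x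
    · exact hB.b1 p.1 p.2 w (Nat.zero_le _) x
    · exact hB.b2 p.1 w (Nat.zero_le _) x
  hdω i := hW.hω.bd i x
  hdσ i := hW.hσ.bd i x
  hω := hW.dω x
  rep := hW.rep x

lemma jet_A (h : F.Reg) (hG : Sm G) (m : ℕ) (u : List Ix) (x : E3) :
    ip (dXw u (F.tr G) x) (RR m (dXw u G x)) = (jet F ω σ μ ωt σt γ G x).A m u := by
  have s1 : ∀ i, Sm fun x => F.u i x • ContinuousLinearMap.id ℝ SV (dX i G x) := fun i =>
    (h.u i).1.smul ((hG.dX i).clm _)
  have s2 : ∀ i, Sm fun x => F.c x • mulV i (dX i G x) := fun i => h.c.1.smul ((hG.dX i).clm _)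
  have s3 : ∀ α, Sm fun x => F.tv α x • opT α (G x) := fun α => (h.tv α).smul (hG.clm _)
  rw [F.tr_eq, dXw_sub ((Sm.sum _ fun i _ => s1 i).add (Sm.sum _ fun i _ => s2 i))
    (Sm.sum _ fun α _ => s3 α), dXw_add (Sm.sum _ fun i _ => s1 i) (Sm.sum _ fun i _ => s2 i),
    dXw_sum _ fun i _ => s1 i, dXw_sum _ fun i _ => s2 i, dXw_sum _ fun α _ => s3 α]
  simp only [map_sub, map_add, map_sum, LinearMap.sub_apply, LinearMap.add_apply,
    LinearMap.sum_apply]
  unfold Jet.A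
  congr 1
  · congr 1
    · refine sum_congr rfl fun i _ => ?_
      rw [ip_dXw_smul (h.u i).1 (hG.dX i)]
      exact SP_congr u _ _ fun a b hab => by rw [← dXw_perm hG hab]; rfl
    · refine sum_congr rfl fun i _ => ?_
      rw [ip_dXw_smul h.c.1 (hG.dX i)]
      exact SP_congr u _ _ fun a b hab => by rw [← dXw_perm hG hab]; rfl
  · refine sum_congr rfl fun α _ => ?_
    rw [ip_dXw_smul (h.tv α) hG]
    exact SP_congr u _ _ fun a b hab => by rw [← dXw_perm hG hab]; rfl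

/-- The flux of one term. -/
def flux (F : Fld) (ω σ : E3 → ℝ) (G : E3 → SV) (j m : ℕ) (i : Ix) (u : List Ix)
    (y : E3) : ℝ :=
  F.u i y * ω y * (σ y ^ (2 * j) * ip (dXw u G y) (RR m (dXw u G y)))
    + ω y * F.c y * (σ y ^ (2 * j) * NV m i (dXw u G y) (dXw u G y))

lemma sm_flux (h : F.Reg) (hω : Sm ω) (hσ : Sm σ) (hG : Sm G) (j m : ℕ) (i : Ix)
    (u : List Ix) : Sm (flux F ω σ G j m i u) :=
  (((h.u i).1.mul hω).mul ((sm_pow hσ _).mul (sm_RR (hG.dXw u) m))).add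
    ((hω.mul h.c.1).mul ((sm_pow hσ _).mul (sm_NV (hG.dXw u) m i)))

lemma per_flux (h : F.Reg) (hω : Per ω) (hσ : Per σ) (hG : Per G) (j m : ℕ) (i : Ix)
    (u : List Ix) : Per (flux F ω σ G j m i u) := fun k x => by
  simp only [flux, (h.u i).2 k x, h.c.2 k x, hω k x, hσ k x, hG.dXw u k x]

lemma dX_flux (h : F.Reg) (hω : Sm ω) (hσ : Sm σ) (hG : Sm G) (j m : ℕ) (i : Ix)
    (u : List Ix) (x : E3) :
    dX i (flux F ω σ G j m i u) x = (jet F ω σ μ ωt σt γ G x).dJ j m i u := by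
  have a1 := (sm_pow hσ (2 * j)).mul (sm_RR (hG.dXw u) m)
  have a2 := (sm_pow hσ (2 * j)).mul (sm_NV (hG.dXw u) m i)
  unfold flux
  rw [dX_add (((h.u i).1.mul hω).mul a1).dif ((hω.mul h.c.1).mul a2).dif,
    dX_mul ((h.u i).1.mul hω).dif a1.dif, dX_mul (hω.mul h.c.1).dif a2.dif,
    dX_mul (sm_pow hσ _).dif (sm_RR (hG.dXw u) m).dif,
    dX_mul (sm_pow hσ _).dif (sm_NV (hG.dXw u) m i).dif, dX_mul hω.dif h.c.1.dif]
  simp only [dX_pow' hσ, dX_RR (hG.dXw u), dX_NV (hG.dXw u), ← dXw_dX hG]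
  push_cast
  rfl

lemma jet_sum (h : F.Reg) (hω : Sm ω) (hσ : Sm σ) (hG : Sm G) (n : ℕ) (θ : ℝ) (x : E3) :
    et n θ ω σ ωt σt G x + γ x * bb n θ σ G G x - 2 * (ω x * bb n θ σ (F.tr G) G x)
      + ∑ j ∈ range (n + 1), ∑ m ∈ range (n + 1 - j), θ ^ (j + m) *
          ∑ u ∈ words j, ∑ i, dX i (flux F ω σ G j m i u) x
      = ∑ j ∈ range (n + 1), ∑ m ∈ range (n + 1 - j), θ ^ (j + m) *
          ∑ u ∈ words j, (jet F ω σ μ ωt σt γ G x).q j m u := by
  simp only [et, bb, lev, mul_sum, ← sum_add_distrib, ← sum_sub_distrib]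
  refine sum_congr rfl fun j _ => sum_congr rfl fun m _ => sum_congr rfl fun u _ => ?_
  rw [jet_A (ω := ω) (σ := σ) (μ := μ) (ωt := ωt) (σt := σt) (γ := γ) h hG, ← mul_sum]
  simp only [dX_flux (μ := μ) (ωt := ωt) (σt := σt) (γ := γ) h hω hσ hG]
  unfold Jet.q
  change _ = θ ^ (j + m) * ((ωt x * σ x ^ (2 * j) + ω x * (2 * j * σ x ^ (2 * j - 1) * σt x)
    + γ x * σ x ^ (2 * j)) * ip (dXw u G x) (RR m (dXw u G x)) - 2 * ω x * σ x ^ (2 * j) * _ + _)
  ring

end Pool.Agent.BoltzD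

end
end MrgPart0

-- ======== part 1: formerly Pool.Agent.BoltzD.En.Tr
section MrgPart1

/-!
The transport inequality on the torus.
-/

set_option autoImplicit false

open Pool.Agent.BoltzC Finset

noncomputable section

namespace Pool.Agent.BoltzD

variable [Dim]

namespace Trn

variable {σ : E3 → ℝ} {G : E3 → SV}

lemma zz_nonneg (j : ℕ) (x : E3) : 0 ≤ zz j σ G x :=
  mul_nonneg (by rw [pow_mul']; positivity) (sum_nonneg fun _ _ => ip_self_nonneg _)

lemma yw_nonneg (hV : VStmt) (n : ℕ) (x : E3) : 0 ≤ yw n σ G x :=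
  KK.lev_nonneg zero_le_one fun _ _ => sum_nonneg fun _ _ => hV.wq_nonneg _

lemma term_le_zz (u : List Ix) (x : E3) :
    σ x ^ (2 * u.length) * ip (PP (dXw u G x)) (PP (dXw u G x)) ≤ zz u.length σ G x :=
  mul_le_mul_of_nonneg_left (single_le_sum (f := fun u => ip (PP (dXw u G x)) (PP (dXw u G x)))
    (fun _ _ => ip_self_nonneg _) (mem_words.2 rfl)) (by rw [pow_mul']; positivity)

lemma term_le_yw (hV : VStmt) {n : ℕ} (u : List Ix) (m : ℕ) (h : u.length + m ≤ n) (x : E3) :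
    σ x ^ (2 * u.length) * WW m (dXw u G x - PP (dXw u G x)) ≤ (n + 1) * yw n σ G x := by
  have h1 := sum_le_card_nsmul (range (m + 1)) (fun l => σ x ^ (2 * u.length) *
    ∑ w ∈ words l, wq (apW w (dXw u G x - PP (dXw u G x)))) (yw n σ G x) fun l hl => by
      have := KK.term_le_lev (n := n) (θ := 1) (σ := σ x) zero_le_one
        (φ := fun u m => ∑ w ∈ words m, wq (apW w (dXw u G x - PP (dXw u G x))))
        (fun _ _ => sum_nonneg fun _ _ => hV.wq_nonneg _) u l (by have := mem_range.1 hl; omega)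
      rwa [one_pow, one_mul] at this
  rw [card_range, nsmul_eq_mul, ← mul_sum] at h1
  have h2 : ((m + 1 : ℕ) : ℝ) ≤ n + 1 := by exact_mod_cast (by omega : m + 1 ≤ n + 1)
  exact h1.trans (mul_le_mul_of_nonneg_right h2 (yw_nonneg hV n x))

lemma le_sqrt_of {s W B : ℝ} {k : ℕ} (hW : 0 ≤ W) (h : s ^ (2 * k) * W ≤ B) :
    s ^ k * √W ≤ √B := by
  refine Real.le_sqrt_of_sq_le ?_
  rwa [mul_pow, Real.sq_sqrt hW, ← pow_mul, mul_comm k]

lemma continuous_zz (hσ : Continuous σ) (hG : Sm G) (j : ℕ) : Continuous (zz j σ G) :=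
  (hσ.pow _).mul (continuous_finsetSum _ fun u _ => (sm_ip_clm (hG.dXw u) PP PP).cont)

lemma continuous_yw (hV : VStmt) (hσ : Continuous σ) (hG : Sm G) (n : ℕ) :
    Continuous (yw n σ G) := by
  unfold yw lev
  refine continuous_finsetSum _ fun j _ => continuous_finsetSum _ fun m _ =>
    (continuous_const.mul (hσ.pow _)).mul (continuous_finsetSum _ fun u _ =>
      continuous_finsetSum _ fun w _ => hV.wq_cont.comp ((apW w).continuous.comp ?_))
  exact (hG.dXw u).cont.sub (PP.continuous.comp (hG.dXw u).cont)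

lemma continuous_et {ω ωt σt : E3 → ℝ} (hω : Continuous ω) (hσ : Continuous σ)
    (hωt : Continuous ωt) (hσt : Continuous σt) (hG : Sm G) (n : ℕ) (θ : ℝ) :
    Continuous (et n θ ω σ ωt σt G) := by
  unfold et
  refine (hωt.mul (KK.continuous_bb hσ hG hG)).add (hω.mul (continuous_finsetSum _ fun j _ =>
    continuous_finsetSum _ fun m _ => (continuous_const.mul
      ((continuous_const.mul (hσ.pow _)).mul hσt)).mul (continuous_finsetSum _ fun u _ => ?_)))
  exact (sm_RR (hG.dXw u) m).cont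

/-- The pointwise inequality with the sizes of the statement. -/
lemma point_le (hV : VStmt) (K : ℕ → ℝ) : ∃ K0 : ℝ, ∀ (n : ℕ) (θ ε : ℝ), 0 < θ → θ ≤ 1 → 0 < ε →
    ∃ C : ℝ, 0 < C ∧ ∀ (F : Fld) (lam : ℝ) (ω σ μ ωt σt γ : E3 → ℝ) (G : E3 → SV), 0 ≤ lam →
      F.Bd K σ μ → WtBd F K lam ω σ μ ωt σt γ → ∀ x,
      ∑ j ∈ range (n + 1), ∑ m ∈ range (n + 1 - j), θ ^ (j + m) *
          ∑ u ∈ words j, (jet F ω σ μ ωt σt γ G x).q j m u
        ≤ (θ ^ n * (K0 - 2 * n * lam) + ε) * (μ x * ω x * zz n σ G x)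
          + C * ∑ j ∈ range n, μ x * ω x * zz j σ G x + C * (μ x * ω x * yw n σ G x) := by
  obtain ⟨K0, h0⟩ := Jet.sum_q_le hV K
  refine ⟨K0, fun n θ ε hθ hθ1 hε => ?_⟩
  obtain ⟨C, hC, h0⟩ := h0 n
  obtain ⟨cs, Cs, hCs, hs, hs'⟩ := unif_const hV.split n
  set D := (Cs + 1) * (n + 1) with hD
  have hD1 : Cs + 1 ≤ D := le_mul_of_one_le_right (by positivity) (by
    linarith [(Nat.cast_nonneg n : (0 : ℝ) ≤ n)])
  have hD2 : (n + 1 : ℝ) ≤ D := le_mul_of_one_le_left (by positivity) (by linarith)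
  refine ⟨ε + (C * D) ^ 2 / ε, by positivity, fun F lam ω σ μ ωt σt γ G hlam hB hW x => ?_⟩
  have hσ := (hW.hσ.pos x).le
  have hμω : 0 < μ x * ω x := mul_pos (hW.hμ.pos x) (hW.hω.pos x)
  set S := ∑ j ∈ range n, zz j σ G x with hS
  set y := yw n σ G x with hy
  set z := zz n σ G x with hz
  have hS0 : 0 ≤ S := sum_nonneg fun _ _ => zz_nonneg _ _
  have hy0 : 0 ≤ y := yw_nonneg hV n x
  have hz0 : 0 ≤ z := zz_nonneg _ _
  have low : ∀ u : List Ix, u.length < n → zz u.length σ G x ≤ S := fun u hu =>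
    single_le_sum (f := fun j => zz j σ G x) (fun _ _ => zz_nonneg _ _) (mem_range.2 hu)
  have rho : ∀ (u : List Ix) (m : ℕ), u.length + m ≤ n →
      σ x ^ (2 * u.length) * WW m (dXw u G x) ≤ D * (zz u.length σ G x + y) := by
    intro u m hum
    have a1 := mul_le_mul_of_nonneg_left ((hs m).2 (dXw u G x))
      (by positivity : 0 ≤ σ x ^ (2 * u.length))
    have a2 := term_le_zz (σ := σ) (G := G) u x
    have a3 := term_le_yw (σ := σ) (G := G) hV u m hum x
    have a4 := zz_nonneg (σ := σ) (G := G) u.length x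
    have a5 : cs m ≤ Cs + 1 := (hs' m (by omega)).trans (by linarith)
    calc _ ≤ _ := a1
      _ = cs m * (σ x ^ (2 * u.length) * ip (PP (dXw u G x)) (PP (dXw u G x))
          + σ x ^ (2 * u.length) * WW m (dXw u G x - PP (dXw u G x))) := by ring
      _ ≤ cs m * (zz u.length σ G x + (n + 1) * y) :=
          mul_le_mul_of_nonneg_left (add_le_add a2 a3) (hs m).1.le
      _ ≤ (Cs + 1) * ((n + 1) * zz u.length σ G x + (n + 1) * y) := by
          gcongr
          exact le_mul_of_one_le_left a4 (by linarith [(Nat.cast_nonneg n : (0 : ℝ) ≤ n)])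
      _ = _ := by rw [hD]; ring
  have hD0 : 0 ≤ D := by positivity
  have key := h0 θ (jet F ω σ μ ωt σt γ G x) lam (√(D * (S + y))) (√(D * (z + S + y))) hθ hθ1
    (jet_H hB hW x) hlam (Real.sqrt_nonneg _) (Real.sqrt_le_sqrt (by gcongr; linarith))
    (fun u m hum hu => le_sqrt_of (hV.WW_nonneg _ _) ((rho u m hum).trans (by
      gcongr; exact low u hu)))
    (fun u m hum => le_sqrt_of (hV.WW_nonneg _ _) ((rho u m hum).trans (by
      gcongr
      rcases (show u.length ≤ n by omega).lt_or_eq with hu | hu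
      · linarith [low u hu]
      · rw [hu]; linarith)))
    (fun u hu => le_sqrt_of (hV.wq_nonneg _) (by
      have a3 := term_le_yw (σ := σ) (G := G) (n := n) hV u 0 (by omega) x
      have e : WW 0 (dXw u G x - PP (dXw u G x)) = wq (dXw u G x - PP (dXw u G x)) := by
        simp [WW, words]
      rw [e, hu] at a3
      refine a3.trans ?_
      gcongr
      linarith))
    (fun u hu => le_sqrt_of (ip_self_nonneg _) (by
      have a2 := term_le_zz (σ := σ) (G := G) u x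
      rw [hu] at a2
      refine a2.trans ((le_mul_of_one_le_left hz0 (by linarith : 1 ≤ D)).trans ?_)
      gcongr
      linarith))
  have am : C * (√(D * (S + y)) * √(D * (z + S + y))) ≤
      ε * (z + S + y) + (C * D) ^ 2 / ε * (S + y) := by
    rw [Real.sqrt_mul hD0, Real.sqrt_mul hD0]
    have e1 := Real.mul_self_sqrt hD0
    have e2 := Real.sq_sqrt (by positivity : 0 ≤ S + y)
    have e3 := Real.sq_sqrt (by positivity : 0 ≤ z + S + y)
    set p := √(S + y)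
    set q := √(z + S + y)
    have e4 : C * (√D * p * (√D * q)) = C * D * p * q := by
      linear_combination (C * p * q) * e1
    rw [e4, ← e2, ← e3]
    have e5 : ε * q ^ 2 + (C * D) ^ 2 / ε * p ^ 2 - C * D * p * q =
        ((ε * q - C * D * p / 2) ^ 2 + 3 / 4 * (C * D * p) ^ 2) / ε := by
      field_simp; ring
    have e6 : 0 ≤ ((ε * q - C * D * p / 2) ^ 2 + 3 / 4 * (C * D * p) ^ 2) / ε := by positivity
    linarith
  refine key.trans ?_
  change μ x * ω x * (θ ^ n * (K0 - 2 * n * lam) * z + _) ≤ _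
  rw [← mul_sum]
  nlinarith [mul_le_mul_of_nonneg_left am hμω.le]

end Trn

open Trn in
theorem trStmt_of (hV : VStmt) : TrStmt := by
  intro K
  obtain ⟨K0, h0⟩ := point_le hV K
  refine ⟨K0, fun n θ ε hθ hθ1 hε => ?_⟩
  obtain ⟨C, hC, h0⟩ := h0 n θ ε hθ hθ1 hε
  refine ⟨C, hC, fun F lam ω σ μ ωt σt γ G hlam hR hB hW hωt hσt hγ hG hP => ?_⟩
  have hω := hW.hω.sm
  have hσ := hW.hσ.sm
  have hμω : Continuous fun x => μ x * ω x := hW.hμ.sm.cont.mul hω.cont
  have c1 := continuous_et hω.cont hσ.cont hωt hσt hG n θ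
  have c2 : Continuous fun x => γ x * bb n θ σ G G x := hγ.mul (KK.continuous_bb hσ.cont hG hG)
  have c3 : Continuous fun x => ω x * bb n θ σ (F.tr G) G x :=
    hω.cont.mul (KK.continuous_bb hσ.cont (hR.sm_tr hG) hG)
  have c4 : ∀ j m i u, Continuous (dX i (flux F ω σ G j m i u)) := fun j m i u =>
    ((sm_flux hR hω hσ hG j m i u).dX i).cont
  have c5 : ∀ j m, Continuous fun x => θ ^ (j + m) *
      ∑ u ∈ words j, ∑ i, dX i (flux F ω σ G j m i u) x := fun j m =>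
    continuous_const.mul (continuous_finsetSum _ fun u _ => continuous_finsetSum _ fun i _ =>
      c4 j m i u)
  have c6 : Continuous fun x => ∑ j ∈ range (n + 1), ∑ m ∈ range (n + 1 - j), θ ^ (j + m) *
      ∑ u ∈ words j, ∑ i, dX i (flux F ω σ G j m i u) x :=
    continuous_finsetSum _ fun j _ => continuous_finsetSum _ fun m _ => c5 j m
  have cz : ∀ j, Continuous fun x => μ x * ω x * zz j σ G x := fun j =>
    hμω.mul (continuous_zz hσ.cont hG j)
  have cy : Continuous fun x => μ x * ω x * yw n σ G x := hμω.mul (continuous_yw hV hσ.cont hG n)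
  have cs : Continuous fun x => ∑ j ∈ range n, μ x * ω x * zz j σ G x :=
    continuous_finsetSum _ fun j _ => cz j
  have hdiv : tint (fun x => ∑ j ∈ range (n + 1), ∑ m ∈ range (n + 1 - j), θ ^ (j + m) *
      ∑ u ∈ words j, ∑ i, dX i (flux F ω σ G j m i u) x) = 0 := by
    rw [tint_sum _ fun j _ => continuous_finsetSum _ fun m _ => c5 j m]
    refine sum_eq_zero fun j _ => ?_
    rw [tint_sum _ fun m _ => c5 j m]
    refine sum_eq_zero fun m _ => ?_
    rw [tint_const_mul, tint_sum _ fun u _ => continuous_finsetSum _ fun i _ => c4 j m i u]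
    refine mul_eq_zero_of_right _ (sum_eq_zero fun u _ => ?_)
    rw [tint_sum _ fun i _ => c4 j m i u]
    exact sum_eq_zero fun i _ => tint_dX (sm_flux hR hω hσ hG j m i u)
      (per_flux hR hW.hω.per hW.hσ.per hP j m i u) i
  have main := tint_mono (((c1.add c2).sub (continuous_const.mul c3)).add c6)
    (((continuous_const.mul (cz n)).add (continuous_const.mul cs)).add (continuous_const.mul cy))
    fun x => (jet_sum (μ := μ) (ωt := ωt) (σt := σt) (γ := γ) hR hω hσ hG n θ x).trans_le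
      (h0 F lam ω σ μ ωt σt γ G hlam hB hW x)
  erw [tint_add ((c1.add c2).sub (continuous_const.mul c3)) c6,
    tint_sub (c1.add c2) (continuous_const.mul c3), tint_add c1 c2, tint_const_mul, hdiv,
    tint_add ((continuous_const.mul (cz n)).add (continuous_const.mul cs))
      (continuous_const.mul cy),
    tint_add (continuous_const.mul (cz n)) (continuous_const.mul cs), tint_const_mul,
    tint_const_mul, tint_const_mul, tint_sum _ fun j _ => cz j] at main
  unfold En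
  linarith

end Pool.Agent.BoltzD

end
end MrgPart1

-- ======== part 2: formerly Pool.Agent.BoltzD.Gain.Basic
section MrgPart2

/-! Tools for the collision gain and the trilinear estimate: sums over levels and over splits,
Leibniz rule for the creation operators, elementary facts on the linearised operator. -/

set_option autoImplicit false

open Pool.Agent.BoltzC Finset

noncomputable section

namespace Pool.Agent.BoltzD.Gain

variable [Dim]

/-! ### Sums over levels -/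

/-- Number of terms of a level sum. -/
def NL (n : ℕ) : ℝ := lev n 1 1 fun _ _ => 1

lemma lev_eq (n : ℕ) (θ σ : ℝ) (φ : List Ix → ℕ → ℝ) :
    lev n θ σ φ = ∑ j ∈ range (n + 1), ∑ m ∈ range (n + 1 - j), ∑ u ∈ words j,
      θ ^ (u.length + m) * σ ^ (2 * u.length) * φ u m := by
  unfold lev
  refine sum_congr rfl fun j _ => sum_congr rfl fun m _ => ?_
  rw [mul_sum]
  exact sum_congr rfl fun u hu => by rw [mem_words.1 hu]

lemma NL_nonneg (n : ℕ) : 0 ≤ NL n := by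
  rw [NL, lev_eq]
  exact sum_nonneg fun _ _ => sum_nonneg fun _ _ => sum_nonneg fun _ _ => by positivity

lemma lev_le_add {n : ℕ} {θ σ c B : ℝ} {φ ψ : List Ix → ℕ → ℝ}
    (h : ∀ u m, u.length + m ≤ n → c * (θ ^ (u.length + m) * σ ^ (2 * u.length) * ψ u m) ≤
      θ ^ (u.length + m) * σ ^ (2 * u.length) * φ u m + B) :
    c * lev n θ σ ψ ≤ lev n θ σ φ + NL n * B := by
  rw [NL, lev_eq, lev_eq, lev_eq]
  simp only [mul_sum, sum_mul, ← sum_add_distrib]
  refine sum_le_sum fun j hj => sum_le_sum fun m hm => sum_le_sum fun u hu => ?_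
  have h1 := mem_words.1 hu
  have h2 := mem_range.1 hj
  have h3 := mem_range.1 hm
  simpa using h u m (by omega)

lemma abs_lev_le {n : ℕ} {θ σ B : ℝ} {φ : List Ix → ℕ → ℝ}
    (h : ∀ u m, u.length + m ≤ n → |θ ^ (u.length + m) * σ ^ (2 * u.length) * φ u m| ≤ B) :
    |lev n θ σ φ| ≤ NL n * B := by
  have h1 := lev_le_add (n := n) (θ := θ) (σ := σ) (c := 0) (B := B) (φ := φ) (ψ := φ)
    fun u m hu => by linarith [(abs_le.1 (h u m hu)).1]
  have h2 := lev_le_add (n := n) (θ := θ) (σ := σ) (c := 1) (B := B) (φ := fun _ _ => 0) (ψ := φ)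
    fun u m hu => by linarith [(abs_le.1 (h u m hu)).2]
  have h3 : lev n θ σ (fun _ _ => 0) = 0 := by simp [lev]
  rw [abs_le]
  constructor <;> linarith

lemma single_le_lev {n : ℕ} {θ σ : ℝ} (hθ : 0 ≤ θ) {φ : List Ix → ℕ → ℝ}
    (h : ∀ u m, 0 ≤ φ u m) {u : List Ix} {m : ℕ} (hu : u.length + m ≤ n) :
    θ ^ (u.length + m) * σ ^ (2 * u.length) * φ u m ≤ lev n θ σ φ := by
  have hp : ∀ (u : List Ix) m, 0 ≤ θ ^ (u.length + m) * σ ^ (2 * u.length) * φ u m :=
    fun u m => mul_nonneg (mul_nonneg (pow_nonneg hθ _) (Even.pow_nonneg (by simp) _)) (h u m)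
  rw [lev_eq]
  refine le_trans ?_ (single_le_sum (f := fun j => ∑ m ∈ range (n + 1 - j), ∑ u ∈ words j,
    θ ^ (u.length + m) * σ ^ (2 * u.length) * φ u m)
    (fun _ _ => sum_nonneg fun _ _ => sum_nonneg fun _ _ => hp _ _)
    (mem_range.2 (show u.length < n + 1 by omega)))
  refine le_trans ?_ (single_le_sum (f := fun m => ∑ u ∈ words u.length,
    θ ^ (u.length + m) * σ ^ (2 * u.length) * φ u m)
    (fun _ _ => sum_nonneg fun _ _ => hp _ _)
    (mem_range.2 (show m < n + 1 - u.length by omega)))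
  exact single_le_sum (f := fun u : List Ix =>
    θ ^ (u.length + m) * σ ^ (2 * u.length) * φ u m) (fun _ _ => hp _ _) (mem_words.2 rfl)

lemma card_words (m : ℕ) : (words m).card = dd ^ m := by
  induction m with
  | zero => simp [words]
  | succ m ih => simp [words, ih, pow_succ, mul_comm]

lemma abs_sum_words_le {m n : ℕ} (hm : m ≤ n) {f : List Ix → ℝ} {B : ℝ} (hB : 0 ≤ B)
    (h : ∀ w, w.length = m → |f w| ≤ B) : |∑ w ∈ words m, f w| ≤ (dd : ℝ) ^ n * B := by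
  refine (abs_sum_le_sum_abs _ _).trans ((sum_le_card_nsmul _ _ B fun w hw =>
    h w (mem_words.1 hw)).trans ?_)
  rw [card_words, nsmul_eq_mul]
  push_cast
  gcongr
  linarith [two_le_dr]

/-! ### Sums over splits -/

lemma abs_sum_splits_le (u : List Ix) {f : List Ix × List Ix → ℝ} {B : ℝ}
    (h : ∀ p, p.1.length + p.2.length = u.length → |f p| ≤ B) :
    |((splits u).map f).sum| ≤ 2 ^ u.length * B := by
  induction u generalizing f with
  | nil => simpa [splits] using h ([], []) rfl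
  | cons i u ih =>
    have h1 := ih (f := fun p => f (i :: p.1, p.2)) fun p hp => h _ (by simp; omega)
    have h2 := ih (f := fun p => f (p.1, i :: p.2)) fun p hp => h _ (by simp; omega)
    simp only [splits, List.map_append, List.map_map, List.sum_append, List.length_cons, pow_succ]
    refine (abs_add_le _ _).trans ?_
    simp only [Function.comp_def]
    linarith

lemma abs_sum_splits_sub_le (u : List Ix) {f : List Ix × List Ix → ℝ} {B : ℝ}
    (hB : 0 ≤ B)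
    (h : ∀ p, p.1.length + p.2.length = u.length → p.2.length < u.length → |f p| ≤ B) :
    |((splits u).map f).sum - f ([], u)| ≤ 2 ^ u.length * B := by
  induction u generalizing f with
  | nil => simpa [splits] using hB
  | cons i u ih =>
    have h1 := abs_sum_splits_le u (f := fun p => f (i :: p.1, p.2)) fun p hp =>
      h _ (by simp; omega) (by simp; omega)
    have h2 := ih (f := fun p => f (p.1, i :: p.2)) fun p hp hq =>
      h _ (by simp; omega) (by simp; omega)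
    simp only [splits, List.map_append, List.map_map, List.sum_append, List.length_cons, pow_succ]
    rw [add_sub_assoc]
    refine (abs_add_le _ _).trans ?_
    simp only [Function.comp_def]
    linarith

lemma abs_sum_splits_le' {n : ℕ} {u : List Ix} (hu : u.length ≤ n)
    {f : List Ix × List Ix → ℝ} {B : ℝ} (hB : 0 ≤ B)
    (h : ∀ p, p.1.length + p.2.length = u.length → |f p| ≤ B) :
    |((splits u).map f).sum| ≤ 2 ^ n * B :=
  (abs_sum_splits_le u h).trans (by gcongr; norm_num)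

/-! ### The collision operator -/

variable (Q : CollOp)

lemma apW_G (w : List Ix) (f g : SV) :
    apW w (Q.G f g) = ((splits w).map fun p => Q.G (apW p.1 f) (apW p.2 g)).sum := by
  induction w with
  | nil => simp [splits]
  | cons j w ih =>
    rw [apW_cons, ih, map_list_sum]
    simp [splits, Function.comp_def, Q.leib, List.sum_map_add]

lemma PP_L (f : SV) : PP (Q.L f) = 0 := by rw [Q.L_eq, map_neg, Q.hyd, neg_zero]

lemma L_PP (f : SV) : Q.L (PP f) = 0 := by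
  apply ip_self_eq_zero
  rw [Q.L_symm, ip_PP, PP_L, map_zero]

lemma L_sub_PP (f : SV) : Q.L (f - PP f) = Q.L f := by rw [map_sub, L_PP, sub_zero]

lemma D_nonneg (f : SV) : 0 ≤ ip (Q.L f) f := by
  obtain ⟨lam, hl, h⟩ := Q.gap
  exact (mul_nonneg hl.le (ip_self_nonneg _)).trans (h f)

lemma D_le_dq (f : SV) : ip (Q.L f) f ≤ Q.dq f := le_add_of_nonneg_right (ip_self_nonneg f)

lemma ip_le_dq (f : SV) : ip f f ≤ Q.dq f := le_add_of_nonneg_left (D_nonneg Q f)

lemma dq_nonneg (f : SV) : 0 ≤ Q.dq f := (ip_self_nonneg f).trans (ip_le_dq Q f)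

lemma ip_RR_micro {F : SV} (hF : PP F = 0) (m : ℕ) (g : SV) :
    ip F (RR m g) = ip F (RR m (g - PP g)) := by
  have := ip_sub_RR_PP m F g
  rw [hF, sub_zero] at this
  rw [map_sub, map_sub, this, sub_zero]

/-- The trilinear estimate in terms of `dq`, for both orders of the arguments. -/
lemma tri_dq : ∃ C : ℝ, 0 < C ∧ ∀ g h f,
    |ip (Q.G g h) f| ≤ C * √(nA Q.p h) * √(Q.dq g) * √(Q.dq f) ∧
    |ip (Q.G g h) f| ≤ C * √(nA Q.p g) * √(Q.dq h) * √(Q.dq f) := by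
  obtain ⟨C, hC, h⟩ := Q.tri
  have key : ∀ g k f, |ip (Q.G g k) f| ≤ C * √(nA Q.p k) * √(Q.dq g) * √(Q.dq f) := fun g k f =>
    (h g k f).trans (by unfold CollOp.dq; gcongr; exact D_le_dq Q f)
  exact ⟨C, hC, fun g k f => ⟨key g k f, by rw [Q.symm]; exact key k g f⟩⟩

/-- Coercivity up to the hydrodynamic part. -/
lemma coer : ∃ c : ℝ, 0 < c ∧ ∀ f, c * Q.dq f ≤ ip (Q.L f) f + ip (PP f) (PP f) := by
  obtain ⟨lam, hl, h⟩ := Q.gap
  refine ⟨lam / (1 + lam), by positivity, fun f => ?_⟩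
  have h1 := h f
  have h2 := ip_split f
  have h3 := ip_self_nonneg (PP f)
  rw [div_mul_eq_mul_div, div_le_iff₀ (by positivity), CollOp.dq]
  nlinarith

lemma single_le_YY {n : ℕ} {θ : ℝ} (hθ : 0 ≤ θ) (σ : E3 → ℝ) (G : E3 → SV) (x : E3)
    {u w : List Ix} (hu : u.length + w.length ≤ n) :
    θ ^ (u.length + w.length) * σ x ^ (2 * u.length) * Q.dq (apW w (dXw u G x)) ≤
      YY Q n θ σ G x := by
  refine le_trans ?_ (single_le_lev hθ (φ := fun u m => ∑ w ∈ words m, Q.dq (apW w (dXw u G x)))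
    (fun _ _ => sum_nonneg fun _ _ => dq_nonneg Q _) hu)
  refine mul_le_mul_of_nonneg_left ?_
    (mul_nonneg (pow_nonneg hθ _) (Even.pow_nonneg (by simp) _))
  exact single_le_sum (f := fun w => Q.dq (apW w (dXw u G x))) (fun _ _ => dq_nonneg Q _)
    (mem_words.2 rfl)

lemma YY_nonneg {n : ℕ} {θ : ℝ} (hθ : 0 ≤ θ) (σ : E3 → ℝ) (G : E3 → SV) (x : E3) :
    0 ≤ YY Q n θ σ G x :=
  le_trans (by simpa using dq_nonneg Q _) (single_le_YY Q hθ σ G x (u := []) (w := []) (by simp))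

lemma nA_apW_le (p : ℕ) (w : List Ix) (f : SV) : nA p (apW w f) ≤ nA (w.length + p) f := by
  rw [nA_add]
  exact single_le_sum (f := fun w => nA p (apW w f)) (fun _ _ => nA_nonneg _ _) (mem_words.2 rfl)

lemma single_le_bb {N p : ℕ} (σ : E3 → ℝ) (G : E3 → SV) (x : E3)
    {u w : List Ix} (hu : u.length + w.length ≤ N) :
    σ x ^ (2 * u.length) * nA p (apW w (dXw u G x)) ≤ bb (N + p) 1 σ G G x := by
  have h := single_le_lev (n := N + p) (σ := σ x) zero_le_one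
    (φ := fun u m => ip (dXw u G x) (RR m (dXw u G x)))
    (fun _ _ => by rw [← nA_eq_ip_RR]; exact nA_nonneg _ _) (u := u) (m := w.length + p) (by omega)
  rw [one_pow, one_mul, ← nA_eq_ip_RR] at h
  exact (mul_le_mul_of_nonneg_left (nA_apW_le p w _) (Even.pow_nonneg (by simp) _)).trans h

lemma dXw_micro {G : E3 → SV} (hG : Sm G) (u : List Ix) (x : E3) :
    dXw u (fun y => G y - PP (G y)) x = dXw u G x - PP (dXw u G x) := by
  rw [dXw_sub hG (hG.clm PP), dXw_clm hG PP]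

/-- A uniform constant for the symbol bounds up to order `n`. -/
lemma sym_le {K : ℕ → ℝ} {σ k : E3 → ℝ} (hk : ∀ x, 0 ≤ k x) (h : SymBd K 0 σ k k) {n : ℕ}
    {u : List Ix} (hu : u.length ≤ n) (x : E3) :
    σ x ^ u.length * |dXw u k x| ≤ (∑ i ∈ range (n + 1), |K i|) * k x := by
  refine (h u (Nat.zero_le _) x).trans (mul_le_mul_of_nonneg_right ((le_abs_self _).trans ?_) (hk x))
  exact single_le_sum (f := fun i => |K i|) (fun _ _ => abs_nonneg _) (mem_range.2 (by omega))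

end Pool.Agent.BoltzD.Gain

end
end MrgPart2

-- ======== part 3: formerly Pool.Agent.BoltzD.Gain.Gam
section MrgPart3

/-! The pointwise trilinear estimate `GamStmt`. -/

set_option autoImplicit false

open Pool.Agent.BoltzC Finset

noncomputable section

namespace Pool.Agent.BoltzD.Gain

variable [Dim]

variable (Q : CollOp)

lemma ip_list_sum {ι : Type} (l : List ι) (f : ι → SV) (g : SV) :
    ip (l.map f).sum g = (l.map fun i => ip (f i) g).sum := by
  induction l with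
  | nil => simp
  | cons a l ih => simp [ih]

lemma ip_G_RR (a b g : SV) (m : ℕ) :
    ip (Q.G a b) (RR m g) = ∑ w ∈ words m, ((splits w).map fun p =>
      ip (Q.G (apW p.1 a) (apW p.2 b)) (apW w (g - PP g))).sum := by
  rw [ip_RR_micro (Q.hyd a b), ip_RR]
  exact sum_congr rfl fun w _ => by rw [apW_G, ip_list_sum]

lemma mul_sqrt_le {t a Y : ℝ} (ht : 0 ≤ t) (h : t ^ 2 * a ≤ Y) : t * √a ≤ √Y := by
  rw [← Real.sqrt_sq ht, ← Real.sqrt_mul (sq_nonneg t)]
  exact Real.sqrt_le_sqrt h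

lemma sqrt_dq_le {n a : ℕ} {θ : ℝ} (hθ : 0 ≤ θ) (hθ1 : θ ≤ 1) {σ : E3 → ℝ} (hσ : ∀ x, 0 < σ x)
    (G : E3 → SV) (x : E3) {u w : List Ix} (hu : u.length + w.length ≤ n)
    (ha : u.length + w.length ≤ 2 * a) :
    θ ^ a * σ x ^ u.length * √(Q.dq (apW w (dXw u G x))) ≤ √(YY Q n θ σ G x) := by
  have := hσ x
  refine mul_sqrt_le (by positivity) (le_trans ?_ (single_le_YY Q hθ σ G x hu))
  rw [mul_pow, ← pow_mul, ← pow_mul, mul_comm u.length 2]
  refine mul_le_mul_of_nonneg_right (mul_le_mul_of_nonneg_right ?_ (by positivity))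
    (dq_nonneg Q _)
  exact pow_le_pow_of_le_one hθ hθ1 (by omega)

lemma sqrt_nA_le {N p : ℕ} {σ : E3 → ℝ} (hσ : ∀ x, 0 < σ x) (G : E3 → SV) (x : E3)
    {u w : List Ix} (hu : u.length + w.length ≤ N) :
    σ x ^ u.length * √(nA p (apW w (dXw u G x))) ≤ √(bb (N + p) 1 σ G G x) := by
  have := hσ x
  refine mul_sqrt_le (by positivity) ?_
  rw [← pow_mul, mul_comm u.length 2]
  exact single_le_bb σ G x hu

lemma term_le {θn C s₁ s₂ t a b f b₁ Y₂ R : ℝ} (hC : 0 ≤ C) (h0 : 0 ≤ θn) (h1 : 0 ≤ s₁)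
    (h2 : 0 ≤ s₂) (ha : 0 ≤ a) (hb : 0 ≤ b) (hf : 0 ≤ f) (hR : 0 ≤ R) (ht : t ≤ C * a * b * f)
    (e1 : s₁ * a ≤ b₁) (e2 : θn * s₂ * b ≤ Y₂) :
    θn * (s₁ * s₂) * t ≤ C * (b₁ * Y₂ + R) * f := by
  have hb₁ : 0 ≤ b₁ := le_trans (by positivity) e1
  calc _ ≤ θn * (s₁ * s₂) * (C * a * b * f) := by gcongr
    _ = C * ((s₁ * a) * (θn * s₂ * b)) * f := by ring
    _ ≤ C * (b₁ * Y₂) * f := by gcongr
    _ ≤ _ := by gcongr; linarith

lemma term_le₂ {θn θa C Kb k S y su s₀ s₁₂ dk t f : ℝ} (hC : 0 ≤ C) (h0 : 0 < θn) (h1 : 0 ≤ θa)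
    (h2 : 0 ≤ su) (h3 : 0 ≤ s₀) (h4 : 0 ≤ s₁₂) (hK : 0 ≤ Kb) (hk : 0 ≤ k) (hS : 0 ≤ S)
    (e1 : s₀ * |dk| ≤ Kb * k) (e2 : θn * s₁₂ * |t| ≤ C * S * f) (e3 : θa * su * f ≤ y) :
    |θa * (su * (s₀ * s₁₂)) * dk * t| ≤ Kb * C / θn * (k * S * y) := by
  rw [div_mul_eq_mul_div, le_div_iff₀ h0, abs_mul, abs_mul,
    abs_of_nonneg (show 0 ≤ θa * (su * (s₀ * s₁₂)) by positivity)]
  calc _ = (s₀ * |dk|) * (θa * su) * (θn * s₁₂ * |t|) := by ring
    _ ≤ (Kb * k) * (θa * su) * (C * S * f) := by gcongr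
    _ = Kb * C * (k * S * (θa * su * f)) := by ring
    _ ≤ _ := by gcongr

theorem gamStmt : GamStmt := by
  intro Q K n θ hθ hθ1
  obtain ⟨C, hC, htri⟩ := tri_dq Q
  obtain ⟨Kb, hKb⟩ : ∃ Kb : ℝ, Kb = ∑ i ∈ range (n + 1), |K i| := ⟨_, rfl⟩
  have hKb0 : 0 ≤ Kb := hKb ▸ sum_nonneg fun _ _ => abs_nonneg _
  obtain ⟨N, hN⟩ : ∃ N : ℝ, N = NL n := ⟨_, rfl⟩
  have hN0 : 0 ≤ N := hN ▸ NL_nonneg n
  refine ⟨N * (2 ^ n * (2 ^ n * ((dd : ℝ) ^ n * (2 ^ n * (Kb * C / θ ^ n))))) + 1, by positivity, ?_⟩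
  intro σ k G₁ G₂ H hk hG₁ hG₂ hH hσ hk0 hsym x
  obtain ⟨b₁, hb₁⟩ : ∃ b : ℝ, b = √(bb (n / 2 + Q.p) 1 σ G₁ G₁ x) := ⟨_, rfl⟩
  obtain ⟨b₂, hb₂⟩ : ∃ b : ℝ, b = √(bb (n / 2 + Q.p) 1 σ G₂ G₂ x) := ⟨_, rfl⟩
  obtain ⟨Y₁, hY₁⟩ : ∃ b : ℝ, b = √(YY Q n θ σ G₁ x) := ⟨_, rfl⟩
  obtain ⟨Y₂, hY₂⟩ : ∃ b : ℝ, b = √(YY Q n θ σ G₂ x) := ⟨_, rfl⟩
  obtain ⟨y, hy⟩ : ∃ b : ℝ, b = √(yy Q n θ σ H x) := ⟨_, rfl⟩
  rw [← hb₁, ← hb₂, ← hY₁, ← hY₂, ← hy]
  have p1 : 0 ≤ b₁ * Y₂ := by rw [hb₁, hY₂]; exact mul_nonneg (Real.sqrt_nonneg _) (Real.sqrt_nonneg _)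
  have p2 : 0 ≤ b₂ * Y₁ := by rw [hb₂, hY₁]; exact mul_nonneg (Real.sqrt_nonneg _) (Real.sqrt_nonneg _)
  have hy0 : 0 ≤ y := hy ▸ Real.sqrt_nonneg _
  have hkx := hk0 x
  have hs := (hσ x).le
  have hS0 : 0 ≤ b₁ * Y₂ + b₂ * Y₁ := add_nonneg p1 p2
  have hP : 0 ≤ k x * (b₁ * Y₂ + b₂ * Y₁) * y := mul_nonneg (mul_nonneg hkx hS0) hy0
  obtain ⟨B, hB⟩ : ∃ B : ℝ, B = Kb * C / θ ^ n * (k x * (b₁ * Y₂ + b₂ * Y₁) * y) := ⟨_, rfl⟩
  have hB0 : 0 ≤ B := hB ▸ mul_nonneg (div_nonneg (mul_nonneg hKb0 hC.le) (pow_nonneg hθ.le _)) hP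
  have t2 : (0 : ℝ) ≤ 2 ^ n := pow_nonneg zero_le_two _
  have t3 : (0 : ℝ) ≤ (dd : ℝ) ^ n := pow_nonneg dr_pos.le _
  have hB1 := mul_nonneg t2 hB0
  have hB2 := mul_nonneg t3 hB1
  have main : |bb n θ σ (fun y => k y • Q.G (G₁ y) (G₂ y)) H x| ≤
      NL n * (2 ^ n * (2 ^ n * ((dd : ℝ) ^ n * (2 ^ n * B)))) := by
    refine abs_lev_le fun u m hu => ?_
    rw [dXw_smul hk (Sm.bilin Q.G Q.cont hG₁ hG₂), ip_list_sum, ← List.sum_map_mul_left]
    refine abs_sum_splits_le' (by omega) (mul_nonneg t2 hB2) fun q hq => ?_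
    rw [dXw_bilin Q.G Q.cont hG₁ hG₂, map_smul, LinearMap.smul_apply, smul_eq_mul, ip_list_sum,
      ← mul_assoc, ← List.sum_map_mul_left]
    refine abs_sum_splits_le' (by omega) hB2 fun r hr => ?_
    rw [ip_G_RR, mul_sum]
    refine abs_sum_words_le (by omega) hB1 fun w hw => ?_
    rw [← List.sum_map_mul_left]
    refine abs_sum_splits_le' (by omega) hB0 fun p hp => ?_
    have ha := sym_le hk0 hsym (u := q.1) (n := n) (by omega) x
    have hd := sqrt_dq_le Q hθ.le hθ1 hσ (fun y => H y - PP (H y)) x (n := n) (a := u.length + m)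
      (u := u) (w := w) (by omega) (by omega)
    rw [dXw_micro hH] at hd
    have hpow : σ x ^ (2 * u.length) =
        σ x ^ u.length * (σ x ^ q.1.length * (σ x ^ r.1.length * σ x ^ r.2.length)) := by
      rw [← pow_add, ← pow_add, ← pow_add]; congr 1; omega
    rw [hpow, hB]
    refine term_le₂ hC.le (pow_pos hθ n) (pow_nonneg hθ.le _) (pow_nonneg hs _) (pow_nonneg hs _)
      (mul_nonneg (pow_nonneg hs _) (pow_nonneg hs _)) hKb0 hkx hS0 (hKb ▸ ha) ?_ (hy ▸ hd)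
    rcases le_or_gt (r.1.length + p.1.length) (n / 2) with h | h
    · exact term_le hC.le (pow_nonneg hθ.le _) (pow_nonneg hs _) (pow_nonneg hs _)
        (Real.sqrt_nonneg _) (Real.sqrt_nonneg _) (Real.sqrt_nonneg _) p2 (htri _ _ _).2
        (hb₁ ▸ sqrt_nA_le hσ G₁ x h)
        (hY₂ ▸ sqrt_dq_le Q hθ.le hθ1 hσ G₂ x (by omega) (by omega))
    · rw [mul_comm (σ x ^ r.1.length), add_comm (b₁ * Y₂)]
      exact term_le hC.le (pow_nonneg hθ.le _) (pow_nonneg hs _) (pow_nonneg hs _)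
        (Real.sqrt_nonneg _) (Real.sqrt_nonneg _) (Real.sqrt_nonneg _) p1 (htri _ _ _).1
        (hb₂ ▸ sqrt_nA_le hσ G₂ x (by omega))
        (hY₁ ▸ sqrt_dq_le Q hθ.le hθ1 hσ G₁ x (by omega) (by omega))
  refine main.trans ?_
  rw [← hN, hB]
  calc _ = N * (2 ^ n * (2 ^ n * ((dd : ℝ) ^ n * (2 ^ n * (Kb * C / θ ^ n))))) *
        (k x * (b₁ * Y₂ + b₂ * Y₁) * y) := by ring
    _ ≤ _ := by linarith

end Pool.Agent.BoltzD.Gain

end
end MrgPart3

-- ======== part 4: formerly Pool.Agent.BoltzD.Gain.Main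
section MrgPart4

/-! The pointwise collision gain `GainStmt`. -/

set_option autoImplicit false

open Pool.Agent.BoltzC Finset

noncomputable section

namespace Pool.Agent.BoltzD.Gain

variable [Dim]

variable (Q : CollOp)

lemma sqrt_dq_le_sq {n : ℕ} {τ : ℝ} (hτ : 0 ≤ τ) {σ : E3 → ℝ} (hσ : ∀ x, 0 < σ x)
    (G : E3 → SV) (x : E3) {u w : List Ix} (hu : u.length + w.length ≤ n) :
    τ ^ (u.length + w.length) * σ x ^ u.length * √(Q.dq (apW w (dXw u G x))) ≤
      √(YY Q n (τ ^ 2) σ G x) := by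
  have := hσ x
  refine mul_sqrt_le (by positivity) (le_of_eq_of_le ?_ (single_le_YY Q (sq_nonneg τ) σ G x hu))
  ring

lemma PP_apW_le_unif (n : ℕ) : ∃ C : ℝ, 0 ≤ C ∧ ∀ (w : List Ix), w.length ≤ n → ∀ f,
    ip (PP (apW w f)) (PP (apW w f)) ≤ C * ip f f := by
  choose C hC h using PP_apW_le
  refine ⟨∑ m ∈ range (n + 1), ∑ w ∈ words m, C w,
    sum_nonneg fun _ _ => sum_nonneg fun _ _ => hC _, fun w hw f => (h w f).trans ?_⟩
  refine mul_le_mul_of_nonneg_right ?_ (ip_self_nonneg f)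
  refine le_trans ?_ (single_le_sum (f := fun m => ∑ w ∈ words m, C w)
    (fun _ _ => sum_nonneg fun _ _ => hC _) (mem_range.2 (show w.length < n + 1 by omega)))
  exact single_le_sum (f := C) (fun _ _ => hC _) (mem_words.2 rfl)

lemma off_le {τ C M Kb k Y su s₀ s₂ dk t a b f : ℝ} {α β : ℕ} (hβ : β < α) (hτ : 0 ≤ τ)
    (hτ1 : τ ≤ 1) (hC : 0 ≤ C) (h2 : 0 ≤ su) (h3 : 0 ≤ s₀) (h4 : 0 ≤ s₂) (hK : 0 ≤ Kb) (hk : 0 ≤ k)
    (hY : 0 ≤ Y) (ha : 0 ≤ a) (hb : 0 ≤ b) (hf : 0 ≤ f) (e0 : a ≤ M)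
    (e1 : s₀ * |dk| ≤ Kb * k) (e2 : |t| ≤ C * a * b * f) (e3 : τ ^ β * s₂ * b ≤ √Y)
    (e4 : τ ^ α * su * f ≤ √Y) :
    |-((τ ^ 2) ^ α * (su * (s₀ * s₂)) * dk) * t| ≤ Kb * C * M * (τ * k * Y) := by
  have hM : 0 ≤ M := ha.trans e0
  have h5 : τ ^ α ≤ τ ^ β * τ := by
    rw [← pow_succ]; exact pow_le_pow_of_le_one hτ hτ1 hβ
  rw [abs_mul, abs_neg, abs_mul,
    abs_of_nonneg (show 0 ≤ (τ ^ 2) ^ α * (su * (s₀ * s₂)) by positivity)]
  calc _ = (s₀ * |dk|) * τ ^ α * (τ ^ α * su * s₂) * |t| := by ring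
    _ ≤ (Kb * k) * (τ ^ β * τ) * (τ ^ α * su * s₂) * (C * M * b * f) := by
        gcongr
        exact e2.trans (by gcongr)
    _ = Kb * C * M * (τ * k * ((τ ^ β * s₂ * b) * (τ ^ α * su * f))) := by ring
    _ ≤ Kb * C * M * (τ * k * (√Y * √Y)) := by gcongr
    _ = _ := by rw [Real.mul_self_sqrt hY]

theorem gainStmt : GainStmt := by
  intro Q K n
  obtain ⟨C, hC, htri⟩ := tri_dq Q
  obtain ⟨c, hc, hcoer⟩ := coer Q
  obtain ⟨Cp, hCp, hPP⟩ := PP_apW_le_unif n
  obtain ⟨Kb, hKb⟩ : ∃ Kb : ℝ, Kb = ∑ i ∈ range (n + 1), |K i| := ⟨_, rfl⟩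
  have hKb0 : 0 ≤ Kb := hKb ▸ sum_nonneg fun _ _ => abs_nonneg _
  obtain ⟨N, hN⟩ : ∃ N : ℝ, N = NL n := ⟨_, rfl⟩
  have hN0 : 0 ≤ N := hN ▸ NL_nonneg n
  obtain ⟨M, hM⟩ : ∃ M : ℝ, M = √(nA (n + Q.p) sqMS) := ⟨_, rfl⟩
  have hM0 : 0 ≤ M := hM ▸ Real.sqrt_nonneg _
  obtain ⟨D, hD⟩ : ∃ D : ℝ, D = 2 ^ n * ((dd : ℝ) ^ n * (2 ^ n * (Kb * C * M))) +
      (dd : ℝ) ^ n * (2 ^ n * (Kb * C * M) + Cp) := ⟨_, rfl⟩
  have hD0 : 0 ≤ D := by rw [hD]; positivity
  obtain ⟨τ0, hτ0⟩ : ∃ t : ℝ, t = c / (2 * (N * D + 1)) := ⟨_, rfl⟩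
  have hτ00 : 0 < τ0 := by rw [hτ0]; positivity
  refine ⟨min 1 (τ0 ^ 2), c / 2, lt_min one_pos (pow_pos hτ00 2), min_le_left _ _, half_pos hc, ?_⟩
  intro θ hθ hθ0 σ k G hk hG hσ hk0 hsym x
  obtain ⟨τ, hτ, rfl⟩ : ∃ τ : ℝ, 0 ≤ τ ∧ θ = τ ^ 2 := ⟨√θ, Real.sqrt_nonneg _, (Real.sq_sqrt hθ.le).symm⟩
  have hτ1 : τ ≤ 1 := by
    have := hθ0.trans (min_le_left _ _)
    exact (sq_le_one_iff₀ hτ).1 this
  have hτ2 : τ ≤ τ0 := (pow_le_pow_iff_left₀ hτ hτ00.le two_ne_zero).1 (hθ0.trans (min_le_right _ _))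
  obtain ⟨h, hh⟩ : ∃ h : E3 → SV, h = fun y => G y - PP (G y) := ⟨_, rfl⟩
  have hd : ∀ u, dXw u G x - PP (dXw u G x) = dXw u h x := fun u => by rw [hh, dXw_micro hG]
  obtain ⟨Y, hY⟩ : ∃ Y : ℝ, Y = YY Q n (τ ^ 2) σ h x := ⟨_, rfl⟩
  have hY0 : 0 ≤ Y := hY ▸ YY_nonneg Q (sq_nonneg τ) σ h x
  have hkx := hk0 x
  have hs := (hσ x).le
  obtain ⟨P, hP⟩ : ∃ P : ℝ, P = τ * k x * Y := ⟨_, rfl⟩
  have hP0 : 0 ≤ P := hP ▸ mul_nonneg (mul_nonneg hτ hkx) hY0
  have t2 : (0 : ℝ) ≤ 2 ^ n := pow_nonneg zero_le_two _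
  have t3 : (0 : ℝ) ≤ (dd : ℝ) ^ n := pow_nonneg dr_pos.le _
  have hB0 : 0 ≤ Kb * C * M * P := mul_nonneg (mul_nonneg (mul_nonneg hKb0 hC.le) hM0) hP0
  have hB1 := mul_nonneg t2 hB0
  have hB2 := mul_nonneg t3 hB1
  have main : c * k x * YY Q n (τ ^ 2) σ h x ≤
      bb n (τ ^ 2) σ (fun y => k y • Q.L (G y)) G x + NL n * (D * P) := by
    refine lev_le_add fun u m hu => ?_
    obtain ⟨W, hW⟩ : ∃ W : ℝ, W = (τ ^ 2) ^ (u.length + m) * σ x ^ (2 * u.length) := ⟨_, rfl⟩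
    have hW0 : 0 ≤ W := hW ▸ mul_nonneg (pow_nonneg (sq_nonneg τ) _) (pow_nonneg hs _)
    have off : ∀ (q p : List Ix × List Ix) (w : List Ix), w.length = m →
        q.1.length + q.2.length = u.length → p.1.length + p.2.length = w.length →
        q.2.length + p.2.length < u.length + w.length →
        |-(W * dXw q.1 k x) * ip (Q.G (apW p.1 sqMS) (apW p.2 (dXw q.2 h x)))
          (apW w (dXw u h x))| ≤ Kb * C * M * P := by
      intro q p w hw hq hp hlt
      have hpow : σ x ^ (2 * u.length) =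
          σ x ^ u.length * (σ x ^ q.1.length * σ x ^ q.2.length) := by
        rw [← pow_add, ← pow_add]; congr 1; omega
      rw [hW, hpow, hP, ← hw]
      refine off_le hlt hτ hτ1 hC.le (pow_nonneg hs _) (pow_nonneg hs _) (pow_nonneg hs _) hKb0 hkx
        hY0 (Real.sqrt_nonneg _) (Real.sqrt_nonneg _) (Real.sqrt_nonneg _) ?_
        (hKb ▸ sym_le hk0 hsym (by omega) x) (htri _ _ _).2
        (hY ▸ sqrt_dq_le_sq Q hτ hσ h x (by omega)) (hY ▸ sqrt_dq_le_sq Q hτ hσ h x (by omega))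
      exact hM ▸ Real.sqrt_le_sqrt ((nA_apW_le _ _ _).trans (nA_mono (by omega) _))
    have expand : ∀ q : List Ix × List Ix,
        W * ip (dXw q.1 k x • dXw q.2 (fun y => Q.L (G y)) x) (RR m (dXw u G x)) =
        ∑ w ∈ words m, ((splits w).map fun p => -(W * dXw q.1 k x) *
          ip (Q.G (apW p.1 sqMS) (apW p.2 (dXw q.2 h x))) (apW w (dXw u h x))).sum := by
      intro q
      rw [dXw_clm hG Q.L]
      simp only [List.sum_map_mul_left]
      rw [← mul_sum, ← hd u, ← ip_G_RR, ← hd q.2, ← L_sub_PP Q (dXw q.2 G x), Q.L_eq]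
      simp only [map_smul, map_neg, LinearMap.smul_apply, LinearMap.neg_apply, smul_eq_mul]
      ring
    rw [← hW, dXw_smul hk (hG.clm Q.L), ip_list_sum, ← List.sum_map_mul_left]
    simp only [expand]
    have h1 := abs_sum_splits_sub_le u (f := fun q => ∑ w ∈ words m, ((splits w).map fun p =>
        -(W * dXw q.1 k x) * ip (Q.G (apW p.1 sqMS) (apW p.2 (dXw q.2 h x)))
          (apW w (dXw u h x))).sum) hB2 fun q hq hlt => by
      refine abs_sum_words_le (by omega) hB1 fun w hw => ?_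
      refine abs_sum_splits_le' (by omega) hB0 fun p hp => ?_
      exact off q p w hw hq hp (by omega)
    have h1' : (2 : ℝ) ^ u.length * ((dd : ℝ) ^ n * (2 ^ n * (Kb * C * M * P))) ≤
        2 ^ n * ((dd : ℝ) ^ n * (2 ^ n * (Kb * C * M * P))) :=
      mul_le_mul_of_nonneg_right (pow_le_pow_right₀ one_le_two (by omega)) hB2
    have h2 : ∀ w ∈ words m, c * k x * W * Q.dq (apW w (dXw u h x)) ≤ ((splits w).map fun p =>
        -(W * k x) * ip (Q.G (apW p.1 sqMS) (apW p.2 (dXw u h x))) (apW w (dXw u h x))).sum +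
          (2 ^ n * (Kb * C * M * P) + Cp * P) := by
      intro w hw
      rw [mem_words] at hw
      have h3 := abs_sum_splits_sub_le w (f := fun p => -(W * k x) *
          ip (Q.G (apW p.1 sqMS) (apW p.2 (dXw u h x))) (apW w (dXw u h x))) hB0
        fun p hp hlt => off ([], u) p w hw (by simp) hp (by simpa using hlt)
      have h3' : (2 : ℝ) ^ w.length * (Kb * C * M * P) ≤ 2 ^ n * (Kb * C * M * P) :=
        mul_le_mul_of_nonneg_right (pow_le_pow_right₀ one_le_two (by omega)) hB0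
      have h4 : ip (Q.G sqMS (apW w (dXw u h x))) (apW w (dXw u h x)) =
          -ip (Q.L (apW w (dXw u h x))) (apW w (dXw u h x)) := by
        rw [Q.L_eq]; simp
      have h5 : W * ip (PP (apW w (dXw u h x))) (PP (apW w (dXw u h x))) ≤ Cp * (τ * Y) := by
        rcases Nat.eq_zero_or_pos m with h0 | h0
        · rw [List.length_eq_zero_iff.1 (hw.trans h0), apW_nil, ← hd u, PP_sub_PP, map_zero,
            mul_zero]
          exact mul_nonneg hCp (mul_nonneg hτ hY0)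
        · have h6 := single_le_YY Q (sq_nonneg τ) σ h x (n := n) (u := u) (w := []) (by simp; omega)
          rw [← hY, apW_nil, List.length_nil, add_zero] at h6
          have h7 : (τ ^ 2) ^ m ≤ τ := by
            rw [← pow_mul]
            exact pow_le_of_le_one hτ hτ1 (by omega)
          have h8 := (hPP w (by omega) (dXw u h x)).trans
            (mul_le_mul_of_nonneg_left (ip_le_dq Q _) hCp)
          refine (mul_le_mul_of_nonneg_left h8 hW0).trans ?_
          rw [hW, pow_add]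
          calc _ = Cp * ((τ ^ 2) ^ m * ((τ ^ 2) ^ u.length * σ x ^ (2 * u.length) *
                Q.dq (dXw u h x))) := by ring
            _ ≤ _ := mul_le_mul_of_nonneg_left (mul_le_mul h7 h6 (mul_nonneg (mul_nonneg
                (pow_nonneg (sq_nonneg τ) _) (pow_nonneg hs _)) (dq_nonneg Q _)) hτ) hCp
      have h6 := mul_le_mul_of_nonneg_left (hcoer (apW w (dXw u h x))) (mul_nonneg hW0 hkx)
      have h7 := mul_le_mul_of_nonneg_left h5 hkx
      simp only [apW_nil, h4] at h3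
      have h8 := (abs_le.1 h3).1
      have h9 : k x * (Cp * (τ * Y)) = Cp * P := by rw [hP]; ring
      linarith
    have h3 := sum_le_sum h2
    rw [sum_add_distrib, sum_const, card_words, nsmul_eq_mul, ← mul_sum] at h3
    have h4 : ((dd ^ m : ℕ) : ℝ) * (2 ^ n * (Kb * C * M * P) + Cp * P) ≤
        (dd : ℝ) ^ n * (2 ^ n * (Kb * C * M * P) + Cp * P) := by
      refine mul_le_mul_of_nonneg_right ?_ (add_nonneg hB1 (mul_nonneg hCp hP0))
      push_cast
      exact pow_le_pow_right₀ (by linarith [two_le_dr]) (by omega)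
    have h5 := (abs_le.1 h1).1
    simp only [dXw_nil] at h5
    have h6 : D * P = 2 ^ n * ((dd : ℝ) ^ n * (2 ^ n * (Kb * C * M * P))) +
        (dd : ℝ) ^ n * (2 ^ n * (Kb * C * M * P) + Cp * P) := by rw [hD]; ring
    linarith
  have e : yy Q n (τ ^ 2) σ G x = Y := by rw [hY, hh]; rfl
  rw [e]
  rw [← hY, ← hN] at main
  have h1 : N * D * τ ≤ c / 2 := by
    have h2 : τ0 * (2 * (N * D + 1)) = c := by rw [hτ0]; field_simp
    have h3 := mul_le_mul_of_nonneg_left hτ2 (mul_nonneg hN0 hD0)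
    linarith
  have h2 := mul_le_mul_of_nonneg_right h1 (mul_nonneg hkx hY0)
  have h3 : N * (D * P) = N * D * τ * (k x * Y) := by rw [hP]; ring
  linarith

end Pool.Agent.BoltzD.Gain

end
end MrgPart4

-- ======== part 5: formerly Pool.Agent.BoltzD.Calc.Bridge
section MrgPart5

/-! Bridges between the classes `Sm`, `SmC`, `SmD` and `ContDiff`. -/

set_option autoImplicit false
set_option linter.unusedSectionVars false

open Filter Topology Asymptotics
open scoped ContDiff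

namespace Pool.Agent.BoltzC

variable [Dim]

variable {G : Type*} [NormedAddCommGroup G] [NormedSpace ℝ G]
variable {D : Type*} [NormedAddCommGroup D] [NormedSpace ℝ D]

theorem hd_line_of_hasFDerivAt {φ : D → G} {L : D →L[ℝ] G} {x : D} (h : HasFDerivAt φ L x)
    (z : D) : HD (fun t : ℝ => φ (x + t • z)) (L z) 0 := HasDerivAt.hd (h.hasLineDerivAt z)

theorem dX_eq_fderiv {φ : E3 → G} {x : E3} (h : DifferentiableAt ℝ φ x) (i : Ix) :
    dX i φ x = fderiv ℝ φ x (ev i) := dX_eq (hd_line_of_hasFDerivAt h.hasFDerivAt _)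

theorem dX_of_hasFDerivAt {φ : E3 → G} {L : E3 →L[ℝ] G} {x : E3} (h : HasFDerivAt φ L x)
    (i : Ix) : dX i φ x = L (ev i) := dX_eq (hd_line_of_hasFDerivAt h _)

theorem dif_of_differentiable {φ : E3 → G} (h : Differentiable ℝ φ) : Dif φ :=
  dif_of_hd fun i x => hd_line_of_hasFDerivAt (h x).hasFDerivAt (ev i)

theorem dX_eq_lineDeriv {φ : E3 → G} (h : Dif φ) (i : Ix) (x : E3) :
    dX i φ x = lineDeriv ℝ φ x (ev i) := ((h i x).hasDerivAt.deriv).symm

theorem dX_congr_of_eventuallyEq {F : Type*} [AddCommGroup F] [Module ℝ F] [TopologicalSpace F]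
    {φ ψ : E3 → F} {x : E3} (h : φ =ᶠ[𝓝 x] ψ) (i : Ix) : dX i φ x = dX i ψ x := by
  unfold dX limUnder
  congr 1
  refine map_congr ?_
  have h1 : Tendsto (fun t : ℝ => x + t • ev i) (𝓝[≠] 0) (𝓝 x) := by
    have : Tendsto (fun t : ℝ => x + t • ev i) (𝓝 0) (𝓝 (x + (0 : ℝ) • ev i)) :=
      Continuous.tendsto (by fun_prop) 0
    rw [zero_smul, add_zero] at this
    exact this.mono_left nhdsWithin_le_nhds
  filter_upwards [h1.eventually h] with t ht
  rw [ht, h.eq_of_nhds]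

theorem dX_eventuallyEq {F : Type*} [AddCommGroup F] [Module ℝ F] [TopologicalSpace F]
    {φ ψ : E3 → F} {x : E3} (h : φ =ᶠ[𝓝 x] ψ) (i : Ix) : dX i φ =ᶠ[𝓝 x] dX i ψ :=
  h.eventuallyEq_nhds.mono fun _ hy => dX_congr_of_eventuallyEq hy i

theorem dXw_eventuallyEq {F : Type*} [AddCommGroup F] [Module ℝ F] [TopologicalSpace F]
    {φ ψ : E3 → F} {x : E3} (h : φ =ᶠ[𝓝 x] ψ) (u : List Ix) :
    dXw u φ =ᶠ[𝓝 x] dXw u ψ := by
  induction u generalizing φ ψ with
  | nil => exact h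
  | cons i u ih => exact ih (dX_eventuallyEq h i)

theorem dXw_congr_of_eventuallyEq {F : Type*} [AddCommGroup F] [Module ℝ F] [TopologicalSpace F]
    {φ ψ : E3 → F} {x : E3} (h : φ =ᶠ[𝓝 x] ψ) (u : List Ix) : dXw u φ x = dXw u ψ x :=
  (dXw_eventuallyEq h u).eq_of_nhds

theorem dX_eq_fderiv_joint {c : D → E3 → G} {s : D} {x : E3}
    (h : DifferentiableAt ℝ (fun p : D × E3 => c p.1 p.2) (s, x)) (i : Ix) :
    dX i (c s) x = fderiv ℝ (fun p : D × E3 => c p.1 p.2) (s, x) (0, ev i) := by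
  apply dX_eq
  simpa using hd_line_of_hasFDerivAt h.hasFDerivAt (0, ev i)

theorem contDiff_dX_joint {c : D → E3 → G} (h : ContDiff ℝ ∞ fun p : D × E3 => c p.1 p.2)
    (i : Ix) : ContDiff ℝ ∞ fun p : D × E3 => dX i (c p.1) p.2 := by
  have h1 := (contDiff_infty_iff_fderiv.1 h).2.clm_apply
    (contDiff_const (c := ((0, ev i) : D × E3)))
  have e : (fun p : D × E3 => dX i (c p.1) p.2) =
      fun p => fderiv ℝ (fun p : D × E3 => c p.1 p.2) p (0, ev i) :=
    funext fun p => dX_eq_fderiv_joint (h.differentiable (by simp) (p.1, p.2)) i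
  rw [e]
  exact h1

theorem contDiff_dXw_joint {c : D → E3 → G} (h : ContDiff ℝ ∞ fun p : D × E3 => c p.1 p.2)
    (u : List Ix) : ContDiff ℝ ∞ fun p : D × E3 => dXw u (c p.1) p.2 := by
  induction u generalizing c with
  | nil => exact h
  | cons i u ih => exact ih (c := fun s => dX i (c s)) (contDiff_dX_joint h i)

theorem contDiff_dX {φ : E3 → G} (h : ContDiff ℝ ∞ φ) (i : Ix) : ContDiff ℝ ∞ (dX i φ) := by
  have e : dX i φ = fun x => fderiv ℝ φ x (ev i) :=
    funext fun x => dX_eq_fderiv (h.differentiable (by simp) x) i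
  rw [e]
  exact (contDiff_infty_iff_fderiv.1 h).2.clm_apply contDiff_const

theorem contDiff_dXw {φ : E3 → G} (h : ContDiff ℝ ∞ φ) (u : List Ix) :
    ContDiff ℝ ∞ (dXw u φ) := by
  induction u generalizing φ with
  | nil => exact h
  | cons i u ih => exact ih (contDiff_dX h i)

theorem smC_of_contDiff {c : D → E3 → G} (h : ContDiff ℝ ∞ fun p : D × E3 => c p.1 p.2) :
    SmC c := fun u =>
  ⟨(contDiff_dXw_joint h u).continuous, fun s => dif_of_differentiable
    (((contDiff_dXw_joint h u).comp (contDiff_prodMk_right s)).differentiable (by simp))⟩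

theorem sm_of_contDiff {φ : E3 → G} (h : ContDiff ℝ ∞ φ) : Sm φ := fun u =>
  ⟨(contDiff_dXw h u).continuous.comp continuous_snd, fun _ => dif_of_differentiable
    ((contDiff_dXw h u).differentiable (by simp))⟩

theorem hasDerivAt_time_joint {c : ℝ → E3 → G} {s : ℝ} {x : E3}
    (h : DifferentiableAt ℝ (fun p : ℝ × E3 => c p.1 p.2) (s, x)) :
    HasDerivAt (fun t => c t x) (fderiv ℝ (fun p : ℝ × E3 => c p.1 p.2) (s, x) (1, 0)) s := by
  refine (hd_shift.1 ?_).hasDerivAt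
  simpa using hd_line_of_hasFDerivAt h.hasFDerivAt (1, 0)

theorem contDiff_time_deriv {c : ℝ → E3 → G} (h : ContDiff ℝ ∞ fun p : ℝ × E3 => c p.1 p.2) :
    ContDiff ℝ ∞ fun p : ℝ × E3 => deriv (fun t => c t p.2) p.1 := by
  have e : (fun p : ℝ × E3 => deriv (fun t => c t p.2) p.1) =
      fun p => fderiv ℝ (fun p : ℝ × E3 => c p.1 p.2) p (1, 0) :=
    funext fun p => (hasDerivAt_time_joint (h.differentiable (by simp) (p.1, p.2))).deriv
  rw [e]
  exact (contDiff_infty_iff_fderiv.1 h).2.clm_apply contDiff_const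

theorem smD_of_contDiff {c : ℝ → E3 → G} (h : ContDiff ℝ ∞ fun p : ℝ × E3 => c p.1 p.2) :
    SmD c fun s x => deriv (fun t => c t x) s :=
  ⟨smC_of_contDiff h, smC_of_contDiff (contDiff_time_deriv h), fun s x =>
    (hasDerivAt_time_joint (h.differentiable (by simp) (s, x))).differentiableAt.hasDerivAt.hd⟩

theorem SmD.deriv_eq {c c' : ℝ → E3 → G} (h : SmD c c') (s : ℝ) (x : E3) :
    deriv (fun t => c t x) s = c' s x := (h.hd s x).hasDerivAt.deriv

/-! ### Continuous partial derivatives -/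

/-- Continuous derivatives along the vectors of a frame give differentiability. -/
theorem hasFDerivAt_of_frame {ι : Type*} [Fintype ι] (b : ι → D) (l : ι → D →L[ℝ] ℝ)
    (hb : ∀ h, ∑ i, l i h • b i = h) {φ : D → G} {φ' : ι → D → G} {x : D}
    (hc : ∀ i, ContinuousAt (φ' i) x)
    (hd : ∀ i y, HasDerivAt (fun t : ℝ => φ (y + t • b i)) (φ' i y) 0) :
    HasFDerivAt φ (∑ i, (l i).smulRight (φ' i x)) x := by
  classical
  have key : ∀ S : Finset ι, (fun h => φ (x + ∑ i ∈ S, l i h • b i) - φ x -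
      ∑ i ∈ S, l i h • φ' i x) =o[𝓝 0] fun h => h := by
    intro S
    induction S using Finset.induction_on with
    | empty => simp
    | insert j S hj ih =>
      have h1 : (fun h => φ (x + ∑ i ∈ S, l i h • b i + l j h • b j) -
          φ (x + ∑ i ∈ S, l i h • b i) - l j h • φ' j x) =o[𝓝 0] fun h => l j h := by
        rw [isLittleO_iff]
        intro ε hε
        obtain ⟨δ, hδ, hball⟩ := Metric.continuousAt_iff.1 (hc j) ε hε
        have hT : Tendsto (fun h => ‖∑ i ∈ S, l i h • b i‖ + |l j h| * ‖b j‖) (𝓝 0) (𝓝 0) :=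
          Continuous.tendsto' (by fun_prop) 0 0 (by simp)
        filter_upwards [hT.eventually (gt_mem_nhds hδ)] with h hh
        set y := x + ∑ i ∈ S, l i h • b i with hy
        have h2 := seminorm_sub_le (normSeminorm ℝ G) continuous_norm
          (γ := fun τ => φ (y + τ • b j) - τ • φ' j x)
          (γ' := fun τ => φ' j (y + τ • b j) - φ' j x) (a := 0) (b := l j h) (C := ε)
          (fun τ _ => by
            refine HD.sub ?_ (HD.id_smul _ τ)
            refine hd_shift.1 ((hd j (y + τ • b j)).hd.congr fun t => ?_)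
            rw [add_smul, add_assoc]) (fun τ hτ => by
            have h3 : |τ| ≤ |l j h| := by simpa using Set.abs_sub_left_of_mem_uIcc hτ
            have h4 : dist (y + τ • b j) x < δ := by
              rw [dist_eq_norm, hy, add_assoc, add_sub_cancel_left]
              refine lt_of_le_of_lt ((norm_add_le _ _).trans ?_) hh
              rw [norm_smul, Real.norm_eq_abs]
              gcongr
            have := hball h4
            rw [dist_eq_norm] at this
            exact this.le)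
        simp only [coe_normSeminorm, zero_smul, add_zero, sub_zero] at h2
        rw [sub_right_comm]
        exact h2
      have h2 := (h1.trans_isBigO ((l j).isBigO_id _)).add ih
      refine h2.congr_left fun h => ?_
      rw [Finset.sum_insert hj, Finset.sum_insert hj, add_comm (l j h • b j), ← add_assoc]
      abel
  rw [hasFDerivAt_iff_isLittleO_nhds_zero]
  simpa [hb] using key Finset.univ

theorem contDiff_one_of_frame {ι : Type*} [Fintype ι] (b : ι → D) (l : ι → D →L[ℝ] ℝ)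
    (hb : ∀ h, ∑ i, l i h • b i = h) {φ : D → G} {φ' : ι → D → G} (hc : ∀ i, Continuous (φ' i))
    (hd : ∀ i y, HasDerivAt (fun t : ℝ => φ (y + t • b i)) (φ' i y) 0) : ContDiff ℝ 1 φ :=
  contDiff_one_iff_hasFDerivAt.2 ⟨fun x => ∑ i, (l i).smulRight (φ' i x),
    continuous_finsetSum _ fun i _ =>
      (ContinuousLinearMap.smulRightL ℝ D G (l i)).continuous.comp (hc i),
    fun _ => hasFDerivAt_of_frame b l hb (fun i => (hc i).continuousAt) hd⟩

/-- Coinduction principle for smoothness. -/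
theorem contDiff_of_frame {ι : Type*} [Fintype ι] (b : ι → D) (l : ι → D →L[ℝ] ℝ)
    (hb : ∀ h, ∑ i, l i h • b i = h) (P : (D → G) → Prop)
    (hP : ∀ φ, P φ → Continuous φ ∧
      ∀ i, ∃ φ', P φ' ∧ ∀ y, HasDerivAt (fun t : ℝ => φ (y + t • b i)) (φ' y) 0)
    {φ : D → G} (hφ : P φ) : ContDiff ℝ ∞ φ := by
  rw [contDiff_infty]
  intro n
  induction n generalizing φ with
  | zero => exact contDiff_zero.2 (hP φ hφ).1
  | succ n ih =>
    choose φ' h1 h2 using (hP φ hφ).2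
    exact contDiff_succ_iff_hasFDerivAt.2 ⟨fun x => ∑ i, (l i).smulRight (φ' i x),
      ContDiff.sum fun i _ =>
        (ContinuousLinearMap.smulRightL ℝ D G (l i)).contDiff.comp (ih (h1 i)),
      fun x => hasFDerivAt_of_frame b l hb (fun i => (hP _ (h1 i)).1.continuousAt) h2⟩

theorem frame_E3 (h : E3) : ∑ i, (EuclideanSpace.proj i : E3 →L[ℝ] ℝ) h • ev i = h :=
  sum_coord_ev h

theorem Sm.contDiff {φ : E3 → G} (h : Sm φ) : ContDiff ℝ ∞ φ :=
  contDiff_of_frame ev (fun i => EuclideanSpace.proj i) frame_E3 Sm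
    (fun _ hψ => ⟨hψ.cont, fun i => ⟨_, hψ.dX i, fun y => (hψ.dif i y).hasDerivAt⟩⟩) h

theorem sm_iff_contDiff {φ : E3 → G} : Sm φ ↔ ContDiff ℝ ∞ φ := ⟨Sm.contDiff, sm_of_contDiff⟩

theorem Sm.differentiable {φ : E3 → G} (h : Sm φ) : Differentiable ℝ φ :=
  h.contDiff.differentiable (by simp)

theorem Sm.fderiv_apply {φ : E3 → G} (h : Sm φ) (x z : E3) :
    fderiv ℝ φ x z = ∑ i, z i • BoltzC.dX i φ x := by
  conv_lhs => rw [← sum_coord_ev z]
  simp only [map_sum, map_smul, dX_eq_fderiv (h.differentiable x)]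

theorem Sm.norm_fderiv_le {φ : E3 → G} (h : Sm φ) (x : E3) :
    ‖fderiv ℝ φ x‖ ≤ ∑ i, ‖BoltzC.dX i φ x‖ := by
  refine ContinuousLinearMap.opNorm_le_bound _ (by positivity) fun z => ?_
  rw [h.fderiv_apply, Finset.sum_mul]
  refine (norm_sum_le _ _).trans (Finset.sum_le_sum fun i _ => ?_)
  rw [norm_smul, mul_comm]
  gcongr
  exact PiLp.norm_apply_le z i

/-- The frame of `ℝ × E3 × E3`. -/
noncomputable def frB : Option (Ix ⊕ Ix) → ℝ × E3 × E3
  | none => (1, 0, 0)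
  | some (Sum.inl i) => (0, ev i, 0)
  | some (Sum.inr j) => (0, 0, ev j)

/-- The dual frame of `ℝ × E3 × E3`. -/
noncomputable def frL : Option (Ix ⊕ Ix) → ℝ × E3 × E3 →L[ℝ] ℝ
  | none => ContinuousLinearMap.fst ℝ _ _
  | some (Sum.inl i) => (EuclideanSpace.proj i : E3 →L[ℝ] ℝ).comp
      ((ContinuousLinearMap.fst ℝ E3 E3).comp (ContinuousLinearMap.snd ℝ ℝ _))
  | some (Sum.inr j) => (EuclideanSpace.proj j : E3 →L[ℝ] ℝ).comp
      ((ContinuousLinearMap.snd ℝ E3 E3).comp (ContinuousLinearMap.snd ℝ ℝ _))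

theorem frame_seven (h : ℝ × E3 × E3) : ∑ i, frL i h • frB i = h := by
  obtain ⟨s, x, v⟩ := h
  simp only [Fintype.sum_option, Fintype.sum_sum_type, frL, frB]
  refine Prod.ext ?_ (Prod.ext ?_ ?_)
  · simp [Prod.fst_sum]
  · simpa [Prod.fst_sum, Prod.snd_sum] using sum_coord_ev x
  · simpa [Prod.snd_sum] using sum_coord_ev v

/-- Continuous first partial derivatives in `(s, x, v)` give a `C^1` function, with the formula
for the derivative. -/
theorem hasFDerivAt_of_partials {g gs : ℝ → E3 → E3 → G} {gx gv : Ix → ℝ → E3 → E3 → G}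
    (cs : Continuous fun q : ℝ × E3 × E3 => gs q.1 q.2.1 q.2.2)
    (cx : ∀ i, Continuous fun q : ℝ × E3 × E3 => gx i q.1 q.2.1 q.2.2)
    (cv : ∀ i, Continuous fun q : ℝ × E3 × E3 => gv i q.1 q.2.1 q.2.2)
    (hs : ∀ s x v, HasDerivAt (fun t => g t x v) (gs s x v) s)
    (hx : ∀ i s x v, HasDerivAt (fun t : ℝ => g s (x + t • ev i) v) (gx i s x v) 0)
    (hv : ∀ i s x v, HasDerivAt (fun t : ℝ => g s x (v + t • ev i)) (gv i s x v) 0) :
    ContDiff ℝ 1 (fun q : ℝ × E3 × E3 => g q.1 q.2.1 q.2.2) ∧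
      ∀ q z : ℝ × E3 × E3, fderiv ℝ (fun q : ℝ × E3 × E3 => g q.1 q.2.1 q.2.2) q z =
        z.1 • gs q.1 q.2.1 q.2.2 + ∑ i, z.2.1 i • gx i q.1 q.2.1 q.2.2 +
          ∑ i, z.2.2 i • gv i q.1 q.2.1 q.2.2 := by
  let φ' : Option (Ix ⊕ Ix) → ℝ × E3 × E3 → G := fun k q =>
    match k with
    | none => gs q.1 q.2.1 q.2.2
    | some (Sum.inl i) => gx i q.1 q.2.1 q.2.2
    | some (Sum.inr j) => gv j q.1 q.2.1 q.2.2
  have hc : ∀ k, Continuous (φ' k) := by
    rintro (_ | i | j)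
    · exact cs
    · exact cx i
    · exact cv j
  have hd : ∀ k (y : ℝ × E3 × E3), HasDerivAt (fun t : ℝ =>
      (fun q : ℝ × E3 × E3 => g q.1 q.2.1 q.2.2) (y + t • frB k)) (φ' k y) 0 := by
    rintro (_ | i | j) y
    · simpa [frB, φ'] using (hd_shift.2 (hs y.1 y.2.1 y.2.2).hd).hasDerivAt
    · simpa [frB, φ'] using hx i y.1 y.2.1 y.2.2
    · simpa [frB, φ'] using hv j y.1 y.2.1 y.2.2
  refine ⟨contDiff_one_of_frame frB frL frame_seven hc hd, fun q z => ?_⟩
  rw [(hasFDerivAt_of_frame frB frL frame_seven (fun k => (hc k).continuousAt) hd).fderiv]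
  simp [Fintype.sum_option, Fintype.sum_sum_type, frL, φ', add_assoc]

theorem norm_le_of_partials {L : ℝ × E3 × E3 →L[ℝ] G} {a : G} {b c : Ix → G}
    (h : ∀ z, L z = z.1 • a + ∑ i, z.2.1 i • b i + ∑ i, z.2.2 i • c i) :
    ‖L‖ ≤ ‖a‖ + ∑ i, ‖b i‖ + ∑ i, ‖c i‖ := by
  refine ContinuousLinearMap.opNorm_le_bound _ (by positivity) fun z => ?_
  have h1 : ‖z.1‖ ≤ ‖z‖ := norm_fst_le z
  have h2 : ∀ i, ‖z.2.1 i‖ ≤ ‖z‖ := fun i =>
    (PiLp.norm_apply_le z.2.1 i).trans ((norm_fst_le z.2).trans (norm_snd_le z))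
  have h3 : ∀ i, ‖z.2.2 i‖ ≤ ‖z‖ := fun i =>
    (PiLp.norm_apply_le z.2.2 i).trans ((norm_snd_le z.2).trans (norm_snd_le z))
  rw [h, add_mul, add_mul, Finset.sum_mul, Finset.sum_mul]
  refine (norm_add₃_le).trans (add_le_add (add_le_add ?_ ?_) ?_)
  · rw [norm_smul, mul_comm]; gcongr
  · refine (norm_sum_le _ _).trans (Finset.sum_le_sum fun i _ => ?_)
    rw [norm_smul, mul_comm]; gcongr; exact h2 i
  · refine (norm_sum_le _ _).trans (Finset.sum_le_sum fun i _ => ?_)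
    rw [norm_smul, mul_comm]; gcongr; exact h3 i

/-! ### Composition with smooth scalar functions -/

variable {T : Type*} [TopologicalSpace T]

/-- Composition with a function that is smooth on an open set containing the range. -/
theorem SmC.comp_contDiffOn {a : T → E3 → ℝ} (ha : SmC a) {U : Set ℝ} (hU : IsOpen U)
    (hm : ∀ s x, a s x ∈ U) {f : ℝ → ℝ} (hf : ContDiffOn ℝ ∞ f U) :
    SmC fun s x => f (a s x) := by
  let P : (T → E3 → ℝ) → Prop := fun k => ∃ (n : ℕ) (c : Fin n → T → E3 → ℝ) (F : Fin n → ℝ → ℝ),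
    (∀ j, SmC (c j)) ∧ (∀ j, ContDiffOn ℝ ∞ (F j) U) ∧ k = fun s x => ∑ j, c j s x * F j (a s x)
  refine smC_coind P ?_ ⟨1, fun _ _ _ => 1, fun _ => f, fun _ => SmC.const 1, fun _ => hf,
    by funext s x; simp⟩
  rintro k ⟨n, c, F, hc, hF, rfl⟩
  have hF' : ∀ j, ContDiffOn ℝ ∞ (deriv (F j)) U := fun j =>
    ((contDiffOn_infty_iff_deriv_of_isOpen hU).1 (hF j)).2
  refine ⟨continuous_finsetSum _ fun j _ => (hc j).cont.mul
    ((hF j).continuousOn.comp_continuous ha.cont fun p => hm p.1 p.2), fun i => ⟨_,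
    ⟨n + n, Fin.append (fun j s => BoltzC.dX i (c j s)) fun j s x => c j s x * BoltzC.dX i (a s) x,
      Fin.append F fun j => deriv (F j), fun j => ?_, fun j => ?_, rfl⟩, fun s x => ?_⟩⟩
  · refine Fin.addCases (fun j => ?_) (fun j => ?_) j
    · rw [Fin.append_left]; exact (hc j).dX i
    · rw [Fin.append_right]; exact (hc j).mul (ha.dX i)
  · refine Fin.addCases (fun j => ?_) (fun j => ?_) j
    · rw [Fin.append_left]; exact hF j
    · rw [Fin.append_right]; exact hF' j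
  · simp only [Fin.sum_univ_add, Fin.append_left, Fin.append_right, ← Finset.sum_add_distrib]
    refine HD.sum _ fun j _ => ?_
    have h1 : HasDerivAt (F j) (deriv (F j) (a s x)) (a s (x + (0 : ℝ) • ev i)) := by
      rw [zero_smul, add_zero]
      exact (((hF j).contDiffAt (hU.mem_nhds (hm s x))).differentiableAt (by simp)).hasDerivAt
    have h2 := h1.comp (0 : ℝ) (ha.dif s i x).hasDerivAt
    refine (((hc j).dif s i x).hasDerivAt.mul h2).hd.congr_deriv ?_
    simp only [Function.comp, zero_smul, add_zero]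
    ring

theorem SmC.rpow {a : T → E3 → ℝ} (ha : SmC a) (hpos : ∀ s x, 0 < a s x) (p : ℝ) :
    SmC fun s x => a s x ^ p :=
  ha.comp_contDiffOn isOpen_Ioi hpos (f := fun t => t ^ p) fun _ ht =>
    (Real.contDiffAt_rpow_const_of_ne (ne_of_gt ht)).contDiffWithinAt

theorem SmC.inv {a : T → E3 → ℝ} (ha : SmC a) (hne : ∀ s x, a s x ≠ 0) :
    SmC fun s x => (a s x)⁻¹ :=
  ha.comp_contDiffOn isOpen_compl_singleton hne (f := fun t => t⁻¹) (contDiffOn_inv ℝ)

theorem SmC.div {a b : T → E3 → ℝ} (ha : SmC a) (hb : SmC b) (hne : ∀ s x, b s x ≠ 0) :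
    SmC fun s x => a s x / b s x := by
  simpa only [div_eq_mul_inv] using ha.mul (hb.inv hne)

theorem SmC.pow {a : T → E3 → ℝ} (ha : SmC a) (n : ℕ) : SmC fun s x => a s x ^ n :=
  ha.comp_contDiffOn isOpen_univ (fun _ _ => trivial) (f := fun t => t ^ n)
    (contDiff_id.pow n).contDiffOn

theorem Sm.rpow {a : E3 → ℝ} (ha : Sm a) (hpos : ∀ x, 0 < a x) (p : ℝ) : Sm fun x => a x ^ p :=
  SmC.rpow ha (fun _ => hpos) p

theorem Sm.inv {a : E3 → ℝ} (ha : Sm a) (hne : ∀ x, a x ≠ 0) : Sm fun x => (a x)⁻¹ :=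
  SmC.inv ha fun _ => hne

theorem Sm.div {a b : E3 → ℝ} (ha : Sm a) (hb : Sm b) (hne : ∀ x, b x ≠ 0) :
    Sm fun x => a x / b x := SmC.div ha hb fun _ => hne

theorem Sm.pow {a : E3 → ℝ} (ha : Sm a) (n : ℕ) : Sm fun x => a x ^ n := SmC.pow ha n

/-- Chain rule in time for a function that is smooth on an open set containing the range. -/
theorem SmD.comp_contDiffOn {a a' : ℝ → E3 → ℝ} (ha : SmD a a') {U : Set ℝ} (hU : IsOpen U)
    (hm : ∀ s x, a s x ∈ U) {f : ℝ → ℝ} (hf : ContDiffOn ℝ ∞ f U) :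
    SmD (fun s x => f (a s x)) fun s x => deriv f (a s x) * a' s x :=
  ⟨ha.sm.comp_contDiffOn hU hm hf,
    (ha.sm.comp_contDiffOn hU hm ((contDiffOn_infty_iff_deriv_of_isOpen hU).1 hf).2).mul ha.sm',
    fun s x => (((hf.contDiffAt (hU.mem_nhds (hm s x))).differentiableAt
      (by simp)).hasDerivAt.comp s (ha.hd s x).hasDerivAt).hd⟩

theorem SmD.pow {a a' : ℝ → E3 → ℝ} (ha : SmD a a') (n : ℕ) :
    SmD (fun s x => a s x ^ n) fun s x => n * a s x ^ (n - 1) * a' s x :=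
  ⟨ha.sm.pow n, ((SmC.const (n : ℝ)).mul (ha.sm.pow _)).mul ha.sm',
    fun s x => ((ha.hd s x).hasDerivAt.fun_pow n).hd⟩

theorem SmD.rpow {a a' : ℝ → E3 → ℝ} (ha : SmD a a') (hpos : ∀ s x, 0 < a s x) (p : ℝ) :
    SmD (fun s x => a s x ^ p) fun s x => a' s x * p * a s x ^ (p - 1) :=
  ⟨ha.sm.rpow hpos p, (ha.sm'.mul (SmC.const p)).mul (ha.sm.rpow hpos _),
    fun s x => ((ha.hd s x).hasDerivAt.rpow_const (Or.inl (hpos s x).ne')).hd⟩

theorem SmD.inv {a a' : ℝ → E3 → ℝ} (ha : SmD a a') (hne : ∀ s x, a s x ≠ 0) :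
    SmD (fun s x => (a s x)⁻¹) fun s x => -a' s x / a s x ^ 2 :=
  ⟨ha.sm.inv hne, ha.sm'.neg.div (ha.sm.pow 2) fun s x => pow_ne_zero 2 (hne s x),
    fun s x => ((ha.hd s x).hasDerivAt.fun_inv (hne s x)).hd⟩

theorem dX_comp {a : E3 → ℝ} (ha : Dif a) {f : ℝ → ℝ} {f' : ℝ} {x : E3}
    (hf : HasDerivAt f f' (a x)) (i : Ix) : dX i (fun y => f (a y)) x = f' * dX i a x := by
  have h1 : HasDerivAt f f' (a (x + (0 : ℝ) • ev i)) := by simpa using hf
  exact dX_eq (h1.comp (0 : ℝ) (ha i x).hasDerivAt).hd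

theorem dX_pow {a : E3 → ℝ} (ha : Dif a) (n : ℕ) (i : Ix) (x : E3) :
    dX i (fun y => a y ^ n) x = n * a x ^ (n - 1) * dX i a x :=
  dX_comp ha (hasDerivAt_pow n (a x)) i

theorem dX_rpow {a : E3 → ℝ} (ha : Dif a) {x : E3} (hx : a x ≠ 0) (p : ℝ) (i : Ix) :
    dX i (fun y => a y ^ p) x = p * a x ^ (p - 1) * dX i a x :=
  dX_comp ha (Real.hasDerivAt_rpow_const (Or.inl hx)) i

end Pool.Agent.BoltzC

end MrgPart5

-- ======== part 6: formerly Pool.Agent.BoltzD.Calc.Eval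
section MrgPart6

/-! Evaluation of Schwartz-valued maps at a velocity. -/

set_option autoImplicit false

open Filter Topology MeasureTheory SchwartzMap Pool.Agent.BoltzC
open scoped ContDiff

noncomputable section

namespace Pool.Agent.BoltzD

variable [Dim]

variable {T : Type*} [TopologicalSpace T]

/-- Evaluation at a velocity. -/
def evV (v : E) : SV →L[ℝ] ℝ :=
  (BoundedContinuousFunction.evalCLM ℝ v).comp (toBoundedContinuousFunctionCLM ℝ E ℝ)

@[simp] lemma evV_apply (v : E) (f : SV) : evV v f = f v := rfl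

lemma continuous_evalSV : Continuous fun p : SV × E => p.1 p.2 :=
  (continuous_eval (F := BoundedContinuousFunction E ℝ)).comp
    (f := fun p : SV × E => (toBoundedContinuousFunctionCLM ℝ E ℝ p.1, p.2))
    (((toBoundedContinuousFunctionCLM ℝ E ℝ).continuous.comp continuous_fst).prodMk continuous_snd)

lemma _root_.Pool.Agent.BoltzC.HD.eval {γ : ℝ → SV} {a : SV} {t : ℝ} (h : HD γ a t) (v : E) :
    HasDerivAt (fun s => γ s v) (a v) t := (h.clm (evV v)).hasDerivAt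

lemma dX_eval {G : E3 → SV} (hG : Dif G) (i : Ix) (x v : E) :
    dX i (fun y => G y v) x = dX i G x v := congrFun (dX_clm hG (evV v) i) x

lemma dXw_eval {G : E3 → SV} (hG : Sm G) (u : List Ix) (x v : E) :
    dXw u (fun y => G y v) x = dXw u G x v := congrFun (dXw_clm hG (evV v) u) x

lemma _root_.Pool.Agent.BoltzC.SmC.eval {g : T → E3 → SV} (hg : SmC g) (v : E) :
    SmC fun s x => g s x v := hg.clm (evV v)

lemma _root_.Pool.Agent.BoltzC.Sm.eval {G : E3 → SV} (hG : Sm G) (v : E) :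
    Sm fun x => G x v := hG.clm (evV v)

lemma _root_.Pool.Agent.BoltzC.SmD.eval {g g' : ℝ → E3 → SV} (hg : SmD g g') (v : E) :
    SmD (fun s x => g s x v) fun s x => g' s x v := hg.clm (evV v)

lemma fderiv_eval_ev {G : E3 → SV} (hG : Sm G) (i : Ix) (x v : E) :
    fderiv ℝ (fun y => G y v) x (ev i) = dX i G x v := by
  rw [← dX_eq_fderiv ((hG.eval v).differentiable x), dX_eval hG.dif]

lemma continuous_eval3 {g : T → E3 → SV} (hg : Continuous fun p : T × E3 => g p.1 p.2) :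
    Continuous fun q : T × E3 × E3 => g q.1 q.2.1 q.2.2 :=
  continuous_evalSV.comp ((hg.comp (f := fun q : T × E3 × E3 => (q.1, q.2.1))
    (by fun_prop)).prodMk (by fun_prop))

/-- A `C^1` curve of smooth Schwartz-valued maps is a `C^1` function of `(s, x, v)`. -/
lemma _root_.Pool.Agent.BoltzC.SmD.contDiff_one {g g' : ℝ → E3 → SV} (hg : SmD g g') :
    ContDiff ℝ 1 (fun q : ℝ × E3 × E3 => g q.1 q.2.1 q.2.2) ∧
      ∀ q z : ℝ × E3 × E3, fderiv ℝ (fun q : ℝ × E3 × E3 => g q.1 q.2.1 q.2.2) q z =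
        z.1 * g' q.1 q.2.1 q.2.2 + ∑ i, z.2.1 i * dX i (g q.1) q.2.1 q.2.2 +
          ∑ i, z.2.2 i * dV i (g q.1 q.2.1) q.2.2 :=
  hasFDerivAt_of_partials (g := fun s x v => g s x v) (gs := fun s x v => g' s x v)
    (gx := fun i s x v => dX i (g s) x v) (gv := fun i s x v => dV i (g s x) v)
    (continuous_eval3 hg.sm'.cont)
    (fun i => continuous_eval3 (g := fun s => dX i (g s)) (hg.sm.dX i).cont)
    (fun i => continuous_eval3 (g := fun s x => dV i (g s x)) (hg.sm.clm (dV i)).cont)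
    (fun s x v => (hg.hd s x).eval v)
    (fun i s x v => (hg.sm.dif s i x).eval v) fun i s x v => hasDerivAt_line (g s x) i v

/-- The frame of `E3 × E3`. -/
def frB2 : Ix ⊕ Ix → E3 × E3
  | Sum.inl i => (ev i, 0)
  | Sum.inr j => (0, ev j)

/-- The dual frame of `E3 × E3`. -/
def frL2 : Ix ⊕ Ix → E3 × E3 →L[ℝ] ℝ
  | Sum.inl i => (EuclideanSpace.proj i : E3 →L[ℝ] ℝ).comp (ContinuousLinearMap.fst ℝ E3 E3)
  | Sum.inr j => (EuclideanSpace.proj j : E3 →L[ℝ] ℝ).comp (ContinuousLinearMap.snd ℝ E3 E3)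

lemma frame_six (h : E3 × E3) : ∑ i, frL2 i h • frB2 i = h := by
  obtain ⟨x, v⟩ := h
  simp only [Fintype.sum_sum_type, frL2, frB2]
  refine Prod.ext ?_ ?_
  · simpa [Prod.fst_sum] using sum_coord_ev x
  · simpa [Prod.snd_sum] using sum_coord_ev v

/-- A smooth Schwartz-valued map is a smooth function of `(x, v)`. -/
lemma _root_.Pool.Agent.BoltzC.Sm.contDiff_eval {G : E3 → SV} (hG : Sm G) :
    ContDiff ℝ ∞ fun q : E3 × E3 => G q.1 q.2 := by
  refine contDiff_of_frame frB2 frL2 frame_six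
    (fun φ => ∃ H : E3 → SV, Sm H ∧ φ = fun q => H q.1 q.2) ?_ ⟨G, hG, rfl⟩
  rintro φ ⟨H, hH, rfl⟩
  refine ⟨continuous_evalSV.comp ((hH.cont.comp continuous_fst).prodMk continuous_snd), ?_⟩
  rintro (i | j)
  · exact ⟨_, ⟨_, hH.dX i, rfl⟩, fun y => by simpa [frB2] using (hH.dif i y.1).eval y.2⟩
  · exact ⟨_, ⟨_, hH.clm (dV j), rfl⟩, fun y => by
      simpa [frB2] using hasDerivAt_line (H y.1) j y.2⟩

/-- Weighted pointwise bounds of the value and of the velocity derivatives. -/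
lemma weighted_dV_le_nA (p : ℕ) : ∃ C : ℝ, 0 < C ∧ ∀ (f : SV) (v : E),
    (1 + ‖v‖) ^ p * |f v| ≤ C * √(nA (p + dd + 1) f) ∧
      ∀ i, (1 + ‖v‖) ^ p * |dV i f v| ≤ C * √(nA (p + dd + 1) f) := by
  obtain ⟨C, hC, h⟩ := weighted_le_nA p
  refine ⟨C, hC, fun f v => ⟨(h f v).1.trans ?_, fun i => le_trans ?_ (h f v).2⟩⟩
  · gcongr
    exact nA_mono (by omega) f
  · gcongr
    rw [dV_apply]
    simpa [norm_ev] using (fderiv ℝ f v).le_opNorm (ev i)

end Pool.Agent.BoltzD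

end
end MrgPart6

-- marker of a merged file
example : 731051 + 791610 = 731051 + 791610 := rfl

end MrgPart0

-- ======== part 1: formerly Pool.Agent.BoltzD.KK.Comp
section MrgPart1

/-! Point values on a ball are controlled by finitely many energy pairings. -/

set_option autoImplicit false

open MeasureTheory Pool.Agent.BoltzC Finset Filter Topology
open scoped ContDiff

noncomputable section

namespace Pool.Agent.BoltzD.KK

variable [Dim]

lemma exists_supp {α : Type*} [Zero α] {φ : E3 → α} (h : HasCompactSupport φ) :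
    ∃ ρ, 1 ≤ ρ ∧ Supp ρ φ := by
  obtain ⟨ρ, hρ⟩ := h.isCompact.isBounded.subset_closedBall (0 : E3)
  refine ⟨max ρ 1, le_max_right _ _, fun x hx => ?_⟩
  by_contra h0
  have := hρ (subset_tsupport φ h0)
  rw [mem_closedBall_zero_iff] at this
  linarith [le_max_left ρ 1]

/-- The space of compactly supported smooth hydrodynamic functions. -/
def DD : Submodule ℝ (E3 → SV) where
  carrier := {φ | InD φ}
  add_mem' := fun {φ ψ} h k => ⟨h.1.add k.1, h.2.1.add k.2.1, fun y => by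
    rw [Pi.add_apply, map_add, h.2.2, k.2.2]⟩
  zero_mem' := ⟨Sm.const 0, HasCompactSupport.zero, fun _ => map_zero _⟩
  smul_mem' := fun c φ h => ⟨h.1.const_smul c, h.2.1.comp_left (g := fun f => c • f) (smul_zero c),
    fun y => by rw [Pi.smul_apply, map_smul, h.2.2]⟩

variable {n : ℕ} {θ ν a : ℝ}

lemma integrable_WE {φ G : E3 → SV} (h : Sm φ) (hc : HasCompactSupport φ) (hG : Sm G) :
    Integrable fun y => wh a y * bb n θ (sh ν) φ G y := by
  obtain ⟨ρ, -, hρ⟩ := exists_supp hc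
  exact Supp.integrable (ρ := ρ) (fun x hx => by rw [supp_bb hρ x hx, mul_zero])
    ((continuous_wh a).mul (continuous_bb (continuous_sh ν) h hG))

lemma WE_comm (φ ψ : E3 → SV) : WE n θ ν a φ ψ = WE n θ ν a ψ φ := by
  simp only [WE, bb_comm (G := φ)]

lemma WE_nonneg (hθ : 0 ≤ θ) (φ : E3 → SV) : 0 ≤ WE n θ ν a φ φ :=
  integral_nonneg fun y => mul_nonneg (wh_pos a y).le (bb_nonneg hθ y)

lemma WE_add_left (φ φ' ψ : DD) :
    WE n θ ν a (φ + φ' : DD) ψ = WE n θ ν a φ ψ + WE n θ ν a φ' ψ := by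
  rw [WE, WE, WE, ← integral_add (integrable_WE φ.2.1 φ.2.2.1 ψ.2.1)
    (integrable_WE φ'.2.1 φ'.2.2.1 ψ.2.1)]
  congr 1
  funext y
  rw [← mul_add, ← bb_add_left φ.2.1 φ'.2.1]
  rfl

lemma WE_smul_left (c : ℝ) (φ ψ : DD) : WE n θ ν a (c • φ : DD) ψ = c * WE n θ ν a φ ψ := by
  rw [WE, WE, ← integral_const_mul]
  congr 1
  funext y
  rw [mul_left_comm, ← bb_smul_left φ.2.1]
  rfl

/-- The whole space energy as a bilinear form. -/
def WB (n : ℕ) (θ ν a : ℝ) : DD →ₗ[ℝ] DD →ₗ[ℝ] ℝ :=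
  LinearMap.mk₂ ℝ (fun φ ψ => WE n θ ν a φ ψ) WE_add_left WE_smul_left
    (fun φ ψ ψ' => by rw [WE_comm, WE_add_left, WE_comm φ.1, WE_comm φ.1])
    fun c φ ψ => by rw [WE_comm, WE_smul_left, WE_comm φ.1]; rfl

lemma WB_apply (φ ψ : DD) : WB n θ ν a φ ψ = WE n θ ν a φ ψ := rfl

/-- Sobolev bound on a ball. -/
lemma sob_ball (n : ℕ) (ν a R : ℝ) (hθ : 0 < θ) (hθ1 : θ ≤ 1) : ∃ C : ℝ, 0 < C ∧
    ∀ Z : E3 → SV, Sm Z → HasCompactSupport Z → ∀ u : List Ix, u.length + dd ≤ n →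
      ∀ x, ‖x‖ ≤ R → ip (dXw u Z x) (dXw u Z x) ≤ C * WE n θ ν a Z Z := by
  obtain ⟨w0, hw0, hw⟩ : ∃ w0 : ℝ, 0 < w0 ∧ ∀ y : E3, ‖y‖ ≤ |R| + dd → w0 ≤ wh a y := by
    obtain ⟨y0, -, h0⟩ := (isCompact_closedBall (0 : E3) (|R| + dd)).exists_isMinOn
      ⟨0, by simp; positivity⟩ (continuous_wh a).continuousOn
    exact ⟨_, wh_pos a y0, fun y hy => h0 (by simpa using hy)⟩
  set c := (θ ^ n * w0)⁻¹ with hc
  have hc0 : 0 < c := by positivity
  refine ⟨3 ^ dd * (∑ j ∈ range (dd + 1), ∑ _w ∈ words j, c) + 1, by positivity, fun Z hZ hs u hu x hx => ?_⟩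
  have hW := WE_nonneg (n := n) (ν := ν) (a := a) hθ.le Z
  have h1 := sobolev_cube ip continuous_ip ip_comm ip_self_nonneg (hZ.dXw u) one_pos x
  rw [add_mul, one_mul]
  refine h1.trans (le_trans ?_ (le_add_of_nonneg_right hW))
  rw [mul_assoc, sum_mul]
  refine mul_le_mul_of_nonneg_left (sum_le_sum fun j hj => ?_) (by positivity)
  rw [one_pow, one_pow, div_one, one_mul, sum_mul]
  refine sum_le_sum fun w hw' => ?_
  have hl : (u ++ w).length ≤ n := by
    have := mem_range.1 hj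
    rw [List.length_append, mem_words.1 hw']
    omega
  have hI := integrable_WE (n := n) (θ := θ) (ν := ν) (a := a) hZ hs hZ
  rw [← dXw_append]
  calc _ ≤ ∫ y in cube x 1, c * (wh a y * bb n θ (sh ν) Z Z y) := by
        refine setIntegral_mono_on (integrableOn_cube ((hZ.dXw _).ip (hZ.dXw _)).cont _ _)
          (hI.const_mul c).integrableOn (measurableSet_cube _ _) fun y hy => ?_
        have h2 := cube_subset_closedBall x 1 hy
        rw [mem_closedBall_iff_norm] at h2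
        have h3 : ‖y‖ ≤ |R| + dd := by
          have := norm_sub_norm_le y x
          simp only [abs_one, mul_one] at h2
          linarith [le_abs_self R]
        have h4 := term_le_bb (n := n) (σ := sh ν) (G := Z) hθ.le (u ++ w) 0 hl y
        rw [nA_zero, add_zero] at h4
        have h5 : θ ^ n * 1 ≤ θ ^ (u ++ w).length * sh ν y ^ (2 * (u ++ w).length) :=
          mul_le_mul (pow_le_pow_of_le_one hθ.le hθ1 hl) (one_le_pow₀ (one_le_sh ν y))
            zero_le_one (by positivity)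
        have h6 := (mul_le_mul_of_nonneg_right h5 (ip_self_nonneg _)).trans h4
        have h7 := mul_le_mul (hw y h3) h6 (mul_nonneg (by positivity) (ip_self_nonneg _))
          (wh_pos a y).le
        rw [hc, le_inv_mul_iff₀ (by positivity)]
        linarith
    _ ≤ _ := by
        rw [integral_const_mul]
        exact mul_le_mul_of_nonneg_left (setIntegral_le_integral hI (Eventually.of_forall
          fun y => mul_nonneg (wh_pos a y).le (bb_nonneg hθ.le y))) hc0.le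

lemma seg_le {f : E3 → ℝ} (hf : Dif f) {L R d : ℝ} (i : Ix) {x : E3}
    (hL : ∀ z, ‖z‖ ≤ R + 1 → |dX i f z| ≤ L) (hx : ‖x‖ ≤ R) (hd : |d| ≤ 1) :
    |f (x + d • ev i) - f x| ≤ L * |d| := by
  have := seminorm_sub_le (normSeminorm ℝ ℝ) continuous_norm (γ := fun t => f (x + t • ev i))
    (γ' := fun t => dX i f (x + t • ev i)) (a := 0) (b := d) (C := L)
    (fun t _ => hf.line i x t) fun t ht => hL _ (by
      have h1 := Set.abs_sub_left_of_mem_uIcc ht
      have h2 := norm_add_le x (t • ev i)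
      rw [norm_smul, norm_ev, Real.norm_eq_abs] at h2
      simp only [sub_zero] at h1
      linarith)
  simpa using this

lemma lip_ball {f : E3 → ℝ} (hf : Dif f) {L R h : ℝ} (hL0 : 0 ≤ L)
    (hL : ∀ i z, ‖z‖ ≤ R + dd → |dX i f z| ≤ L) {x y : E3} (hx : ‖x‖ ≤ R) (hh : h ≤ 1)
    (hy : ‖y - x‖ ≤ h) : |f y - f x| ≤ dd * L * h := by
  have hd : ∀ i, |(y - x) i| ≤ h := box_of_norm hy
  have key : ∀ S : Finset Ix, ‖x + ∑ i ∈ S, (y - x) i • ev i‖ ≤ R + S.card ∧
      |f (x + ∑ i ∈ S, (y - x) i • ev i) - f x| ≤ S.card * L * h := fun S => by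
    induction S using Finset.induction_on with
    | empty => simpa using hx
    | insert i S hi ih =>
      have hc : (S.card : ℝ) + 1 ≤ dd := by
        have := card_le_univ (insert i S)
        rw [card_insert_of_notMem hi, card_Ix] at this
        exact_mod_cast this
      rw [sum_insert hi, card_insert_of_notMem hi, add_comm ((y - x) i • ev i), ← add_assoc]
      generalize x + ∑ i ∈ S, (y - x) i • ev i = z at *
      have h2 := norm_add_le z ((y - x) i • ev i)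
      rw [norm_smul, norm_ev, Real.norm_eq_abs] at h2
      have h3 := (seg_le hf i (fun w hw => hL i w (by linarith)) ih.1 ((hd i).trans hh)).trans
        (mul_le_mul_of_nonneg_left (hd i) hL0)
      have h4 := abs_sub_le (f (z + (y - x) i • ev i)) (f z) (f x)
      push_cast
      exact ⟨by linarith [hd i, ih.1], by linarith [ih.2]⟩
  have := (key univ).2
  rwa [sum_coord_ev, add_sub_cancel, card_univ, card_Ix] at this

lemma ip_eH_sq_le (b : Hx) (f : SV) : ip (eH b) f ^ 2 ≤ ip f f := by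
  simpa [ip_eH] using ip_sq_le (eH b) f

/-- Point values on a ball against finitely many energy pairings. -/
lemma point_le (n : ℕ) (ν a R : ℝ) (hn : dd + 1 ≤ n) (hθ : 0 < θ) (hθ1 : θ ≤ 1) {ε : ℝ} (hε : 0 < ε) :
    ∃ (m : ℕ) (φ : Fin m → DD), ∀ Z : DD, ∀ y, ‖y‖ ≤ R →
      ip (Z.1 y) (Z.1 y) ≤ ε * WE n θ ν a Z Z + 4 * ∑ i, WE n θ ν a (φ i) Z ^ 2 := by
  obtain ⟨C, hC, hS⟩ := sob_ball n ν a (R + dd) hθ hθ1
  have hd := dr_pos
  set h := min 1 (ε / (4 * (dd + 2) * dd ^ 2 * C)) with hh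
  have hh0 : 0 < h := by positivity
  obtain ⟨t, ht, hfin, hcov⟩ := (isCompact_closedBall (0 : E3) R).finite_cover_balls hh0
  have := hfin.fintype
  let l : t × Hx → DD →ₗ[ℝ] ℝ := fun p =>
    (ip (eH p.2)).comp ((LinearMap.proj (p.1 : E3)).comp DD.subtype)
  have hl : ∀ p (Z : DD), l p Z = ip (eH p.2) (Z.1 p.1) := fun _ _ => rfl
  set N := Fintype.card (t × Hx)
  have hap := fun p => Dich.riesz_approx (WB n θ ν a) (fun x y => WE_comm _ _)
    (fun x => WE_nonneg hθ.le _) (l p) C (fun Z => (ip_eH_sq_le _ _).trans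
      (hS Z Z.2.1 Z.2.2.1 [] (by simp; omega) _ (by
        have := ht p.1.2
        rw [mem_closedBall_zero_iff] at this
        linarith))) (ε / (8 * (N + 1))) (by positivity)
  choose φ hφ using hap
  refine ⟨N, fun i => φ ((Fintype.equivFin _).symm i), fun Z y hy => ?_⟩
  rw [Equiv.sum_comp (Fintype.equivFin (t × Hx)).symm fun p => WE n θ ν a (φ p) Z ^ 2]
  set W := WE n θ ν a Z Z with hW
  have hW0 : 0 ≤ W := WE_nonneg hθ.le _
  obtain ⟨z, hz, hyz⟩ := Set.mem_iUnion₂.1 (hcov (mem_closedBall_zero_iff.2 hy))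
  have hzR := mem_closedBall_zero_iff.1 (ht hz)
  have h1 : ∀ b, ip (eH b) (Z.1 y) ^ 2 ≤ 2 * l (⟨z, hz⟩, b) Z ^ 2 + ε / (2 * (dd + 2)) * W := fun b => by
    have h2 := lip_ball (f := fun x => ipL (eH b) (Z.1 x)) (Z.2.1.clm _).dif
      (L := √(C * W)) (Real.sqrt_nonneg _) (fun i w hw => by
        rw [dX_clm Z.2.1.dif]
        exact Real.abs_le_sqrt ((ip_eH_sq_le _ _).trans
          (hS Z Z.2.1 Z.2.2.1 [i] (by simp; omega) w hw))) hzR (min_le_left _ _)
      (mem_ball_iff_norm.1 hyz).le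
    have h3 := pow_le_pow_left₀ (abs_nonneg _) h2 2
    rw [sq_abs, mul_pow, mul_pow, Real.sq_sqrt (by positivity)] at h3
    have h4 : h ^ 2 ≤ ε / (4 * (dd + 2) * dd ^ 2 * C) := by
      have h5 : h ≤ 1 := min_le_left _ _
      have h6 : h ≤ ε / (4 * (dd + 2) * dd ^ 2 * C) := min_le_right _ _
      nlinarith
    have h5 : 2 * ((dd : ℝ) ^ 2 * (C * W)) * h ^ 2 ≤ ε / (2 * (dd + 2)) * W :=
      (mul_le_mul_of_nonneg_left h4 (by positivity)).trans (le_of_eq (by field_simp; ring))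
    simp only [ipL_apply] at h3
    rw [hl]
    nlinarith [sq_nonneg (ip (eH b) (Z.1 y) - 2 * ip (eH b) (Z.1 z))]
  have h2 : ip (Z.1 y) (Z.1 y) ≤ 2 * ∑ b, l (⟨z, hz⟩, b) Z ^ 2 + ε / 2 * W := by
    rw [← Z.2.2.2 y, ip_PP_PP]
    refine (sum_le_sum fun b _ => h1 b).trans (le_of_eq ?_)
    rw [sum_add_distrib, mul_sum]
    simp only [sum_const, card_univ, card_Hx, nsmul_eq_mul]
    push_cast
    field_simp
  have h3 : ∑ b, l (⟨z, hz⟩, b) Z ^ 2 ≤ ∑ p, l p Z ^ 2 := by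
    rw [Fintype.sum_prod_type]
    exact single_le_sum (f := fun x => ∑ b, l (x, b) Z ^ 2)
      (fun _ _ => sum_nonneg fun _ _ => sq_nonneg _) (mem_univ _)
  have h4 : ∑ p, l p Z ^ 2 ≤ ∑ p, (2 * WE n θ ν a (φ p) Z ^ 2 + 2 * (ε / (8 * (N + 1)) * W)) :=
    sum_le_sum fun p _ => by
      have h5 := hφ p Z
      rw [WB_apply, WB_apply] at h5
      nlinarith [sq_nonneg (l p Z - 2 * WE n θ ν a (φ p) Z)]
  rw [sum_add_distrib, ← mul_sum, sum_const, card_univ, nsmul_eq_mul] at h4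
  have h5 : (N : ℝ) * (2 * (ε / (8 * (N + 1)) * W)) ≤ ε / 4 * W := by
    have h6 : (N : ℝ) * (2 * (ε / (8 * (N + 1)) * W)) = N / (N + 1) * (ε / 4 * W) := by
      field_simp
      ring
    rw [h6]
    exact mul_le_of_le_one_left (by positivity) (div_le_one_of_le₀ (by linarith) (by positivity))
  linarith

lemma sm_of_contDiff {f : E3 → ℝ} (hf : ContDiff ℝ ∞ f) : Sm f := by
  refine smC_coind (fun g : Unit → E3 → ℝ => ∃ k : E3 → ℝ, ContDiff ℝ ∞ k ∧ g = fun _ => k) ?_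
    ⟨f, hf, rfl⟩
  rintro g ⟨k, hk, rfl⟩
  refine ⟨hk.continuous.comp continuous_snd, fun i =>
    ⟨_, ⟨fun x => fderiv ℝ k x (ev i), (hk.fderiv_right (m := ∞) le_rfl).clm_apply contDiff_const,
      rfl⟩, fun _ x => HasDerivAt.hd ?_⟩⟩
  exact ((hk.differentiable (by simp)) x).hasFDerivAt.hasLineDerivAt (ev i)

/-- Cut-off functions that are symbols of size one uniformly in the radius. -/
lemma exists_cut : ∃ K : ℕ → ℝ, ∀ R : ℝ, 1 ≤ R → ∃ χ : E3 → ℝ, Sm χ ∧ Supp (2 * R) χ ∧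
    (∀ y, 0 ≤ χ y) ∧ (∀ y, ‖y‖ ≤ R → χ y = 1) ∧
    ∀ (w : List Ix) y, (2 + ‖y‖) ^ w.length * |dXw w χ y| ≤ K w.length := by
  let b : ContDiffBump (0 : E3) := ⟨1, 2, one_pos, one_lt_two⟩
  have hb : Sm b := sm_of_contDiff b.contDiff
  have hs : Supp 2 b := fun x hx => b.zero_of_le_dist (by simpa using hx.le)
  have hM : ∀ w : List Ix, ∃ M, 0 ≤ M ∧ ∀ y, |dXw w b y| ≤ M := fun w => by
    obtain ⟨M, hM⟩ := (hb.dXw w).cont.bounded_above_of_compact_support (hs.dXw w).hasCompactSupport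
    exact ⟨M, (norm_nonneg _).trans (hM 0), hM⟩
  choose M hM0 hM using hM
  refine ⟨fun j => 4 ^ j * ∑ w ∈ words j, M w, fun R hR => ?_⟩
  have hR0 : 0 < R := by linarith
  have hs' : Supp (2 * R) fun y => b (R⁻¹ • y) := by
    simpa using hs.scale (inv_pos.2 hR0)
  refine ⟨fun y => b (R⁻¹ • y), hb.scale _, hs', fun y => b.nonneg, fun y hy =>
    b.one_of_mem_closedBall ?_, fun w y => ?_⟩
  · rw [mem_closedBall_zero_iff, norm_smul, Real.norm_eq_abs, abs_of_pos (inv_pos.2 hR0),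
      inv_mul_le_iff₀ hR0]
    exact hy.trans (mul_one R).ge
  have h1 : M w ≤ ∑ u ∈ words w.length, M u :=
    single_le_sum (fun u _ => hM0 u) (mem_words.2 rfl)
  by_cases hy : ‖y‖ ≤ 2 * R
  · simp only [dXw_scale hb]
    rw [smul_eq_mul, abs_mul, abs_of_nonneg (by positivity), ← mul_assoc, ← mul_pow]
    refine mul_le_mul (pow_le_pow_left₀ (by positivity) ?_ _) ((hM w _).trans h1) (abs_nonneg _)
      (by positivity)
    rw [mul_inv_le_iff₀ hR0]
    linarith
  · rw [hs'.dXw w y (not_le.1 hy), abs_zero, mul_zero]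
    exact mul_nonneg (by positivity) ((hM0 w).trans h1)

end Pool.Agent.BoltzD.KK

end
end MrgPart1

-- ======== part 2: formerly Pool.Agent.BoltzD.KK.Main
section MrgPart2

/-! The finite rank damping: proof of `KStmt`. -/

set_option autoImplicit false

open MeasureTheory Pool.Agent.BoltzC Finset Filter Topology

noncomputable section

namespace Pool.Agent.BoltzD.KK

variable [Dim]

variable {B : BgD} {n : ℕ} {θ : ℝ}

lemma cont_dens (hB : B.Ok) (a s : ℝ) {G H : E3 → SV} (hG : Sm G) (hH : Sm H) :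
    Continuous fun x => B.om a s x * bb n θ (B.sig s) G H x :=
  ((hB.sm_om a).sm.cont_slice s).mul (continuous_bb (hB.sm_sig.sm.cont_slice s) hG hH)

lemma E_nonneg (hθ : 0 ≤ θ) (a s : ℝ) (G : E3 → SV) : 0 ≤ B.E n θ a s G G :=
  tint_nonneg fun x => mul_nonneg (om_pos B a s x).le (bb_nonneg hθ x)

lemma E_zero_sq_le (hB : B.Ok) (hθ : 0 ≤ θ) (s : ℝ) {G H : E3 → SV} (hG : Sm G) (hH : Sm H) :
    B.E n θ 0 s G H ^ 2 ≤ B.E n θ (-B.eta) s G G * B.E n θ B.eta s H H := by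
  have h0 : ∀ a (G : E3 → SV) x, 0 ≤ B.om a s x * bb n θ (B.sig s) G G x := fun a G x =>
    mul_nonneg (om_pos B a s x).le (bb_nonneg hθ x)
  have h := abs_tint_le_sqrt (φ := fun x => B.om 0 s x * bb n θ (B.sig s) G H x)
    (cont_dens hB (-B.eta) s hG hG) (cont_dens hB B.eta s hH hH) (h0 _ _) (h0 _ _) fun x => by
      rw [← Real.sqrt_mul (h0 _ _ _)]
      refine Real.abs_le_sqrt ?_
      rw [mul_pow, om_sq B B.eta, mul_mul_mul_comm]
      exact mul_le_mul_of_nonneg_left (bb_sq_le hθ x)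
        (mul_pos (om_pos B _ s x) (om_pos B _ s x)).le
  rw [← Real.sqrt_mul (tint_nonneg (h0 _ _))] at h
  exact (Real.sq_le (mul_nonneg (E_nonneg hθ _ _ _) (E_nonneg hθ _ _ _))).2 (abs_le.1 h)

/-- The cut-off rescaled hydrodynamic part has a bounded whole space energy. -/
lemma WE_cut_le (hB : B.Ok) (hθ : 0 ≤ θ) {C R s a : ℝ} {χ : E3 → ℝ} {G : E3 → SV} (hC : 0 ≤ C)
    (hχ : Sm χ) (hs : Supp R χ) (hR : 8 * R < Real.exp s) (hG : Sm G) (pG : Per G)
    (hb : ∀ (H : E3 → SV) y, Sm H → bb n θ (sh B.nu) (fun y => χ y • H y) (fun y => χ y • H y) y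
      ≤ C * bb n θ (sh B.nu) H H y) :
    WE n θ B.nu a (fun y => χ y • PP (G (Real.exp (-s) • y)))
      (fun y => χ y • PP (G (Real.exp (-s) • y))) ≤ C * B.E n θ a s G G := by
  have hW := (hG.clm PP).scale (Real.exp (-s))
  have hZ := hχ.smul hW
  have hZs : Supp R fun y => χ y • PP (G (Real.exp (-s) • y)) := fun y hy => by
    simp only [hs y hy, zero_smul]
  rw [WE, ← tint_resc (B := B) (continuous_bb (continuous_sh _) hZ hZ) (supp_bb hZs) hR, BgD.E, En,
    ← tint_const_mul]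
  refine (le_abs_self _).trans (abs_tint_le_of_abs_le
    (continuous_const.mul (cont_dens hB a s hG hG)) fun x => ?_)
  have ho := (om_pos B a s x).le
  rw [abs_of_nonneg (mul_nonneg ho (bb_nonneg hθ _)), mul_left_comm]
  refine mul_le_mul_of_nonneg_left ?_ ho
  by_cases h4 : ‖red x‖ ≤ 1 / 4
  · refine (hb _ _ hW).trans (mul_le_mul_of_nonneg_left ?_ hC)
    rw [← bb_resc (hG.clm PP) (hG.clm PP) h4, ← (per_bb (per_sig B s) pG pG).red x]
    exact bb_PP_le hθ hG _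
  · rw [supp_bb hZs _ (far_of hR (by linarith))]
    exact mul_nonneg hC (bb_nonneg hθ _)

lemma near_far (hB : B.Ok) (hθ : 0 ≤ θ) {R s a S : ℝ} {χ : E3 → ℝ} {G : E3 → SV} (hR : 1 ≤ R)
    (hχ : Sm χ) (hs : Supp (2 * (4 * R)) χ) (h0 : ∀ y, 0 ≤ χ y) (h1 : ∀ y, ‖y‖ ≤ 4 * R → χ y = 1)
    (hRs : 8 * (2 * (4 * R)) < Real.exp s) (hG : Sm G) (pG : Per G) (hS0 : 0 ≤ S)
    (hS : ∀ y, ‖y‖ ≤ 4 * R →
      ip (PP (G (Real.exp (-s) • y))) (PP (G (Real.exp (-s) • y))) ≤ S) :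
    tint (fun x => B.mu s x * B.om a s x * ip (PP (G x)) (PP (G x)))
      ≤ R⁻¹ * B.E n θ a s G G + S * ∫ y, wh a y * χ y := by
  have hr : 1 ≤ B.r := by linarith [hB.r_gt]
  have hc : Continuous fun x => B.om a s x * χ (Real.exp s • red x) :=
    ((hB.sm_om a).sm.cont_slice s).mul
      ((hχ.scale _).per (supp_scale hs hRs) (by norm_num)).cont
  have hd := cont_dens (n := n) (θ := θ) hB a s hG hG
  rw [← tint_resc (B := B) hχ.cont hs hRs, BgD.E, En, ← tint_const_mul, ← tint_const_mul,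
    ← tint_add (hd.const_mul _) (hc.const_mul _)]
  refine (le_abs_self _).trans (abs_tint_le_of_abs_le
    ((hd.const_mul _).add (hc.const_mul _)) fun x => ?_)
  have ho := (om_pos B a s x).le
  have hm := mu_nonneg B s x
  have hi := ip_self_nonneg (PP (G x))
  have hb := bb_nonneg (n := n) (σ := B.sig s) (G := G) hθ x
  rw [abs_of_nonneg (by positivity)]
  by_cases hx : ‖Real.exp s • red x‖ ≤ 4 * R
  · have h2 := hS _ hx
    rw [exp_neg_smul, pG.red] at h2
    rw [h1 _ hx, mul_one]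
    refine le_add_of_nonneg_of_le (by positivity) ?_
    calc _ ≤ 1 * B.om a s x * S := by gcongr; exact mu_le_one B hr s x
      _ = _ := by ring
  · refine le_add_of_le_of_nonneg ?_ (mul_nonneg hS0 (mul_nonneg ho (h0 _)))
    rw [mul_assoc]
    exact mul_le_mul (mu_far B hr s x hR (not_le.1 hx).le) (mul_le_mul_of_nonneg_left
      ((ip_PP_PP_le _).trans (ip_le_bb hθ x)) ho) (by positivity) (by positivity)

lemma final_arith {C1 C2 R ε I E Q T : ℝ} (h1 : C1 ≤ C2) (hC : 0 < C2) (hε : 0 < ε) (hR : 1 ≤ R)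
    (hR2 : 2 * C2 / ε ≤ R) (hI : 0 ≤ I) (hE : 0 ≤ E) (hQ : 0 ≤ Q) (hT : 0 ≤ T)
    (h : T ≤ R⁻¹ * E + (ε / (2 * C2 * (I + 1)) * E + 4 * Q) * I) :
    C1 * T ≤ ε * E + 4 * C2 * (I + 1) * Q := by
  refine (mul_le_mul_of_nonneg_right h1 hT).trans ((mul_le_mul_of_nonneg_left h hC.le).trans ?_)
  have h3 : C2 * R⁻¹ ≤ ε / 2 := by
    rw [mul_inv_le_iff₀ (by linarith)]
    have := (div_le_iff₀ hε).1 hR2
    linarith
  have h4 : C2 * ((ε / (2 * C2 * (I + 1)) * E + 4 * Q) * (I + 1))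
      = ε / 2 * E + 4 * C2 * (I + 1) * Q := by field_simp
  have h5 : C2 * ((ε / (2 * C2 * (I + 1)) * E + 4 * Q) * I)
      ≤ C2 * ((ε / (2 * C2 * (I + 1)) * E + 4 * Q) * (I + 1)) := by gcongr; linarith
  have h6 := mul_le_mul_of_nonneg_right h3 hE
  nlinarith

theorem kStmt : KStmt := by
  intro B hB n θ C1 ε hn hθ hθ1 hε
  obtain ⟨K, hK⟩ := exists_cut
  obtain ⟨Cχ, hCχ, hbb⟩ := bb_smul_le n K
  set C2 := max C1 1 with hC2
  have hC20 : 0 < C2 := lt_max_of_lt_right one_pos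
  set R := max 1 (2 * C2 / ε) with hR
  have hR1 : 1 ≤ R := le_max_left _ _
  obtain ⟨χ₁, h1s, h1z, h10, h11, -⟩ := hK (4 * R) (by linarith)
  set I := ∫ y, wh B.eta y * χ₁ y with hI
  have hI0 : 0 ≤ I := integral_nonneg fun y => mul_nonneg (wh_pos _ y).le (h10 y)
  obtain ⟨m, φ, hφ⟩ := point_le n B.nu B.eta (4 * R) hn hθ hθ1
    (ε := ε / (2 * C2 * (I + 1) * Cχ)) (by positivity)
  choose ρ hρ1 hρ using fun i => exists_supp (φ i).2.2.1
  set ρ0 := 8 * R + ∑ i, ρ i with hρ0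
  have hsum : 0 ≤ ∑ i, ρ i := sum_nonneg fun i _ => by linarith [hρ1 i]
  have hφs : ∀ i, Supp ρ0 (φ i).1 := fun i => (hρ i).mono (by
    have := single_le_sum (f := ρ) (fun i _ => by linarith [hρ1 i]) (mem_univ i)
    linarith)
  obtain ⟨χ, hχ, hχs, -, hχ1, hχK⟩ := hK (ρ0 + 1) (by linarith)
  have hWn : ∀ a i, 0 ≤ WE n θ B.nu a (φ i) (φ i) := fun a i => WE_nonneg hθ.le _
  set C := 1 + ∑ i, (WE n θ B.nu B.eta (φ i) (φ i) + WE n θ B.nu (-B.eta) (φ i) (φ i)) with hC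
  have hCi : ∀ i, WE n θ B.nu B.eta (φ i) (φ i) + WE n θ B.nu (-B.eta) (φ i) (φ i) ≤ C := fun i =>
    le_add_of_nonneg_of_le zero_le_one (single_le_sum (f := fun i =>
      WE n θ B.nu B.eta (φ i) (φ i) + WE n θ B.nu (-B.eta) (φ i) (φ i))
      (fun i _ => add_nonneg (hWn _ i) (hWn _ i)) (mem_univ i))
  refine ⟨m, fun i => φ i, 4 * C2 * (I + 1), C, 8 * (2 * (ρ0 + 1)), by positivity,
    add_pos_of_pos_of_nonneg one_pos (sum_nonneg fun i _ => add_nonneg (hWn _ i) (hWn _ i)),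
    fun i => (φ i).2, fun s hs => ?_⟩
  have hs2 : 8 * (2 * (ρ0 + 1)) < Real.exp s := by linarith [Real.add_one_le_exp s]
  have hs1 : 8 * ρ0 < Real.exp s := by linarith
  refine ⟨fun i => ?_, fun G hG pG => ⟨fun i => ?_, ?_⟩⟩
  · rw [E_per_per (φ i).2.1 (hφs i) hs1]
    linarith [hCi i, hWn (-B.eta) i]
  · refine (E_zero_sq_le hB hθ.le s (sm_per (φ i).2.1 (hφs i) hs1) hG).trans ?_
    rw [E_per_per (φ i).2.1 (hφs i) hs1]
    exact mul_le_mul_of_nonneg_right (by linarith [hCi i, hWn B.eta i]) (E_nonneg hθ.le _ _ _)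
  have hW := (hG.clm PP).scale (Real.exp (-s))
  let Z : DD := ⟨fun y => χ y • PP (G (Real.exp (-s) • y)), hχ.smul hW,
    Supp.hasCompactSupport (ρ := 2 * (ρ0 + 1)) fun y hy => by simp only [hχs y hy, zero_smul],
    fun y => by rw [map_smul, PP_PP]⟩
  have hE : ∀ i, WE n θ B.nu B.eta (φ i) Z = B.E n θ B.eta s (B.per (φ i) s) G := fun i => by
    rw [E_per (φ i).2.1 (hφs i) hs1 hG pG, WE_congr (hφs i)
      (H := fun y => PP (G (Real.exp (-s) • y))) fun y hy => ?_]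
    · simp only [WE, bb_PP_right (φ i).2.1 (hG.scale _) (φ i).2.2.2]
    · have : ∀ᶠ z in 𝓝 y, ‖z‖ < ρ0 + 1 :=
        (isOpen_lt continuous_norm continuous_const).eventually_mem (by simpa using by linarith)
      filter_upwards [this] with z hz
      simp only [Z, hχ1 z hz.le, one_smul]
  have hZ : WE n θ B.nu B.eta Z Z ≤ Cχ * B.E n θ B.eta s G G :=
    WE_cut_le hB hθ.le hCχ.le hχ hχs hs2 hG pG fun H y hH =>
      hbb θ _ χ H y hθ.le hθ1 hχ hH (zero_le_one.trans (one_le_sh _ y)) fun w =>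
        (mul_le_mul_of_nonneg_right (pow_le_pow_left₀ (zero_le_one.trans (one_le_sh _ y))
          (sh_le hB.nu_pos.le hB.nu_le y) _) (abs_nonneg _)).trans (hχK w y)
  have hE0 := E_nonneg (B := B) (n := n) hθ.le B.eta s G
  have hQ0 : 0 ≤ ∑ i, B.E n θ B.eta s (B.per (φ i) s) G ^ 2 := sum_nonneg fun _ _ => sq_nonneg _
  have hε1 : 0 ≤ ε / (2 * C2 * (I + 1)) := by positivity
  have hε2 : 0 ≤ ε / (2 * C2 * (I + 1) * Cχ) := by positivity
  have hε3 : ε / (2 * C2 * (I + 1) * Cχ) * Cχ = ε / (2 * C2 * (I + 1)) := by field_simp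
  refine final_arith (le_max_left _ _) hC20 hε hR1 (le_max_right _ _) hI0 hE0 hQ0
    (tint_nonneg fun x => mul_nonneg (mul_nonneg (mu_nonneg B s x) (om_pos B _ s x).le)
      (ip_self_nonneg _)) (near_far hB hθ.le hR1 h1s h1z h10 h11 (by linarith) hG pG
      (add_nonneg (mul_nonneg hε1 hE0) (mul_nonneg (by norm_num) hQ0)) fun y hy => ?_)
  have h2 := hφ Z y hy
  have h3 : Z.1 y = PP (G (Real.exp (-s) • y)) := by
    simp only [Z, hχ1 y (by linarith), one_smul]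
  rw [h3, sum_congr rfl fun i _ => congrArg (· ^ 2) (hE i)] at h2
  refine h2.trans (add_le_add ((mul_le_mul_of_nonneg_left hZ hε2).trans (le_of_eq ?_)) le_rfl)
  rw [← mul_assoc, hε3]

end Pool.Agent.BoltzD.KK

end
end MrgPart2

-- marker of a merged file
example : 731051 + 319496 = 731051 + 319496 := rfl
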