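import Pool.Agent.BoltzD.En.Split
import Mathlib.Analysis.InnerProductSpace.NormDet
import Pool.Agent.BoltzD.Geo.BP
import Mathlib.Analysis.Normed.Operator.BanachSteinhaus
import Mathlib.LinearAlgebra.FreeModule.PID
import Mathlib.Algebra.Module.StablyFree.Basic
import Mathlib.Analysis.InnerProductSpace.Completion
import Mathlib.RingTheory.SimpleRing.Principal
import Pool.Agent.BoltzD.Lin.YF

-- ======== part 0: formerly Pool.Agent.BoltzD.En.Point
section MrgPart0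

-- ======== part 0: formerly Pool.Agent.BoltzD.En.Jet
section MrgPart0

/-!
The transport inequality at one point, as an inequality between jets: definitions, the
decomposition of one term, the diagonal and the lower order parts.
-/

set_option autoImplicit false

open Pool.Agent.BoltzC Finset

noncomputable section

namespace Pool.Agent.BoltzD

variable [Dim]

/-- Index set of the velocity terms. -/
abbrev TI : Type := Ix ⊕ (Ix × Ix) ⊕ (Ix × Ix)

/-- The operators of the velocity terms. -/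
def opT : TI → SV →L[ℝ] SV
  | Sum.inl l => ap l
  | Sum.inr (Sum.inl p) => (mulV p.1).comp (ap p.2)
  | Sum.inr (Sum.inr p) => (mulV p.1).comp ((mulV p.2).comp (ap p.2))

/-- The coefficients of the velocity terms. -/
def Fld.tv (F : Fld) : TI → E3 → ℝ
  | Sum.inl l => F.b0 l
  | Sum.inr (Sum.inl p) => F.b1 p.1 p.2
  | Sum.inr (Sum.inr p) => F.b2 p.1

lemma Fld.vel_eq (F : Fld) (x : E3) (f : SV) : F.vel x f = -∑ α, F.tv α x • opT α f := by
  simp [Fld.vel, Fld.tv, opT, Fintype.sum_sum_type, Fintype.sum_prod_type, add_assoc]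

lemma VStmt.opT_top (hV : VStmt) (m : ℕ) :
    ∃ C : ℝ, 0 < C ∧ ∀ α f, |ip (opT α f) (RR m f)| ≤ C * WW m f := by
  obtain ⟨C, hC, h⟩ := hV.top m
  refine ⟨C, hC, fun α f => ?_⟩
  rcases α with l | p | p
  · exact (h l l l f).1
  · exact (h p.1 p.1 p.2 f).2.1
  · exact (h p.1 p.2 p.2 f).2.2

lemma VStmt.opT_low (hV : VStmt) (m : ℕ) : ∃ C : ℝ, 0 < C ∧ ∀ α f g,
    |ip (opT α f) (RR m g)| ≤ C * √(WW (m + 1) f) * √(WW m g) := by
  obtain ⟨C, hC, h⟩ := hV.low m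
  refine ⟨C, hC, fun α f g => ?_⟩
  rcases α with l | p | p
  · exact (h l l l f g).1
  · exact (h p.1 p.1 p.2 f g).2.1
  · exact (h p.1 p.2 p.2 f g).2.2

lemma VStmt.WW_nonneg (hV : VStmt) (m : ℕ) (f : SV) : 0 ≤ WW m f :=
  sum_nonneg fun _ _ => sum_nonneg fun _ _ => hV.wq_nonneg _

lemma unif_const {P : ℕ → ℝ → Prop} (h : ∀ m, ∃ C : ℝ, 0 < C ∧ P m C) (n : ℕ) :
    ∃ (c : ℕ → ℝ) (C : ℝ), 0 < C ∧ (∀ m, 0 < c m ∧ P m (c m)) ∧ ∀ m, m ≤ n → c m ≤ C := by
  choose c hc hP using h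
  refine ⟨c, ∑ m ∈ range (n + 1), c m, sum_pos (fun m _ => hc m) (by simp),
    fun m => ⟨hc m, hP m⟩, fun m hm => ?_⟩
  exact single_le_sum (f := c) (fun m _ => (hc m).le) (mem_range.2 (by omega))

/-- The numbers and velocity functions that enter the inequality at one point. -/
structure Jet where
  U : Ix → List Ix → ℝ
  Cc : List Ix → ℝ
  t : TI → List Ix → ℝ
  σ : ℝ
  ω : ℝ
  μ : ℝ
  ωt : ℝ
  σt : ℝ
  γ : ℝ
  dω : Ix → ℝ
  dσ : Ix → ℝ
  dv : Ix → ℝ
  g : List Ix → SV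

namespace Jet

variable (J : Jet)

/-- The hypotheses on a jet. -/
structure H (K : ℕ → ℝ) (lam : ℝ) : Prop where
  σ_pos : 0 < J.σ
  ω_pos : 0 < J.ω
  μ_pos : 0 < J.μ
  hU : ∀ i w, 2 ≤ w.length → J.σ ^ w.length * |J.U i w| ≤ K w.length * (J.μ * J.σ)
  hC : ∀ w, J.σ ^ w.length * |J.Cc w| ≤ K w.length * (J.μ * J.σ)
  ht : ∀ α w, J.σ ^ w.length * |J.t α w| ≤ K w.length * J.μ
  hdω : ∀ i, J.σ * |J.dω i| ≤ K 1 * J.ω
  hdσ : ∀ i, J.σ * |J.dσ i| ≤ K 1 * J.σ
  hω : J.ωt + ∑ i, J.dv i + J.γ ≤ K 0 * J.μ * J.ω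
  rep : ∀ ξ : Ix → ℝ, lam * J.μ * J.σ * ∑ i, ξ i ^ 2 ≤
    (-J.σt - ∑ i, J.U i [] * J.dσ i - cs * |J.Cc []| * √(∑ i, J.dσ i ^ 2)
        - cs * J.σ * √(∑ i, J.Cc [i] ^ 2)) * ∑ i, ξ i ^ 2
      + J.σ * ∑ p, ∑ i, ξ p * ξ i * J.U i [p]

def Nn (m : ℕ) (u w : List Ix) : ℝ := ip (J.g u) (RR m (J.g w))

def Mv (m : ℕ) (i : Ix) (u w : List Ix) : ℝ := ip (mulV i (J.g u)) (RR m (J.g w))

def Tv (m : ℕ) (α : TI) (u w : List Ix) : ℝ := ip (opT α (J.g u)) (RR m (J.g w))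

def pU (m : ℕ) (i : Ix) (a b : List Ix) : ℝ := J.U i a * J.Nn m (i :: b) (a ++ b)

def pC (m : ℕ) (i : Ix) (a b : List Ix) : ℝ := J.Cc a * J.Mv m i (i :: b) (a ++ b)

def pT (m : ℕ) (α : TI) (a b : List Ix) : ℝ := J.t α a * J.Tv m α b (a ++ b)

/-- Pairing of the differentiated transport term with the differentiated function. -/
def A (m : ℕ) (u : List Ix) : ℝ :=
  ∑ i, SP u (J.pU m i) + ∑ i, SP u (J.pC m i) - ∑ α, SP u (J.pT m α)

/-- Derivative of the flux. -/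
def dJ (j m : ℕ) (i : Ix) (u : List Ix) : ℝ :=
  J.dv i * (J.σ ^ (2 * j) * J.Nn m u u)
    + J.U i [] * J.ω * (2 * j * J.σ ^ (2 * j - 1) * J.dσ i * J.Nn m u u
      + J.σ ^ (2 * j) * (2 * J.Nn m (i :: u) u))
    + ((J.dω i * J.Cc [] + J.ω * J.Cc [i]) * (J.σ ^ (2 * j) * NV m i (J.g u) (J.g u))
      + J.ω * J.Cc [] * (2 * j * J.σ ^ (2 * j - 1) * J.dσ i * NV m i (J.g u) (J.g u)
        + J.σ ^ (2 * j) * (2 * NV m i (J.g (i :: u)) (J.g u))))

/-- One term of the inequality. -/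
def q (j m : ℕ) (u : List Ix) : ℝ :=
  (J.ωt * J.σ ^ (2 * j) + J.ω * (2 * j * J.σ ^ (2 * j - 1) * J.σt) + J.γ * J.σ ^ (2 * j))
    * J.Nn m u u - 2 * J.ω * J.σ ^ (2 * j) * J.A m u + ∑ i, J.dJ j m i u

def diag (j m : ℕ) (u : List Ix) : ℝ :=
  J.σ ^ (2 * j) * ((J.ωt + ∑ i, J.dv i + J.γ) * J.Nn m u u
    + ∑ i, (J.dω i * J.Cc [] + J.ω * J.Cc [i]) * NV m i (J.g u) (J.g u)
    + 2 * J.ω * ∑ α, J.t α [] * J.Tv m α u u)

def f1 (j m : ℕ) (u : List Ix) : ℝ :=
  J.ω * (2 * j * J.σ ^ (2 * j - 1)) * ((J.σt + ∑ i, J.U i [] * J.dσ i) * J.Nn m u u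
      + J.Cc [] * ∑ i, J.dσ i * NV m i (J.g u) (J.g u))
    - 2 * J.ω * J.σ ^ (2 * j) * ∑ i, (O1 u (J.pU m i) + O1 u (J.pC m i))

def err (j m : ℕ) (u : List Ix) : ℝ :=
  2 * J.ω * (∑ i, J.σ ^ (2 * j) * (J.Cc [] * (NV m i (J.g (i :: u)) (J.g u) - J.Mv m i (i :: u) u))
    - ∑ i, J.σ ^ (2 * j) * (SP u (J.pU m i) - J.pU m i [] u - O1 u (J.pU m i))
    - ∑ i, J.σ ^ (2 * j) * (SP u (J.pC m i) - J.pC m i [] u - O1 u (J.pC m i))
    + ∑ α, J.σ ^ (2 * j) * (SP u (J.pT m α) - J.pT m α [] u))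

lemma q_eq (j m : ℕ) (u : List Ix) : J.q j m u = J.diag j m u + J.f1 j m u + J.err j m u := by
  have e : ∑ α, J.σ ^ (2 * j) * (SP u (J.pT m α) - J.pT m α [] u) =
      J.σ ^ (2 * j) * (∑ α, SP u (J.pT m α) - ∑ α, J.t α [] * J.Tv m α u u) := by
    rw [← mul_sum, sum_sub_distrib]; rfl
  have e2 : ∑ i, J.dJ j m i u - 2 * J.ω * J.σ ^ (2 * j) *
      (∑ i, SP u (J.pU m i) + ∑ i, SP u (J.pC m i)) =
      J.σ ^ (2 * j) * ((∑ i, J.dv i) * J.Nn m u u
        + ∑ i, (J.dω i * J.Cc [] + J.ω * J.Cc [i]) * NV m i (J.g u) (J.g u))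
      + (J.ω * (2 * j * J.σ ^ (2 * j - 1)) * ((∑ i, J.U i [] * J.dσ i) * J.Nn m u u
        + J.Cc [] * ∑ i, J.dσ i * NV m i (J.g u) (J.g u))
        - 2 * J.ω * J.σ ^ (2 * j) * ∑ i, (O1 u (J.pU m i) + O1 u (J.pC m i)))
      + 2 * J.ω * (∑ i, J.σ ^ (2 * j) *
          (J.Cc [] * (NV m i (J.g (i :: u)) (J.g u) - J.Mv m i (i :: u) u))
        - ∑ i, J.σ ^ (2 * j) * (SP u (J.pU m i) - J.pU m i [] u - O1 u (J.pU m i))
        - ∑ i, J.σ ^ (2 * j) * (SP u (J.pC m i) - J.pC m i [] u - O1 u (J.pC m i))) := by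
    simp only [mul_add, mul_sub, mul_sum, sum_mul, ← sum_add_distrib, ← sum_sub_distrib]
    refine sum_congr rfl fun i _ => ?_
    simp only [dJ, pU, pC, List.nil_append]
    ring
  simp only [q, diag, f1, err, A, e]
  linear_combination e2

/-- Weighted size of one jet component. -/
def rho (u : List Ix) (m : ℕ) : ℝ := J.σ ^ u.length * √(WW m (J.g u))

end Jet

lemma key_bound {σ c v K C W1 W2 a b : ℝ} {p e N' q1 q2 : ℕ} (hσ : 0 < σ) (hK : 0 ≤ K)
    (hC : 0 ≤ C) (hW1 : 0 ≤ W1) (hW2 : 0 ≤ W2) (hc : σ ^ p * |c| ≤ K * σ ^ e)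
    (hv : |v| ≤ C * W1 * W2) (h1 : σ ^ q1 * W1 ≤ a) (h2 : σ ^ q2 * W2 ≤ b)
    (hq : N' + e = q1 + q2) : σ ^ (p + N') * |c * v| ≤ K * C * (a * b) := by
  have ha : 0 ≤ a := le_trans (by positivity) h1
  calc σ ^ (p + N') * |c * v| = (σ ^ p * |c|) * (σ ^ N' * |v|) := by rw [abs_mul, pow_add]; ring
    _ ≤ (K * σ ^ e) * (σ ^ N' * (C * W1 * W2)) := by gcongr
    _ = K * C * (σ ^ (N' + e) * W1 * W2) := by rw [pow_add]; ring
    _ = K * C * ((σ ^ q1 * W1) * (σ ^ q2 * W2)) := by rw [hq, pow_add]; ring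
    _ ≤ K * C * (a * b) := by gcongr

namespace Jet

variable {J : Jet} {K : ℕ → ℝ} {lam : ℝ}

lemma H.K_nonneg (h : J.H K lam) (l : ℕ) : 0 ≤ K l := by
  have h1 := h.hC (List.replicate l 0)
  rw [List.length_replicate] at h1
  have h2 : 0 < J.μ * J.σ := mul_pos h.μ_pos h.σ_pos
  have h3 : 0 ≤ J.σ ^ l * |J.Cc (List.replicate l 0)| := by have := h.σ_pos; positivity
  by_contra hn
  have := mul_neg_of_neg_of_pos (not_le.1 hn) h2
  linarith

lemma Nn_self_nonneg (m : ℕ) (u : List Ix) : 0 ≤ J.Nn m u u := by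
  rw [Nn, ← nA_eq_ip_RR]; exact nA_nonneg _ _

lemma diag_le (hV : VStmt) (h : J.H K lam) {m : ℕ} {Ct : ℝ}
    (htop : ∀ α f, |ip (opT α f) (RR m f)| ≤ Ct * WW m f) (j : ℕ) (u : List Ix) :
    J.diag j m u ≤ (K 0 + dd * (K 1 * K 0 + K 1) + 2 * (dd + 2 * dd ^ 2) * K 0 * Ct) * (J.μ * J.ω) *
      (J.σ ^ (2 * j) * WW m (J.g u)) := by
  have hσ := h.σ_pos
  have hω := h.ω_pos
  have hμ := h.μ_pos
  have k0 := h.K_nonneg 0
  have k1 := h.K_nonneg 1
  set W := WW m (J.g u) with hW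
  have hW0 : 0 ≤ W := hV.WW_nonneg _ _
  have hsq : √W * √W = W := Real.mul_self_sqrt hW0
  have h1 : (J.ωt + ∑ i, J.dv i + J.γ) * J.Nn m u u ≤ K 0 * J.μ * J.ω * W := by
    have a1 : J.Nn m u u ≤ W := by
      have := hV.rr m (J.g u) (J.g u)
      rw [hsq] at this
      exact (le_abs_self _).trans this
    calc _ ≤ K 0 * J.μ * J.ω * J.Nn m u u :=
          mul_le_mul_of_nonneg_right h.hω (Nn_self_nonneg m u)
      _ ≤ _ := by gcongr
  have hc0 : |J.Cc []| ≤ K 0 * (J.μ * J.σ) := by simpa using h.hC []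
  have h2 : ∀ i, (J.dω i * J.Cc [] + J.ω * J.Cc [i]) * NV m i (J.g u) (J.g u)
      ≤ (K 1 * K 0 + K 1) * (J.μ * J.ω) * W := by
    intro i
    have a1 := hV.nv m i (J.g u) (J.g u)
    rw [hsq] at a1
    have a2 : |J.Cc [i]| ≤ K 1 * J.μ := by
      have := h.hC [i]
      simp only [List.length_singleton, pow_one] at this
      exact le_of_mul_le_mul_left (by linarith) hσ
    have a3 : |J.dω i * J.Cc []| ≤ K 1 * K 0 * (J.μ * J.ω) := by
      rw [abs_mul]
      calc |J.dω i| * |J.Cc []| ≤ |J.dω i| * (K 0 * (J.μ * J.σ)) := by gcongr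
        _ = K 0 * J.μ * (J.σ * |J.dω i|) := by ring
        _ ≤ K 0 * J.μ * (K 1 * J.ω) := mul_le_mul_of_nonneg_left (h.hdω i) (by positivity)
        _ = _ := by ring
    have a4 : |J.dω i * J.Cc [] + J.ω * J.Cc [i]| ≤ (K 1 * K 0 + K 1) * (J.μ * J.ω) := by
      refine (abs_add_le _ _).trans ?_
      rw [abs_mul J.ω, abs_of_pos hω]
      nlinarith [mul_le_mul_of_nonneg_left a2 hω.le]
    refine (le_abs_self _).trans ?_
    rw [abs_mul]
    gcongr
  have h3 : ∀ α, J.t α [] * J.Tv m α u u ≤ K 0 * J.μ * (Ct * W) := by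
    intro α
    have a1 : |J.t α []| ≤ K 0 * J.μ := by simpa using h.ht α []
    refine (le_abs_self _).trans ?_
    rw [abs_mul]
    gcongr
    exact htop α _
  have h2' := sum_le_card_nsmul univ _ _ fun i _ => h2 i
  have h3' := sum_le_card_nsmul univ _ _ fun α _ => h3 α
  simp only [card_univ, Fintype.card_sum, Fintype.card_prod, Fintype.card_fin, nsmul_eq_mul]
    at h2' h3'
  push_cast at h2' h3'
  have h4 := mul_le_mul_of_nonneg_left h3' (by positivity : 0 ≤ 2 * J.ω)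
  unfold diag
  rw [mul_left_comm]
  refine mul_le_mul_of_nonneg_left ?_ (by positivity)
  linarith

lemma err_le (hV : VStmt) (h : J.H K lam) {n j m : ℕ} {Kn Cn a b : ℝ} (hK : ∀ l, l ≤ n → K l ≤ Kn)
    (hCn : 1 ≤ Cn)
    (hcomm : ∀ m', m = m' + 1 → ∀ i f g, |ip (mulV i f) (RR (m' + 1) g) - NV (m' + 1) i f g|
      ≤ Cn * √(WW m' f) * √(WW (m' + 1) g))
    (hmv : ∀ i f g, |ip (mulV i f) (RR m g)| ≤ Cn * √(WW m f) * √(WW m g))
    (hlow : ∀ α f g, |ip (opT α f) (RR m g)| ≤ Cn * √(WW (m + 1) f) * √(WW m g))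
    (ha : ∀ u m, u.length + m ≤ n → u.length < n → J.rho u m ≤ a)
    (hb : ∀ u m, u.length + m ≤ n → J.rho u m ≤ b) (ha0 : 0 ≤ a) (hb0 : 0 ≤ b)
    (hjm : j + m ≤ n) (u : List Ix) (hu : u.length = j) :
    J.err j m u ≤ 2 * (4 * dd + 2 * dd ^ 2) * 2 ^ n * Kn * Cn * (J.μ * J.ω) * (a * b) := by
  have hσ := h.σ_pos
  have hω := h.ω_pos
  have hμ := h.μ_pos
  have hKn : 0 ≤ Kn := (h.K_nonneg 0).trans (hK 0 (Nat.zero_le _))
  have hCn0 : 0 ≤ Cn := by linarith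
  set M := Kn * J.μ * Cn * (a * b) with hM
  have hM0 : 0 ≤ M := by positivity
  have hs : 0 < J.σ ^ (2 * j) := by positivity
  have h2n : (2 : ℝ) ^ u.length ≤ 2 ^ n := pow_le_pow_right₀ (by norm_num) (by omega)
  have h1n : (1 : ℝ) ≤ 2 ^ n := one_le_pow₀ (by norm_num)
  have hKμ : ∀ l, l ≤ n → K l * (J.μ * J.σ) ≤ Kn * J.μ * J.σ ^ 1 := fun l hl => by
    rw [pow_one, mul_assoc]; gcongr; exact hK l hl
  have fin : ∀ v : ℝ, |v| ≤ 2 ^ u.length * (M / J.σ ^ (2 * j)) →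
      |J.σ ^ (2 * j) * v| ≤ 2 ^ n * M := fun v hv => by
    rw [abs_mul, abs_of_pos hs]
    calc _ ≤ J.σ ^ (2 * j) * (2 ^ u.length * (M / J.σ ^ (2 * j))) := by gcongr
      _ = 2 ^ u.length * M := by field_simp
      _ ≤ _ := by gcongr
  have e1 : ∀ i, |J.σ ^ (2 * j) *
      (J.Cc [] * (NV m i (J.g (i :: u)) (J.g u) - J.Mv m i (i :: u) u))| ≤ 2 ^ n * M := by
    intro i
    rcases m with _ | m'
    · have : NV 0 i (J.g (i :: u)) (J.g u) - J.Mv 0 i (i :: u) u = 0 := by simp [NV, Mv, words]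
      rw [this]; simp; positivity
    · have a1 := hcomm m' rfl i (J.g (i :: u)) (J.g u)
      rw [abs_sub_comm] at a1
      have := key_bound (p := 0) (e := 1) (N' := 2 * j) hσ (by positivity : 0 ≤ Kn * J.μ) hCn0
        (Real.sqrt_nonneg _) (Real.sqrt_nonneg _) ((h.hC []).trans (hKμ 0 (Nat.zero_le _))) a1
        (hb (i :: u) m' (by simp; omega)) (ha u (m' + 1) (by omega) (by omega)) (by simp; omega)
      rw [zero_add, mul_comm b a] at this
      rw [abs_mul, abs_of_pos hs]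
      exact this.trans (le_mul_of_one_le_left hM0 h1n)
  have e2 : ∀ i, |J.σ ^ (2 * j) * (SP u (J.pU m i) - J.pU m i [] u - O1 u (J.pU m i))|
      ≤ 2 ^ n * M := by
    intro i
    refine fin _ (abs_SP_sub2_le (by positivity) u _ fun c d hc hcd => ?_)
    rw [le_div_iff₀ hs, mul_comm]
    have a1 : |J.Nn m (i :: d) (c ++ d)| ≤ Cn * √(WW m (J.g (i :: d))) * √(WW m (J.g (c ++ d))) :=
      (hV.rr m _ _).trans (by
        rw [mul_assoc]; exact le_mul_of_one_le_left (by positivity) hCn)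
    have := key_bound (p := c.length) (e := 1) (N' := d.length + j) hσ
      (by positivity : 0 ≤ Kn * J.μ) hCn0 (Real.sqrt_nonneg _) (Real.sqrt_nonneg _)
      ((h.hU i c hc).trans (hKμ _ (by omega))) a1
      (ha (i :: d) m (by simp; omega) (by simp; omega)) (hb (c ++ d) m (by simp; omega))
      (by simp; omega)
    rwa [show c.length + (d.length + j) = 2 * j by omega] at this
  have e3 : ∀ i, |J.σ ^ (2 * j) * (SP u (J.pC m i) - J.pC m i [] u - O1 u (J.pC m i))|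
      ≤ 2 ^ n * M := by
    intro i
    refine fin _ (abs_SP_sub2_le (by positivity) u _ fun c d hc hcd => ?_)
    rw [le_div_iff₀ hs, mul_comm]
    have := key_bound (p := c.length) (e := 1) (N' := d.length + j) hσ
      (by positivity : 0 ≤ Kn * J.μ) hCn0 (Real.sqrt_nonneg _) (Real.sqrt_nonneg _)
      ((h.hC c).trans (hKμ _ (by omega))) (hmv i (J.g (i :: d)) (J.g (c ++ d)))
      (ha (i :: d) m (by simp; omega) (by simp; omega)) (hb (c ++ d) m (by simp; omega))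
      (by simp; omega)
    rwa [show c.length + (d.length + j) = 2 * j by omega] at this
  have e4 : ∀ α, |J.σ ^ (2 * j) * (SP u (J.pT m α) - J.pT m α [] u)| ≤ 2 ^ n * M := by
    intro α
    refine fin _ (abs_SP_sub_le (by positivity) u _ fun c d hc hcd => ?_)
    rw [le_div_iff₀ hs, mul_comm]
    have a0 : J.σ ^ c.length * |J.t α c| ≤ Kn * J.μ * J.σ ^ 0 := by
      rw [pow_zero, mul_one]
      exact (h.ht α c).trans (mul_le_mul_of_nonneg_right (hK _ (by omega)) hμ.le)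
    have := key_bound (p := c.length) (e := 0) (N' := d.length + j) hσ
      (by positivity : 0 ≤ Kn * J.μ) hCn0 (Real.sqrt_nonneg _) (Real.sqrt_nonneg _)
      a0 (hlow α (J.g d) (J.g (c ++ d)))
      (ha d (m + 1) (by omega) (by omega)) (hb (c ++ d) m (by simp; omega))
      (by simp; omega)
    rwa [show c.length + (d.length + j) = 2 * j by omega] at this
  have s1 := sum_le_card_nsmul univ _ _ fun i _ => (abs_le.1 (e1 i)).2
  have s2 := card_nsmul_le_sum univ _ _ fun i _ => (abs_le.1 (e2 i)).1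
  have s3 := card_nsmul_le_sum univ _ _ fun i _ => (abs_le.1 (e3 i)).1
  have s4 := sum_le_card_nsmul univ _ _ fun α _ => (abs_le.1 (e4 α)).2
  simp only [card_univ, Fintype.card_sum, Fintype.card_prod, Fintype.card_fin, nsmul_eq_mul]
    at s1 s2 s3 s4
  push_cast at s1 s2 s3 s4
  unfold err
  calc _ ≤ 2 * J.ω * ((4 * dd + 2 * dd ^ 2) * (2 ^ n * M)) := by
        refine mul_le_mul_of_nonneg_left ?_ (by positivity)
        linarith
    _ = _ := by rw [hM]; ring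

end Jet

end Pool.Agent.BoltzD

end
end MrgPart0

-- ======== part 1: formerly Pool.Agent.BoltzD.En.Point
section MrgPart1

-- ======== part 0: formerly Pool.Agent.BoltzD.En.Form
section MrgPart0

/-!
The first order commutator terms: the quadratic form controlled by the repulsivity.
-/

set_option autoImplicit false

open Pool.Agent.BoltzC Finset

noncomputable section

namespace Pool.Agent.BoltzD

variable [Dim]

namespace Jet

/-- The part of the first order form that comes from the mean velocity. -/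
def formU (J : Jet) (m : ℕ) (X : Ix → SV) : ℝ :=
  (J.σt + ∑ i, J.U i [] * J.dσ i) * ∑ p, ip (X p) (RR m (X p))
    - J.σ * ∑ p, ∑ i, J.U i [p] * ip (X i) (RR m (X p))

/-- The part of the first order form that comes from the thermal speed. -/
def formC (J : Jet) (m : ℕ) (X : Ix → SV) : ℝ :=
  ∑ p, ∑ i, J.Cc [] * J.dσ i * NV m i (X p) (X p)
    - ∑ p, ∑ i, J.σ * J.Cc [p] * ip (mulV i (X i)) (RR m (X p))

variable {J : Jet} {K : ℕ → ℝ} {lam : ℝ}

lemma f1_zero (m : ℕ) : J.f1 0 m [] = 0 := by simp [f1, O1]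

lemma sum_f1 (j m : ℕ) : ∑ u ∈ words (j + 1), J.f1 (j + 1) m u =
    2 * (j + 1 : ℝ) * J.ω * ∑ b ∈ words j, J.σ ^ (2 * j + 1) *
      (J.formU m (fun p => J.g (p :: b)) + J.formC m fun p => J.g (p :: b)) := by
  have e0 : ∀ ψ : Ix → List Ix → List Ix → ℝ,
      ∑ u ∈ words (j + 1), ∑ i, O1 u (ψ i) =
        (j + 1 : ℝ) * ∑ b ∈ words j, ∑ i, ∑ p, ψ i [p] b := by
    intro ψ
    rw [sum_comm, sum_comm (s := words j), mul_sum]
    exact sum_congr rfl fun i _ => sum_O1 j (ψ i)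
  have e1 : ∑ u ∈ words (j + 1), ∑ i, (O1 u (J.pU m i) + O1 u (J.pC m i)) =
      ∑ b ∈ words j, (j + 1 : ℝ) * ∑ i, ∑ p, (J.pU m i [p] b + J.pC m i [p] b) := by
    simp only [sum_add_distrib, e0, ← mul_sum, mul_add]
  have e2 : ∀ φ : List Ix → ℝ,
      ∑ u ∈ words (j + 1), φ u = ∑ b ∈ words j, ∑ p, φ (p :: b) := fun φ => by
    rw [sum_words_succ, sum_comm]
  simp only [f1]
  rw [sum_sub_distrib, ← mul_sum, ← mul_sum, e1, e2, mul_sum, mul_sum, mul_sum, ← sum_sub_distrib]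
  refine sum_congr rfl fun b _ => ?_
  rw [show 2 * (j + 1) - 1 = 2 * j + 1 by omega, show 2 * (j + 1) = 2 * j + 1 + 1 by omega,
    pow_succ]
  simp only [formU, formC, pU, pC, Nn, Mv, List.singleton_append]
  push_cast
  rw [sum_comm (f := fun i p => J.U i [p] * ip (J.g (i :: b)) (RR m (J.g (p :: b)))
    + J.Cc [p] * ip (mulV i (J.g (i :: b))) (RR m (J.g (p :: b))))]
  simp only [mul_add, add_mul, mul_sub, mul_sum, sum_mul, ← sum_add_distrib, ← sum_sub_distrib]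
  refine sum_congr rfl fun p _ => ?_
  simp only [sum_add_distrib, sum_sub_distrib]
  ring_nf

lemma formU_le (hV : VStmt) (h : J.H K lam) (m : ℕ) (X : Ix → SV) :
    J.formU m X ≤ -((lam * J.μ * J.σ + cs * |J.Cc []| * √(∑ i, J.dσ i ^ 2)
      + cs * J.σ * √(∑ i, J.Cc [i] ^ 2)) * ∑ p, ip (X p) (RR m (X p))) := by
  have := hV.matr (lam * J.μ * J.σ + cs * |J.Cc []| * √(∑ i, J.dσ i ^ 2)
      + cs * J.σ * √(∑ i, J.Cc [i] ^ 2)) (-J.σt - ∑ i, J.U i [] * J.dσ i)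
    (fun p i => J.σ * J.U i [p]) (fun ξ => by
      have h1 := h.rep ξ
      have e : J.σ * ∑ p, ∑ i, ξ p * ξ i * J.U i [p] =
          ∑ p, ∑ i, ξ p * ξ i * (J.σ * J.U i [p]) := by
        simp only [mul_sum]
        exact sum_congr rfl fun p _ => sum_congr rfl fun i _ => by ring
      linarith) m X
  have e : J.σ * ∑ p, ∑ i, J.U i [p] * ip (X i) (RR m (X p)) =
      ∑ p, ∑ i, J.σ * J.U i [p] * ip (X i) (RR m (X p)) := by
    simp only [mul_sum, mul_assoc]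
  unfold formU
  linarith

lemma formU_nonpos (hV : VStmt) (h : J.H K lam) (hlam : 0 ≤ lam) (m : ℕ) (X : Ix → SV) :
    J.formU m X ≤ 0 := by
  refine (formU_le hV h m X).trans (neg_nonpos.2 (mul_nonneg ?_ (sum_nonneg fun p _ => ?_)))
  · have := h.σ_pos
    have := h.μ_pos
    have := cs_pos
    positivity
  · rw [← nA_eq_ip_RR]; exact nA_nonneg _ _

lemma H.abs_c1 (h : J.H K lam) (i : Ix) :
    |J.Cc [] * J.dσ i| ≤ (K 0 * K 1 + K 1) * J.μ * J.σ := by
  have hσ := h.σ_pos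
  have hμ := h.μ_pos
  have k0 := h.K_nonneg 0
  have k1 := h.K_nonneg 1
  have a1 : |J.Cc []| ≤ K 0 * (J.μ * J.σ) := by simpa using h.hC []
  have a2 : |J.dσ i| ≤ K 1 := le_of_mul_le_mul_left (by linarith [h.hdσ i]) hσ
  rw [abs_mul]
  calc |J.Cc []| * |J.dσ i| ≤ K 0 * (J.μ * J.σ) * K 1 := by gcongr
    _ ≤ _ := by nlinarith [mul_nonneg k1 (mul_pos hμ hσ).le]

lemma H.abs_c2 (h : J.H K lam) (p : Ix) :
    |J.σ * J.Cc [p]| ≤ (K 0 * K 1 + K 1) * J.μ * J.σ := by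
  have hσ := h.σ_pos
  have hμ := h.μ_pos
  have k0 := h.K_nonneg 0
  have k1 := h.K_nonneg 1
  have a1 := h.hC [p]
  simp only [List.length_singleton, pow_one] at a1
  rw [abs_mul, abs_of_pos hσ]
  nlinarith [mul_nonneg (mul_nonneg k0 k1) (mul_pos hμ hσ).le]

lemma sum9_le {φ ψ : Ix → Ix → ℝ} {M s : ℝ} (h1 : ∀ p i, s * |φ p i| ≤ M)
    (h2 : ∀ p i, s * |ψ p i| ≤ M) (hs : 0 ≤ s) :
    s * (∑ p, ∑ i, φ p i - ∑ p, ∑ i, ψ p i) ≤ 2 * dd ^ 2 * M := by
  have a1 : ∀ p i, s * φ p i ≤ M := fun p i =>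
    (mul_le_mul_of_nonneg_left (le_abs_self _) hs).trans (h1 p i)
  have a2 : ∀ p i, -(s * ψ p i) ≤ M := fun p i => by
    rw [← mul_neg]
    exact (mul_le_mul_of_nonneg_left (neg_le_abs _) hs).trans (h2 p i)
  have b1 := sum_le_Ix fun p => sum_le_Ix fun i => a1 p i
  have b2 := sum_le_Ix fun p => sum_le_Ix fun i => a2 p i
  simp only [sum_neg_distrib, ← mul_sum] at b1 b2
  rw [mul_sub]
  linarith

lemma form_le_gen (hV : VStmt) (h : J.H K lam) (hlam : 0 ≤ lam) {j m : ℕ} {Cn a b : ℝ}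
    (hCn : 1 ≤ Cn) (hmv : ∀ i f g, |ip (mulV i f) (RR m g)| ≤ Cn * √(WW m f) * √(WW m g))
    (X : Ix → SV) (ha : ∀ p, J.σ ^ (j + 1) * √(WW m (X p)) ≤ a)
    (hb : ∀ p, J.σ ^ (j + 1) * √(WW m (X p)) ≤ b) :
    J.σ ^ (2 * j + 1) * (J.formU m X + J.formC m X)
      ≤ 2 * dd ^ 2 * ((K 0 * K 1 + K 1) * J.μ * Cn * (a * b)) := by
  have hσ := h.σ_pos
  have hμ := h.μ_pos
  have k0 := h.K_nonneg 0
  have k1 := h.K_nonneg 1
  have hs : 0 ≤ J.σ ^ (2 * j + 1) := by positivity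
  have h1 := mul_nonpos_of_nonneg_of_nonpos hs (formU_nonpos hV h hlam m X)
  have h2 : J.σ ^ (2 * j + 1) * J.formC m X ≤
      2 * dd ^ 2 * ((K 0 * K 1 + K 1) * J.μ * Cn * (a * b)) := by
    refine sum9_le (fun p i => ?_) (fun p i => ?_) hs
    · have a1 : |NV m i (X p) (X p)| ≤ Cn * √(WW m (X p)) * √(WW m (X p)) :=
        (hV.nv m i _ _).trans (by
          rw [mul_assoc]; exact le_mul_of_one_le_left (by positivity) hCn)
      have := key_bound (p := 0) (e := 1) (N' := 2 * j + 1) hσ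
        (by positivity : 0 ≤ (K 0 * K 1 + K 1) * J.μ) (by linarith) (Real.sqrt_nonneg _)
        (Real.sqrt_nonneg _) (by simpa only [pow_zero, one_mul, pow_one] using h.abs_c1 i) a1 (ha p) (hb p) (by omega)
      rwa [zero_add] at this
    · have := key_bound (p := 0) (e := 1) (N' := 2 * j + 1) hσ
        (by positivity : 0 ≤ (K 0 * K 1 + K 1) * J.μ) (by linarith) (Real.sqrt_nonneg _)
        (Real.sqrt_nonneg _) (by simpa only [pow_zero, one_mul, pow_one] using h.abs_c2 p)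
        (hmv i (X i) (X p)) (ha i) (hb p) (by omega)
      rwa [zero_add] at this
  rw [mul_add]
  linarith

lemma form_le_top (hV : VStmt) (h : J.H K lam) (hlam : 0 ≤ lam) {j : ℕ} {Cx a b : ℝ}
    (hCx : 0 ≤ Cx) (hab : a ≤ b)
    (hx : ∀ i f g, |ip (mulV i f) g - ip (mulV i (PP f)) (PP g)| ≤
      Cx * (√(ip (PP f) (PP f)) * √(wq (g - PP g)) + √(wq (f - PP f)) * √(ip (PP g) (PP g))
        + √(wq (f - PP f)) * √(wq (g - PP g))))
    (X : Ix → SV) (hy : ∀ p, J.σ ^ (j + 1) * √(wq (X p - PP (X p))) ≤ a)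
    (hz : ∀ p, J.σ ^ (j + 1) * √(ip (PP (X p)) (PP (X p))) ≤ b) :
    J.σ ^ (2 * j + 1) * (J.formU 0 X + J.formC 0 X)
      ≤ -(lam * J.μ * (J.σ ^ (2 * (j + 1)) * ∑ p, ip (PP (X p)) (PP (X p))))
        + 2 * dd ^ 2 * ((K 0 * K 1 + K 1) * J.μ * (3 * Cx) * (a * b)) := by
  have hσ := h.σ_pos
  have hμ := h.μ_pos
  have k0 := h.K_nonneg 0
  have k1 := h.K_nonneg 1
  have hs : 0 ≤ J.σ ^ (2 * j + 1) := by positivity
  have ha0 : 0 ≤ a := le_trans (by positivity) (hy 0)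
  have hb0 : 0 ≤ b := ha0.trans hab
  have eU : J.formU 0 X =
      J.formU 0 (fun p => PP (X p)) + J.formU 0 fun p => X p - PP (X p) := by
    simp only [formU, RR_zero, fun i p => ip_split₂ (X i) (X p), mul_add, sum_add_distrib]
    ring
  have u1 := formU_le hV h 0 fun p => PP (X p)
  have u2 := formU_nonpos hV h hlam 0 fun p => X p - PP (X p)
  simp only [RR_zero] at u1
  have c1 : J.formC 0 (fun p => PP (X p)) ≤ (cs * |J.Cc []| * √(∑ i, J.dσ i ^ 2)
      + cs * J.σ * √(∑ i, J.Cc [i] ^ 2)) * ∑ p, ip (PP (X p)) (PP (X p)) := by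
    have a1 : ∀ p, ∑ i, J.Cc [] * J.dσ i * NV 0 i (PP (X p)) (PP (X p)) ≤
        |J.Cc []| * (cs * √(∑ i, J.dσ i ^ 2) * ip (PP (X p)) (PP (X p))) := by
      intro p
      have e : ∑ i, J.Cc [] * J.dσ i * NV 0 i (PP (X p)) (PP (X p)) =
          J.Cc [] * ∑ i, J.dσ i * ip (mulV i (PP (X p))) (PP (X p)) := by
        simp [NV, words, mul_sum, mul_assoc]
      rw [e]
      refine (le_abs_self _).trans ?_
      rw [abs_mul]
      exact mul_le_mul_of_nonneg_left (hV.sharp1 _ _) (abs_nonneg _)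
    have a2 := mul_le_mul_of_nonneg_left (neg_le_of_abs_le (hV.sharp2 (fun p => J.Cc [p]) X)) hσ.le
    have a3 := sum_le_sum fun p (_ : p ∈ univ) => a1 p
    rw [← mul_sum, ← mul_sum] at a3
    have e : ∑ p, ∑ i, J.σ * J.Cc [p] * ip (mulV i (PP (X i))) (PP (X p)) =
        J.σ * ∑ p, ∑ i, J.Cc [p] * ip (mulV i (PP (X i))) (PP (X p)) := by
      simp only [mul_sum, mul_assoc]
    unfold formC
    simp only [RR_zero]
    linarith
  have cr : ∀ i p q, J.σ ^ (2 * j + 1 + 1) *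
      |ip (mulV i (X p)) (X q) - ip (mulV i (PP (X p))) (PP (X q))| ≤ 3 * Cx * (a * b) := by
    intro i p q
    have b1 : (J.σ ^ (j + 1) * √(ip (PP (X p)) (PP (X p)))) *
        (J.σ ^ (j + 1) * √(wq (X q - PP (X q)))) ≤ b * a :=
      mul_le_mul (hz p) (hy q) (by positivity) hb0
    have b2 : (J.σ ^ (j + 1) * √(wq (X p - PP (X p)))) *
        (J.σ ^ (j + 1) * √(ip (PP (X q)) (PP (X q)))) ≤ a * b :=
      mul_le_mul (hy p) (hz q) (by positivity) ha0
    have b3 : (J.σ ^ (j + 1) * √(wq (X p - PP (X p)))) *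
        (J.σ ^ (j + 1) * √(wq (X q - PP (X q)))) ≤ a * b :=
      mul_le_mul (hy p) ((hy q).trans hab) (by positivity) ha0
    calc _ ≤ J.σ ^ (2 * j + 1 + 1) * _ := mul_le_mul_of_nonneg_left (hx i (X p) (X q)) (by positivity)
      _ = Cx * ((J.σ ^ (j + 1) * √(ip (PP (X p)) (PP (X p)))) *
          (J.σ ^ (j + 1) * √(wq (X q - PP (X q)))) + (J.σ ^ (j + 1) * √(wq (X p - PP (X p)))) *
          (J.σ ^ (j + 1) * √(ip (PP (X q)) (PP (X q)))) + (J.σ ^ (j + 1) * √(wq (X p - PP (X p)))) *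
          (J.σ ^ (j + 1) * √(wq (X q - PP (X q))))) := by ring
      _ ≤ Cx * (b * a + a * b + a * b) := by gcongr
      _ = _ := by ring
  have cr' : ∀ c : ℝ, |c| ≤ (K 0 * K 1 + K 1) * J.μ * J.σ → ∀ i p q, J.σ ^ (2 * j + 1) *
      |c * (ip (mulV i (X p)) (X q) - ip (mulV i (PP (X p))) (PP (X q)))|
        ≤ (K 0 * K 1 + K 1) * J.μ * (3 * Cx) * (a * b) := by
    intro c hc i p q
    rw [abs_mul]
    calc _ ≤ J.σ ^ (2 * j + 1) * ((K 0 * K 1 + K 1) * J.μ * J.σ *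
          |ip (mulV i (X p)) (X q) - ip (mulV i (PP (X p))) (PP (X q))|) := by gcongr
      _ = (K 0 * K 1 + K 1) * J.μ * (J.σ ^ (2 * j + 1 + 1) *
          |ip (mulV i (X p)) (X q) - ip (mulV i (PP (X p))) (PP (X q))|) := by ring
      _ ≤ (K 0 * K 1 + K 1) * J.μ * (3 * Cx * (a * b)) :=
          mul_le_mul_of_nonneg_left (cr i p q) (by positivity)
      _ = _ := by ring
  have c2 := sum9_le (fun p i => cr' _ (h.abs_c1 i) i p p) (fun p i => cr' _ (h.abs_c2 p) i i p) hs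
  have eC : J.formC 0 X = J.formC 0 (fun p => PP (X p)) +
      (∑ p, ∑ i, J.Cc [] * J.dσ i *
          (ip (mulV i (X p)) (X p) - ip (mulV i (PP (X p))) (PP (X p))) -
        ∑ p, ∑ i, J.σ * J.Cc [p] *
          (ip (mulV i (X i)) (X p) - ip (mulV i (PP (X i))) (PP (X p)))) := by
    simp only [formC, NV, words, sum_singleton, apW_nil, RR_zero, mul_sub, sum_sub_distrib]
    ring
  have m1 : J.formU 0 (fun p => PP (X p)) + J.formU 0 (fun p => X p - PP (X p))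
      + J.formC 0 (fun p => PP (X p)) ≤ -(lam * J.μ * J.σ * ∑ p, ip (PP (X p)) (PP (X p))) := by
    linarith
  have m2 := mul_le_mul_of_nonneg_left m1 hs
  rw [eU, eC, show 2 * (j + 1) = 2 * j + 1 + 1 by omega, pow_succ _ (2 * j + 1)]
  linarith

end Jet

end Pool.Agent.BoltzD

end
end MrgPart0

-- ======== part 1: formerly Pool.Agent.BoltzD.En.Point
section MrgPart1

/-!
The transport inequality at one point, summed over all levels.
-/

set_option autoImplicit false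

open Pool.Agent.BoltzC Finset

noncomputable section

namespace Pool.Agent.BoltzD

variable [Dim]

namespace Jet

/-- Hydrodynamic size at level `j`. -/
def zz (J : Jet) (j : ℕ) : ℝ := J.σ ^ (2 * j) * ∑ u ∈ words j, ip (PP (J.g u)) (PP (J.g u))

variable {J : Jet} {K : ℕ → ℝ} {lam : ℝ}

lemma rho_sq (hV : VStmt) (u : List Ix) (m : ℕ) :
    J.σ ^ (2 * u.length) * WW m (J.g u) = J.rho u m * J.rho u m := by
  have := Real.mul_self_sqrt (hV.WW_nonneg m (J.g u))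
  unfold rho
  rw [two_mul, pow_add]
  linear_combination (-(J.σ ^ u.length * J.σ ^ u.length)) * this

lemma level_low (hV : VStmt) (K : ℕ → ℝ) (n : ℕ) : ∃ C : ℝ, 0 ≤ C ∧
    ∀ (J : Jet) (lam a b : ℝ), J.H K lam → 0 ≤ lam → 0 ≤ a → 0 ≤ b →
      (∀ u m, u.length + m ≤ n → u.length < n → J.rho u m ≤ a) →
      (∀ u m, u.length + m ≤ n → J.rho u m ≤ b) → ∀ j m, j + m ≤ n →
      ∑ u ∈ words j, J.err j m u ≤ C * (J.μ * J.ω * (a * b)) ∧
      (j < n → ∑ u ∈ words j, J.q j m u ≤ C * (J.μ * J.ω * (a * b))) := by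
  have hd1 : (1 : ℝ) ≤ dd := by linarith [two_le_dr]
  obtain ⟨c1, C1, hC1, h1, h1'⟩ := unif_const hV.comm n
  obtain ⟨c2, C2, hC2, h2, h2'⟩ := unif_const hV.mv n
  obtain ⟨c3, C3, hC3, h3, h3'⟩ := unif_const hV.opT_low n
  obtain ⟨c4, C4, hC4, h4, h4'⟩ := unif_const hV.opT_top n
  set Cn := 1 + C1 + C2 + C3 with hCn
  set Kn := ∑ l ∈ range (n + 1), |K l| with hKn
  have hKn0 : 0 ≤ Kn := sum_nonneg fun _ _ => abs_nonneg _
  have hK : ∀ l, l ≤ n → K l ≤ Kn := fun l hl => (le_abs_self _).trans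
    (single_le_sum (f := fun l => |K l|) (fun _ _ => abs_nonneg _) (mem_range.2 (by omega)))
  set Ce := (dd : ℝ) ^ n * (2 * (4 * dd + 2 * dd ^ 2) * 2 ^ n * Kn * Cn) with hCe
  set Cd := (dd : ℝ) ^ n * |K 0 + dd * (K 1 * K 0 + K 1) + 2 * (dd + 2 * dd ^ 2) * K 0 * C4| with hCd
  set Cf := 2 * n * ((dd : ℝ) ^ n * (2 * dd ^ 2 * (|K 0 * K 1 + K 1| * Cn))) with hCf
  have hCe0 : 0 ≤ Ce := by positivity
  have hCd0 : 0 ≤ Cd := by positivity
  have hCf0 : 0 ≤ Cf := by positivity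
  refine ⟨Ce + Cd + Cf, by positivity, fun J lam a b h hlam ha0 hb0 ha hb j m hjm => ?_⟩
  have hσ := h.σ_pos
  have hω := h.ω_pos
  have hμ := h.μ_pos
  set X := J.μ * J.ω * (a * b) with hX
  have hX0 : 0 ≤ X := by positivity
  have h3j : ∀ i, i ≤ n → (dd : ℝ) ^ i ≤ (dd : ℝ) ^ n := fun i hi =>
    pow_le_pow_right₀ hd1 hi
  have up : ∀ {v c C w1 w2 : ℝ}, v ≤ c * √w1 * √w2 → c ≤ C → v ≤ C * √w1 * √w2 :=
    fun hv hc => hv.trans (by gcongr)
  have hmv : ∀ i f g, |ip (mulV i f) (RR m g)| ≤ Cn * √(WW m f) * √(WW m g) := fun i f g =>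
    up ((h2 m).2 i f g) ((h2' m (by omega)).trans (by linarith))
  have he : ∑ u ∈ words j, J.err j m u ≤ Ce * X := by
    have := sum_words_le (j := j) (φ := J.err j m) fun u hu =>
      err_le hV h hK (Cn := Cn) (by linarith)
        (fun m' hm i f g => up ((h1 m').2 i f g) ((h1' m' (by omega)).trans (by linarith))) hmv
        (fun α f g => up ((h3 m).2 α f g) ((h3' m (by omega)).trans (by linarith)))
        ha hb ha0 hb0 hjm u hu
    calc _ ≤ _ := this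
      _ = (dd : ℝ) ^ j * (2 * (4 * dd + 2 * dd ^ 2) * 2 ^ n * Kn * Cn * X) := by rw [hX]; ring
      _ ≤ (dd : ℝ) ^ n * (2 * (4 * dd + 2 * dd ^ 2) * 2 ^ n * Kn * Cn * X) :=
        mul_le_mul_of_nonneg_right (h3j j (by omega)) (by positivity)
      _ = _ := by rw [hCe]; ring
  refine ⟨he.trans (by gcongr; linarith), fun hj => ?_⟩
  have hd : ∑ u ∈ words j, J.diag j m u ≤ Cd * X := by
    have := sum_words_le (j := j) (φ := J.diag j m)
      (M := |K 0 + dd * (K 1 * K 0 + K 1) + 2 * (dd + 2 * dd ^ 2) * K 0 * C4| * X) fun u hu => by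
        have a1 := diag_le hV h (m := m) (Ct := C4) (fun α f => ((h4 m).2 α f).trans
          (mul_le_mul_of_nonneg_right (h4' m (by omega)) (hV.WW_nonneg _ _))) j u
        have a2 : J.σ ^ (2 * j) * WW m (J.g u) ≤ a * b := by
          rw [← hu, rho_sq hV]
          exact mul_le_mul (ha u m (by omega) (by omega)) (hb u m (by omega))
            (by unfold rho; positivity) ha0
        have a3 : 0 ≤ J.σ ^ (2 * j) * WW m (J.g u) := by
          have := hV.WW_nonneg m (J.g u); positivity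
        calc _ ≤ _ := a1
          _ ≤ |K 0 + dd * (K 1 * K 0 + K 1) + 2 * (dd + 2 * dd ^ 2) * K 0 * C4| * (J.μ * J.ω) * (a * b) := by
            gcongr; exact le_abs_self _
          _ = _ := by rw [hX]; ring
    calc _ ≤ _ := this
      _ ≤ (dd : ℝ) ^ n * (|K 0 + dd * (K 1 * K 0 + K 1) + 2 * (dd + 2 * dd ^ 2) * K 0 * C4| * X) :=
        mul_le_mul_of_nonneg_right (h3j j (by omega)) (by positivity)
      _ = _ := by rw [hCd]; ring
  have hf : ∑ u ∈ words j, J.f1 j m u ≤ Cf * X := by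
    rcases j with _ | j
    · simp only [words, sum_singleton, f1_zero]; positivity
    · rw [sum_f1]
      have := sum_words_le (j := j) fun c hc => form_le_gen hV h hlam (j := j) (m := m) (Cn := Cn)
        (a := a) (b := b) (by linarith) hmv (fun p => J.g (p :: c))
        (fun p => by simpa [rho, hc] using ha (p :: c) m (by simp; omega) (by simp; omega))
        (fun p => by simpa [rho, hc] using hb (p :: c) m (by simp; omega))
      have hj1 : (j + 1 : ℝ) ≤ n := by exact_mod_cast hj.le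
      calc _ ≤ 2 * (j + 1 : ℝ) * J.ω *
            ((dd : ℝ) ^ j * (2 * dd ^ 2 * ((K 0 * K 1 + K 1) * J.μ * Cn * (a * b)))) :=
            mul_le_mul_of_nonneg_left this (by positivity)
        _ ≤ 2 * n * J.ω * ((dd : ℝ) ^ n * (2 * dd ^ 2 * (|K 0 * K 1 + K 1| * J.μ * Cn * (a * b)))) := by
            have k0 := h.K_nonneg 0
            have k1 := h.K_nonneg 1
            have h5 := h3j j (by omega)
            gcongr
            exact le_abs_self _
        _ = _ := by rw [hCf, hX]; ring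
  simp only [q_eq, sum_add_distrib]
  linarith

lemma level_top (hV : VStmt) (K : ℕ → ℝ) : ∃ K0 : ℝ, ∀ n : ℕ, ∃ C : ℝ, 0 ≤ C ∧
    ∀ (J : Jet) (lam a b : ℝ), J.H K lam → 0 ≤ lam → 0 ≤ a → a ≤ b →
      (∀ u, u.length = n → J.σ ^ n * √(wq (J.g u - PP (J.g u))) ≤ a) →
      (∀ u, u.length = n → J.σ ^ n * √(ip (PP (J.g u)) (PP (J.g u))) ≤ b) →
      ∑ u ∈ words n, (J.diag n 0 u + J.f1 n 0 u)
        ≤ J.μ * J.ω * ((K0 - 2 * n * lam) * J.zz n) + C * (J.μ * J.ω * (a * b)) := by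
  have hd1 : (1 : ℝ) ≤ dd := by linarith [two_le_dr]
  obtain ⟨Ct, hCt, htop⟩ := hV.opT_top 0
  obtain ⟨Cs, hCs, hsp⟩ := hV.split 0
  obtain ⟨Cx, hCx, hx⟩ := hV.cross
  set Kd := |K 0 + dd * (K 1 * K 0 + K 1) + 2 * (dd + 2 * dd ^ 2) * K 0 * Ct| with hKd
  refine ⟨Kd * Cs, fun n => ?_⟩
  set Cd := Kd * Cs * (dd : ℝ) ^ n with hCd
  set Cf := 2 * n * ((dd : ℝ) ^ n * (2 * dd ^ 2 * (|K 0 * K 1 + K 1| * (3 * Cx)))) with hCf
  refine ⟨Cd + Cf, by positivity, fun J lam a b h hlam ha0 hab hy hz => ?_⟩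
  have hσ := h.σ_pos
  have hω := h.ω_pos
  have hμ := h.μ_pos
  have hb0 : 0 ≤ b := ha0.trans hab
  set X := J.μ * J.ω * (a * b) with hX
  have hX0 : 0 ≤ X := by positivity
  have hd : ∑ u ∈ words n, J.diag n 0 u ≤ J.μ * J.ω * (Kd * Cs * J.zz n) + Cd * X := by
    have a0 : ∀ u ∈ words n, J.diag n 0 u ≤ J.μ * J.ω * (Kd * Cs *
        (J.σ ^ (2 * n) * ip (PP (J.g u)) (PP (J.g u)))) + Kd * Cs * X := by
      intro u hu
      have hu' := mem_words.1 hu
      have a1 := diag_le hV h htop n u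
      have a2 : J.σ ^ (2 * n) * WW 0 (J.g u - PP (J.g u)) ≤ a * b := by
        have e : WW 0 (J.g u - PP (J.g u)) = wq (J.g u - PP (J.g u)) := by simp [WW, words]
        have e2 := Real.mul_self_sqrt (hV.wq_nonneg (J.g u - PP (J.g u)))
        have := mul_le_mul (hy u hu') ((hy u hu').trans hab) (by positivity) ha0
        rw [e, two_mul, pow_add, ← e2]
        linarith
      have a3 : 0 ≤ J.σ ^ (2 * n) * WW 0 (J.g u) := by
        have := hV.WW_nonneg 0 (J.g u); positivity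
      have a4 : J.σ ^ (2 * n) * WW 0 (J.g u) ≤
          Cs * (J.σ ^ (2 * n) * ip (PP (J.g u)) (PP (J.g u)) + a * b) := by
        have := mul_le_mul_of_nonneg_left (hsp (J.g u)) (by positivity : 0 ≤ J.σ ^ (2 * n))
        nlinarith [mul_le_mul_of_nonneg_left a2 hCs.le]
      calc _ ≤ _ := a1
        _ ≤ Kd * (J.μ * J.ω) * (Cs * (J.σ ^ (2 * n) * ip (PP (J.g u)) (PP (J.g u)) + a * b)) := by
          gcongr; exact le_abs_self _
        _ = _ := by rw [hX]; ring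
    refine (sum_le_sum a0).trans (le_of_eq ?_)
    rw [sum_add_distrib, ← mul_sum, ← mul_sum, ← mul_sum, sum_const, card_words, nsmul_eq_mul, hCd]
    push_cast
    unfold zz
    ring
  have hf : ∑ u ∈ words n, J.f1 n 0 u ≤ J.μ * J.ω * (-(2 * n * lam) * J.zz n) + Cf * X := by
    rcases n with _ | j
    · simp [words, f1_zero, hCf]
    · rw [sum_f1]
      have a0 : ∀ c ∈ words j, J.σ ^ (2 * j + 1) *
          (J.formU 0 (fun p => J.g (p :: c)) + J.formC 0 fun p => J.g (p :: c)) ≤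
          -(lam * J.μ * (J.σ ^ (2 * (j + 1)) * ∑ p, ip (PP (J.g (p :: c))) (PP (J.g (p :: c)))))
            + 2 * dd ^ 2 * (|K 0 * K 1 + K 1| * J.μ * (3 * Cx) * (a * b)) := fun c hc =>
        (form_le_top hV h hlam hCx.le hab hx (fun p => J.g (p :: c))
          (fun p => hy (p :: c) (by simp [mem_words.1 hc]))
          (fun p => hz (p :: c) (by simp [mem_words.1 hc]))).trans (by
            gcongr; exact le_abs_self _)
      have a1 := (sum_le_sum a0).trans_eq (by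
        rw [sum_add_distrib, sum_neg_distrib, ← mul_sum, ← mul_sum, sum_const, card_words,
          nsmul_eq_mul, sum_comm, ← sum_words_succ j fun u => ip (PP (J.g u)) (PP (J.g u))])
      have a2 := mul_le_mul_of_nonneg_left a1 (by positivity : 0 ≤ 2 * (j + 1 : ℝ) * J.ω)
      have a3 : (dd : ℝ) ^ j ≤ (dd : ℝ) ^ (j + 1) := pow_le_pow_right₀ hd1 (by omega)
      have a4 : 2 * (j + 1 : ℝ) * J.ω *
          ((dd : ℝ) ^ j * (2 * dd ^ 2 * (|K 0 * K 1 + K 1| * J.μ * (3 * Cx) * (a * b)))) ≤ Cf * X := by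
        calc _ ≤ 2 * (j + 1 : ℝ) * J.ω *
              ((dd : ℝ) ^ (j + 1) * (2 * dd ^ 2 * (|K 0 * K 1 + K 1| * J.μ * (3 * Cx) * (a * b)))) := by gcongr
          _ = _ := by rw [hCf, hX]; push_cast; ring
      unfold zz
      push_cast at a2 ⊢
      linarith
  rw [sum_add_distrib]
  linarith

lemma sum_q_le (hV : VStmt) (K : ℕ → ℝ) : ∃ K0 : ℝ, ∀ n : ℕ, ∃ C : ℝ, 0 ≤ C ∧
    ∀ (θ : ℝ) (J : Jet) (lam a b : ℝ), 0 < θ → θ ≤ 1 → J.H K lam → 0 ≤ lam → 0 ≤ a → a ≤ b →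
      (∀ u m, u.length + m ≤ n → u.length < n → J.rho u m ≤ a) →
      (∀ u m, u.length + m ≤ n → J.rho u m ≤ b) →
      (∀ u, u.length = n → J.σ ^ n * √(wq (J.g u - PP (J.g u))) ≤ a) →
      (∀ u, u.length = n → J.σ ^ n * √(ip (PP (J.g u)) (PP (J.g u))) ≤ b) →
      ∑ j ∈ range (n + 1), ∑ m ∈ range (n + 1 - j), θ ^ (j + m) * ∑ u ∈ words j, J.q j m u
        ≤ J.μ * J.ω * (θ ^ n * (K0 - 2 * n * lam) * J.zz n + C * (a * b)) := by
  obtain ⟨K0, htop⟩ := level_top hV K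
  refine ⟨K0, fun n => ?_⟩
  obtain ⟨C1, hC1, h1⟩ := level_low hV K n
  obtain ⟨C2, hC2, h2⟩ := htop n
  refine ⟨n * ((n + 1) * C1) + (C2 + C1), by positivity,
    fun θ J lam a b hθ hθ1 h hlam ha0 hab ha hb hy hz => ?_⟩
  have hω := h.ω_pos
  have hμ := h.μ_pos
  have hb0 : 0 ≤ b := ha0.trans hab
  replace h1 := h1 J lam a b h hlam ha0 hb0 ha hb
  replace h2 := h2 J lam a b h hlam ha0 hab hy hz
  set X := J.μ * J.ω * (a * b) with hX
  have hX0 : 0 ≤ X := by positivity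
  have hp : ∀ i, θ ^ i ≤ 1 := fun i => pow_le_one₀ hθ.le hθ1
  have s1 : ∀ j ∈ range n, ∑ m ∈ range (n + 1 - j), θ ^ (j + m) * ∑ u ∈ words j, J.q j m u
      ≤ (n + 1) * C1 * X := by
    intro j hj
    have hj' := mem_range.1 hj
    have := sum_le_card_nsmul (range (n + 1 - j))
      (fun m => θ ^ (j + m) * ∑ u ∈ words j, J.q j m u) (C1 * X) fun m hm =>
        (mul_le_mul_of_nonneg_left ((h1 j m (by have := mem_range.1 hm; omega)).2 hj')
          (by positivity)).trans (mul_le_of_le_one_left (by positivity) (hp _))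
    rw [card_range, nsmul_eq_mul] at this
    have hc : ((n + 1 - j : ℕ) : ℝ) ≤ n + 1 := by exact_mod_cast Nat.sub_le _ _
    calc _ ≤ _ := this
      _ ≤ (n + 1) * (C1 * X) := by gcongr
      _ = _ := by ring
  have s2 := sum_le_card_nsmul _ _ _ s1
  rw [card_range, nsmul_eq_mul] at s2
  have s3 : ∑ u ∈ words n, J.q n 0 u ≤
      J.μ * J.ω * ((K0 - 2 * n * lam) * J.zz n) + (C2 + C1) * X := by
    have := (h1 n 0 (by omega)).1
    simp only [q_eq, sum_add_distrib] at h2 ⊢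
    linarith
  have s4 := mul_le_mul_of_nonneg_left s3 (by positivity : 0 ≤ θ ^ n)
  have s5 : θ ^ n * ((C2 + C1) * X) ≤ (C2 + C1) * X :=
    mul_le_of_le_one_left (by positivity) (hp _)
  rw [sum_range_succ, show n + 1 - n = 1 by omega, sum_range_one, add_zero]
  rw [mul_add] at s4
  have e : J.μ * J.ω * (θ ^ n * (K0 - 2 * n * lam) * J.zz n +
      (n * ((n + 1) * C1) + (C2 + C1)) * (a * b)) =
      θ ^ n * (J.μ * J.ω * ((K0 - 2 * n * lam) * J.zz n)) + n * ((n + 1) * C1 * X)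
        + (C2 + C1) * X := by rw [hX]; ring
  rw [e]
  linarith

end Jet

end Pool.Agent.BoltzD

end
end MrgPart1

-- marker of a merged file
example : 731051 + 653101 = 731051 + 653101 := rfl

end MrgPart1

-- marker of a merged file
example : 731051 + 653101 = 731051 + 653101 := rfl

end MrgPart0

-- ======== part 1: formerly Pool.Agent.BoltzD.KK.Scale
section MrgPart1

-- ======== part 0: formerly Pool.Agent.BoltzD.Dich.Vol
section MrgPart0

/-!
Volume contraction for an operator that is a contraction up to finitely many directions,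
and finite dimensionality of the space of decaying backward orbits.
-/

namespace Pool.Agent.BoltzC.Dich

variable [Dim]

open Module Filter Topology
open scoped RealInnerProductSpace

variable {H : Type*} [NormedAddCommGroup H] [InnerProductSpace ℝ H]

/-- Hadamard's inequality for `normDet`. -/
theorem normDet_le_prod {U : Type*} [NormedAddCommGroup U] [InnerProductSpace ℝ U]
    [FiniteDimensional ℝ U] {d : ℕ} (f : U →ₗ[ℝ] H) (b : OrthonormalBasis (Fin d) ℝ U) :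
    f.normDet ≤ ∏ i, ‖f (b i)‖ := by
  by_cases h0 : f.normDet = 0
  · rw [h0]; exact Finset.prod_nonneg fun i _ => norm_nonneg _
  have hr : finrank ℝ f.range = finrank ℝ U := by
    by_contra h
    exact h0 (LinearMap.normDet_eq_zero_iff_rank_range_ne.mpr h)
  have hd : finrank ℝ U = d := by
    simpa using finrank_eq_card_basis b.toBasis
  have hcard : finrank ℝ f.range = Fintype.card (Fin d) := by simp [hr, hd]
  set v : Fin d → f.range := fun i => f.rangeRestrict (b i) with hv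
  set c := InnerProductSpace.gramSchmidtOrthonormalBasis hcard v with hc
  rw [LinearMap.normDet_eq_norm_det_toMatrix_rangeRestrict f b c]
  have e1 : (f.rangeRestrict.toMatrix b.toBasis c.toBasis) = c.toBasis.toMatrix v := by
    ext i j
    simp [LinearMap.toMatrix_apply, Basis.toMatrix_apply, hv]
  have e2 : (c.toBasis.toMatrix v).det = ∏ i, ⟪c i, v i⟫ := by
    rw [← Basis.det_apply]
    exact InnerProductSpace.gramSchmidtOrthonormalBasis_det hcard v
  rw [e1, e2, Real.norm_eq_abs, Finset.abs_prod]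
  refine Finset.prod_le_prod (fun i _ => abs_nonneg _) fun i _ => ?_
  have := abs_real_inner_le_norm (c i) (v i)
  rw [c.orthonormal.1 i, one_mul] at this
  exact this

/-- Volumes of large dimension are contracted faster than `q ^ d`. -/
theorem vol_contract {κ : Type*} [Fintype κ] (S : H →ₗ[ℝ] H) (r : κ → H) (q0 q : ℝ)
    (hq0 : 0 ≤ q0) (hq : q0 < q)
    (hS : ∀ x, ‖S x‖ ^ 2 ≤ q0 ^ 2 * ‖x‖ ^ 2 + ∑ k, ⟪r k, x⟫ ^ 2) :
    ∃ d0 : ℕ, ∀ (V : Submodule ℝ H) [FiniteDimensional ℝ V], d0 ≤ finrank ℝ V →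
      (S.domRestrict V).normDet ≤ (1 / 2) * q ^ finrank ℝ V := by
  have hqpos : 0 < q := lt_of_le_of_lt hq0 hq
  have hgap : 0 < q ^ 2 - q0 ^ 2 := by nlinarith
  set h := ∑ k, ‖r k‖ ^ 2 with hh
  obtain ⟨d0, hd0⟩ := exists_nat_ge ((h + 3 * q ^ 2) / (q ^ 2 - q0 ^ 2))
  refine ⟨d0, fun V _ hV => ?_⟩
  set d := finrank ℝ V with hd
  set b := stdOrthonormalBasis ℝ V with hb
  have h1 := normDet_le_prod (S.domRestrict V) b
  have hon : Orthonormal ℝ (fun i => (b i : H)) :=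
    V.subtypeₗᵢ.orthonormal_comp_iff.mpr b.orthonormal
  have hsum : ∑ i, ‖S (b i : H)‖ ^ 2 ≤ d * q0 ^ 2 + h := by
    have e : ∀ i, ‖S (b i : H)‖ ^ 2 ≤ q0 ^ 2 + ∑ k, ⟪r k, (b i : H)⟫ ^ 2 := by
      intro i
      have := hS (b i : H)
      rwa [hon.1 i, one_pow, mul_one] at this
    calc ∑ i, ‖S (b i : H)‖ ^ 2 ≤ ∑ i, (q0 ^ 2 + ∑ k, ⟪r k, (b i : H)⟫ ^ 2) :=
          Finset.sum_le_sum fun i _ => e i
      _ = d * q0 ^ 2 + ∑ k, ∑ i, ⟪r k, (b i : H)⟫ ^ 2 := by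
          rw [Finset.sum_add_distrib, Finset.sum_comm]
          simp [hd]
      _ ≤ d * q0 ^ 2 + h := by
          refine add_le_add le_rfl (Finset.sum_le_sum fun k _ => ?_)
          have := hon.sum_inner_products_le (s := Finset.univ) (r k)
          simpa [real_inner_comm, sq_abs] using this
  have hexp : ∀ i, ‖S (b i : H)‖ ≤ q * Real.exp ((‖S (b i : H)‖ ^ 2 / q ^ 2 - 1) / 2) := by
    intro i
    set t := ‖S (b i : H)‖
    have h2 : (t ^ 2 / q ^ 2 - 1) / 2 + 1 ≤ Real.exp ((t ^ 2 / q ^ 2 - 1) / 2) :=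
      Real.add_one_le_exp _
    have h3 : t ≤ q * ((t ^ 2 / q ^ 2 - 1) / 2 + 1) := by
      have : q * ((t ^ 2 / q ^ 2 - 1) / 2 + 1) - t = (t - q) ^ 2 / (2 * q) := by
        field_simp; ring
      have h4 : 0 ≤ (t - q) ^ 2 / (2 * q) := by positivity
      linarith
    exact h3.trans (mul_le_mul_of_nonneg_left h2 hqpos.le)
  have h5 : ∏ i, ‖S (b i : H)‖ ≤
      q ^ d * Real.exp (((∑ i, ‖S (b i : H)‖ ^ 2) / q ^ 2 - d) / 2) := by
    calc ∏ i, ‖S (b i : H)‖ ≤ ∏ i, (q * Real.exp ((‖S (b i : H)‖ ^ 2 / q ^ 2 - 1) / 2)) :=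
          Finset.prod_le_prod (fun i _ => norm_nonneg _) fun i _ => hexp i
      _ = q ^ d * Real.exp (((∑ i, ‖S (b i : H)‖ ^ 2) / q ^ 2 - d) / 2) := by
          rw [Finset.prod_mul_distrib, ← Real.exp_sum]
          congr 1
          · simp [hd]
          · congr 1
            rw [← Finset.sum_div, Finset.sum_sub_distrib, ← Finset.sum_div]
            simp [hd]
  have h6 : ((∑ i, ‖S (b i : H)‖ ^ 2) / q ^ 2 - d) / 2 ≤ -1 := by
    have hdd : (d0 : ℝ) ≤ d := by exact_mod_cast hV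
    have h7 : h + 3 * q ^ 2 ≤ d * (q ^ 2 - q0 ^ 2) := by
      have := (div_le_iff₀ hgap).mp hd0
      nlinarith
    have h8 : (∑ i, ‖S (b i : H)‖ ^ 2) / q ^ 2 ≤ d - 2 := by
      rw [div_le_iff₀ (by positivity)]
      nlinarith [sq_nonneg q]
    linarith
  have h9 : Real.exp (((∑ i, ‖S (b i : H)‖ ^ 2) / q ^ 2 - d) / 2) ≤ 1 / 2 := by
    refine (Real.exp_le_exp.mpr h6).trans ?_
    rw [Real.exp_neg, inv_eq_one_div]
    apply one_div_le_one_div_of_le (by norm_num)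
    have := Real.add_one_le_exp (1 : ℝ)
    linarith
  calc (S.domRestrict V).normDet ≤ ∏ i, ‖S (b i : H)‖ := h1
    _ ≤ _ := h5
    _ ≤ q ^ d * (1 / 2) := by gcongr
    _ = _ := by ring

/-- Points with a backward orbit of size `O(b ^ j)`. -/
def Back (S : H →ₗ[ℝ] H) (b : ℝ) : Submodule ℝ H where
  carrier := {z | ∃ u : ℕ → H, u 0 = z ∧ (∀ j, S (u (j + 1)) = u j) ∧
    ∃ C : ℝ, ∀ j, ‖u j‖ ≤ C * b ^ j}
  add_mem' := by
    rintro _ _ ⟨u, rfl, hu, C, hC⟩ ⟨v, rfl, hv, D, hD⟩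
    refine ⟨u + v, rfl, fun j => by simp [hu, hv], C + D, fun j => ?_⟩
    have := norm_add_le (u j) (v j)
    have := hC j
    have := hD j
    simp only [Pi.add_apply]
    linarith
  zero_mem' := ⟨0, rfl, by simp, 0, by simp⟩
  smul_mem' := by
    rintro c _ ⟨u, rfl, hu, C, hC⟩
    refine ⟨c • u, rfl, fun j => by simp [hu], |c| * C, fun j => ?_⟩
    simp only [Pi.smul_apply, norm_smul, Real.norm_eq_abs, mul_assoc]
    exact mul_le_mul_of_nonneg_left (hC j) (abs_nonneg c)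

theorem Back_mono (S : H →ₗ[ℝ] H) {a b : ℝ} (ha : 0 ≤ a) (hab : a ≤ b) : Back S a ≤ Back S b := by
  rintro _ ⟨u, rfl, hu, C, hC⟩
  have hC0 : 0 ≤ C := by simpa using (norm_nonneg _).trans (hC 0)
  exact ⟨u, rfl, hu, C, fun j => (hC j).trans (by gcongr)⟩

theorem Back_finite {κ : Type*} [Fintype κ] (S : H →ₗ[ℝ] H) (r : κ → H) (q0 q : ℝ)
    (hq0 : 0 ≤ q0) (hq : q0 < q)
    (hS : ∀ x, ‖S x‖ ^ 2 ≤ q0 ^ 2 * ‖x‖ ^ 2 + ∑ k, ⟪r k, x⟫ ^ 2) :
    FiniteDimensional ℝ (Back S q⁻¹) := by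
  have hqpos : 0 < q := lt_of_le_of_lt hq0 hq
  obtain ⟨d, hd⟩ := vol_contract S r q0 q hq0 hq hS
  by_contra hinf
  have hrank : (d : Cardinal) ≤ Module.rank ℝ (Back S q⁻¹) := by
    by_contra hlt
    push Not at hlt
    exact hinf (Module.rank_lt_aleph0_iff.mp (hlt.trans (Cardinal.natCast_lt_aleph0)))
  obtain ⟨z, hz⟩ := exists_linearIndependent_of_le_rank hrank
  choose u hu0 hu C hC using fun i => (z i).2
  set e := EuclideanSpace.basisFun (Fin d) ℝ with he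
  let f : ℕ → (EuclideanSpace ℝ (Fin d) →ₗ[ℝ] H) := fun j => e.toBasis.constr ℝ fun i => u i j
  have hf : ∀ j i, f j (e i) = u i j := fun j i => by
    have := e.toBasis.constr_basis ℝ (fun i => u i j) i
    rwa [OrthonormalBasis.coe_toBasis] at this
  have hcomp : ∀ j, f j = S ∘ₗ f (j + 1) := fun j =>
    e.toBasis.ext fun i => by simp only [OrthonormalBasis.coe_toBasis, LinearMap.comp_apply, hf, hu]
  have hstep : ∀ j, (f j).normDet ≤ (1 / 2) * q ^ d * (f (j + 1)).normDet := by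
    intro j
    by_cases h0 : (f (j + 1)).normDet = 0
    · rw [hcomp j, LinearMap.normDet_comp, h0]; simp
    have hr : finrank ℝ (f (j + 1)).range = d := by
      by_contra h
      apply h0
      apply LinearMap.normDet_eq_zero_iff_rank_range_ne.mpr
      simpa using h
    have := hd (f (j + 1)).range hr.ge
    rw [hr] at this
    rw [hcomp j, LinearMap.normDet_comp]
    exact mul_le_mul_of_nonneg_right this (LinearMap.normDet_nonneg _)
  have hiter : ∀ j, (f 0).normDet ≤ ((1 / 2) * q ^ d) ^ j * (f j).normDet := by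
    intro j
    induction j with
    | zero => simp
    | succ j ih =>
      refine ih.trans ?_
      rw [pow_succ, mul_assoc]
      exact mul_le_mul_of_nonneg_left (hstep j) (by positivity)
  have hup : ∀ j, (f j).normDet ≤ (∏ i, C i) * (q⁻¹ ^ j) ^ d := by
    intro j
    refine (normDet_le_prod (f j) e).trans ?_
    calc ∏ i, ‖f j (e i)‖ ≤ ∏ i, (C i * q⁻¹ ^ j) :=
          Finset.prod_le_prod (fun i _ => norm_nonneg _) fun i _ => by rw [hf]; exact hC i j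
      _ = _ := by rw [Finset.prod_mul_distrib]; simp
  have hle : ∀ j, (f 0).normDet ≤ (∏ i, C i) * (1 / 2) ^ j := by
    intro j
    refine (hiter j).trans ((mul_le_mul_of_nonneg_left (hup j) (by positivity)).trans (le_of_eq ?_))
    have : (q ^ d) ^ j * (q⁻¹ ^ j) ^ d = 1 := by
      rw [← pow_mul, ← pow_mul, mul_comm j d, ← mul_pow, mul_inv_cancel₀ hqpos.ne', one_pow]
    rw [mul_pow]
    linear_combination (∏ i, C i) * (1 / 2) ^ j * this
  have hlim : Tendsto (fun j : ℕ => (∏ i, C i) * (1 / 2 : ℝ) ^ j) atTop (𝓝 0) := by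
    simpa using (tendsto_pow_atTop_nhds_zero_of_lt_one (r := (1 / 2 : ℝ)) (by norm_num)
      (by norm_num)).const_mul (∏ i, C i)
  have h0 : (f 0).normDet = 0 :=
    le_antisymm (ge_of_tendsto' hlim hle) (LinearMap.normDet_nonneg _)
  apply LinearMap.normDet_eq_zero_iff_ker_ne_bot.mp h0
  have hz' : LinearIndependent ℝ fun i => u i 0 := by
    have := hz.map' (Back S q⁻¹).subtype (Submodule.ker_subtype _)
    have e1 : (fun i => u i 0) = ⇑(Back S q⁻¹).subtype ∘ z := by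
      ext i
      simp [hu0]
    rw [e1]
    exact this
  rw [LinearMap.ker_eq_bot']
  intro c hc
  have hsum : ∑ i, e.repr c i • u i 0 = 0 := by
    rw [← hc]
    conv_rhs => rw [← e.sum_repr c]
    simp only [map_sum, map_smul, hf]
  have := Fintype.linearIndependent_iff.mp hz' _ hsum
  have h3 : e.repr c = 0 := by ext i; exact this i
  simpa using h3

end Pool.Agent.BoltzC.Dich

end MrgPart0

-- ======== part 1: formerly Pool.Agent.BoltzD.Dich.Hilbert
section MrgPart1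

/-!
Exponential dichotomy in a Hilbert space for an operator that is a contraction up to finitely
many directions.
-/

namespace Pool.Agent.BoltzC.Dich

variable [Dim]

open Module Filter Topology
open scoped RealInnerProductSpace

/-- Forced orbit `x (j+1) = T (x j) + f j`. -/
def orb {X : Type*} [AddCommGroup X] [Module ℝ X] (T : X →ₗ[ℝ] X) (x : X) (f : ℕ → X) : ℕ → X
  | 0 => x
  | j + 1 => T (orb T x f j) + f j

section
variable {X : Type*} [AddCommGroup X] [Module ℝ X] (T : X →ₗ[ℝ] X)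

@[simp] theorem orb_zero (x : X) (f : ℕ → X) : orb T x f 0 = x := rfl
theorem orb_succ (x : X) (f : ℕ → X) (j : ℕ) : orb T x f (j + 1) = T (orb T x f j) + f j := rfl

theorem orb_add (x y : X) (f g : ℕ → X) (j : ℕ) :
    orb T (x + y) (f + g) j = orb T x f j + orb T y g j := by
  induction j with
  | zero => rfl
  | succ j ih => simp only [orb_succ, ih, map_add, Pi.add_apply]; abel

theorem orb_smul (c : ℝ) (x : X) (f : ℕ → X) (j : ℕ) :
    orb T (c • x) (c • f) j = c • orb T x f j := by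
  induction j with
  | zero => rfl
  | succ j ih => simp only [orb_succ, ih, map_smul, Pi.smul_apply, smul_add]

theorem orb_free (x : X) (j : ℕ) : orb T x 0 j = (T ^ j) x := by
  induction j with
  | zero => rfl
  | succ j ih => simp [orb_succ, ih, pow_succ']

theorem eq_orb (x f : ℕ → X) (h : ∀ j, x (j + 1) = T (x j) + f j) (j : ℕ) :
    x j = orb T (x 0) f j := by
  induction j with
  | zero => rfl
  | succ j ih => rw [h, ih, orb_succ]

end

/-- A recursion driven by a power-bounded operator. -/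
theorem stable_rec {X : Type*} [SeminormedAddCommGroup X] [NormedSpace ℝ X] (T : X →ₗ[ℝ] X)
    (C a b M : ℝ) (hC : 0 ≤ C) (ha : 0 ≤ a) (hab : a < b)
    (hT : ∀ n x, ‖(T ^ n) x‖ ≤ C * a ^ n * ‖x‖) (z h : ℕ → X)
    (hz : ∀ j, z (j + 1) = T (z j) + h j) (h0 : ‖z 0‖ ≤ M) (hh : ∀ j, ‖h j‖ ≤ M * b ^ j) (j : ℕ) :
    ‖z j‖ ≤ C * (1 + 1 / (b - a)) * M * b ^ j := by
  have hM : 0 ≤ M := (norm_nonneg _).trans h0
  have hba : 0 < b - a := by linarith
  have hb : 0 ≤ b := by linarith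
  have key : ∀ j n, ‖(T ^ n) (z j)‖ ≤ a ^ n * (C * M * a ^ j + C * M * b ^ j / (b - a)) := by
    intro j
    induction j with
    | zero =>
      intro n
      have h1 := hT n (z 0)
      have h2 : C * a ^ n * ‖z 0‖ ≤ C * a ^ n * M := by gcongr
      have h3 : 0 ≤ a ^ n * (C * M * b ^ 0 / (b - a)) := by positivity
      simp only [pow_zero, mul_one] at *
      nlinarith
    | succ j ih =>
      intro n
      have e : (T ^ n) (z (j + 1)) = (T ^ (n + 1)) (z j) + (T ^ n) (h j) := by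
        rw [hz, map_add, pow_succ]; rfl
      have h1 := ih (n + 1)
      have h2 := hT n (h j)
      have h3 : C * a ^ n * ‖h j‖ ≤ C * a ^ n * (M * b ^ j) := by gcongr; exact hh j
      have h4 := norm_add_le ((T ^ (n + 1)) (z j)) ((T ^ n) (h j))
      have h5 : a ^ (n + 1) * (C * M * a ^ j + C * M * b ^ j / (b - a)) + C * a ^ n * (M * b ^ j)
          = a ^ n * (C * M * a ^ (j + 1) + C * M * b ^ (j + 1) / (b - a)) := by
        field_simp; ring
      rw [e]; linarith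
  have h1 := key j 0
  simp only [pow_zero, one_mul, Module.End.one_apply] at h1
  have h2 : C * M * a ^ j ≤ C * M * b ^ j := by gcongr
  have h3 : C * (1 + 1 / (b - a)) * M * b ^ j = C * M * b ^ j + C * M * b ^ j / (b - a) := by
    field_simp
  linarith

variable {H : Type*} [NormedAddCommGroup H] [InnerProductSpace ℝ H]

theorem long_orbits (T : H →ₗ[ℝ] H) (q L : ℝ) (hq : 0 < q) (hL : ∀ x, ‖T x‖ ≤ L * ‖x‖)
    (hL0 : 0 ≤ L) (hun : ¬∃ M : ℝ, ∀ n x, ‖(T ^ n) x‖ ≤ M * q ^ n * ‖x‖) (n : ℕ) :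
    ∃ Y : ℕ → H, ‖Y 0‖ = 1 ∧ (∀ j ≤ n, ‖Y j‖ ≤ q⁻¹ ^ j) ∧ ∀ j < n, T (Y (j + 1)) = Y j := by
  have hpow : ∀ j x, ‖(T ^ j) x‖ ≤ L ^ j * ‖x‖ := by
    intro j
    induction j with
    | zero => intro x; simp
    | succ j ih =>
      intro x
      rw [pow_succ', Module.End.mul_apply]
      refine (hL _).trans ?_
      rw [pow_succ', mul_assoc]
      exact mul_le_mul_of_nonneg_left (ih x) hL0
  set M := ∑ j ∈ Finset.range n, (q⁻¹ * L) ^ j with hM
  have hM0 : 0 ≤ M := Finset.sum_nonneg fun j _ => by positivity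
  push Not at hun
  obtain ⟨N0, x, hx⟩ := hun M
  set g : ℕ → ℝ := fun j => q⁻¹ ^ j * ‖(T ^ j) x‖ with hg
  obtain ⟨N, hN, hmax⟩ := Finset.exists_max_image (Finset.range (N0 + 1)) g ⟨0, by simp⟩
  have hN0 : M * ‖x‖ < g N0 := by
    have h1 : q⁻¹ ^ N0 * (M * q ^ N0 * ‖x‖) < q⁻¹ ^ N0 * ‖(T ^ N0) x‖ :=
      mul_lt_mul_of_pos_left hx (by positivity)
    have h2 : q⁻¹ ^ N0 * q ^ N0 = 1 := by rw [← mul_pow, inv_mul_cancel₀ hq.ne', one_pow]
    have h3 : q⁻¹ ^ N0 * (M * q ^ N0 * ‖x‖) = M * ‖x‖ := by linear_combination M * ‖x‖ * h2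
    rwa [h3] at h1
  have hgN : M * ‖x‖ < g N := hN0.trans_le (hmax N0 (by simp))
  have hnN : n ≤ N := by
    by_contra hlt
    push Not at hlt
    have h1 : (q⁻¹ * L) ^ N ≤ M :=
      Finset.single_le_sum (f := fun j => (q⁻¹ * L) ^ j) (fun j _ => by positivity)
        (Finset.mem_range.mpr hlt)
    have h2 : g N ≤ (q⁻¹ * L) ^ N * ‖x‖ := by
      rw [mul_pow, mul_assoc]
      exact mul_le_mul_of_nonneg_left (hpow N x) (by positivity)
    have h3 : (q⁻¹ * L) ^ N * ‖x‖ ≤ M * ‖x‖ := by gcongr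
    linarith
  have hpos : 0 < ‖(T ^ N) x‖ := by
    have : 0 < g N := lt_of_le_of_lt (by positivity) hgN
    exact pos_of_mul_pos_right this (by positivity)
  refine ⟨fun j => ‖(T ^ N) x‖⁻¹ • (T ^ (N - j)) x, ?_, fun j hj => ?_, fun j hj => ?_⟩
  · simp [norm_smul, hpos.ne']
  · have hjN : j ≤ N := hj.trans hnN
    have h1 := hmax (N - j) (by simp at hN ⊢; omega)
    simp only [hg] at h1
    have h2 : q⁻¹ ^ N = q⁻¹ ^ (N - j) * q⁻¹ ^ j := by rw [← pow_add]; congr 1; omega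
    rw [h2, mul_assoc] at h1
    have h3 := le_of_mul_le_mul_left h1 (by positivity)
    rw [norm_smul, norm_inv, norm_norm, inv_mul_le_iff₀ hpos, mul_comm]
    exact h3
  · have : N - j = (N - (j + 1)) + 1 := by omega
    simp only [map_smul]
    rw [this, pow_succ', Module.End.mul_apply]

/-- If the powers are not `O(q ^ n)`, there is a nonzero decaying backward orbit. -/
theorem extract [CompleteSpace H] {κ : Type*} [Fintype κ] (T : H →L[ℝ] H) (r : κ → H) (q0 q : ℝ)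
    (hq0 : 0 ≤ q0) (hq : q0 < q)
    (hT : ∀ x, ‖T x‖ ^ 2 ≤ q0 ^ 2 * ‖x‖ ^ 2 + ∑ k, ⟪r k, x⟫ ^ 2)
    (hun : ¬∃ M : ℝ, ∀ n x, ‖((T : H →ₗ[ℝ] H) ^ n) x‖ ≤ M * q ^ n * ‖x‖) :
    ∃ y : ℕ → H, ‖y 0‖ = 1 ∧ (∀ j, ‖y j‖ ≤ q⁻¹ ^ j) ∧ ∀ j, T (y (j + 1)) = y j := by
  have hqpos : 0 < q := lt_of_le_of_lt hq0 hq
  choose Y hY0 hYb hYr using
    long_orbits (T : H →ₗ[ℝ] H) q ‖T‖ hqpos T.le_opNorm (norm_nonneg _) hun
  set 𝒰 := hyperfilter ℕ with h𝒰
  have hev : ∀ j : ℕ, ∀ᶠ n in (𝒰 : Filter ℕ), j ≤ n := fun j =>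
    (Nat.hyperfilter_le_atTop) (eventually_ge_atTop j)
  have hscal : ∀ j k, ∃ c : ℝ, Tendsto (fun n => ⟪r k, Y n j⟫) 𝒰 (𝓝 c) := by
    intro j k
    have hb : ∀ᶠ n in (𝒰 : Filter ℕ),
        ⟪r k, Y n j⟫ ∈ Metric.closedBall (0 : ℝ) (‖r k‖ * q⁻¹ ^ j) := by
      filter_upwards [hev j] with n hn
      rw [mem_closedBall_zero_iff, Real.norm_eq_abs]
      exact (abs_real_inner_le_norm _ _).trans (by gcongr; exact hYb n j hn)
    obtain ⟨c, -, hc⟩ := (isCompact_closedBall (0 : ℝ) (‖r k‖ * q⁻¹ ^ j)).ultrafilter_le_nhds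
      (𝒰.map fun n => ⟪r k, Y n j⟫) (by
        rw [le_principal_iff]; exact hb)
    exact ⟨c, hc⟩
  set F := (𝒰 : Filter ℕ) ×ˢ (𝒰 : Filter ℕ) with hF
  have he : ∀ j, Tendsto (fun p : ℕ × ℕ => ∑ k, ⟪r k, Y p.1 j - Y p.2 j⟫ ^ 2) F (𝓝 0) := by
    intro j
    have : Tendsto (fun p : ℕ × ℕ => ∑ k, ⟪r k, Y p.1 j - Y p.2 j⟫ ^ 2) F
        (𝓝 (∑ _k : κ, (0 : ℝ))) := by
      refine tendsto_finsetSum _ fun k _ => ?_
      obtain ⟨c, hc⟩ := hscal j k
      have h1 := ((hc.comp (tendsto_fst (g := (𝒰 : Filter ℕ)))).sub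
        (hc.comp (tendsto_snd (f := (𝒰 : Filter ℕ))))).pow 2
      simpa [inner_sub_right] using h1
    simpa using this
  have hevF : ∀ j : ℕ, ∀ᶠ p in F, j ≤ p.1 ∧ j ≤ p.2 := fun j =>
    ((hev j).prod_inl _).and ((hev j).prod_inr _)
  have hind : ∀ J j : ℕ, ∀ ε > 0, ∀ᶠ p in F,
      ‖Y p.1 j - Y p.2 j‖ ^ 2 ≤ (q0 ^ 2) ^ J * (2 * q⁻¹ ^ (j + J)) ^ 2 + ε := by
    intro J
    induction J with
    | zero =>
      intro j ε hε
      filter_upwards [hevF j] with p hp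
      have h1 := norm_sub_le (Y p.1 j) (Y p.2 j)
      have h2 := hYb p.1 j hp.1
      have h3 := hYb p.2 j hp.2
      have h4 : ‖Y p.1 j - Y p.2 j‖ ^ 2 ≤ (2 * q⁻¹ ^ j) ^ 2 := by
        gcongr; linarith
      simp only [pow_zero, one_mul, add_zero]
      linarith
    | succ J ih =>
      intro j ε hε
      have hε' : 0 < ε / (2 * (q0 ^ 2 + 1)) := by positivity
      filter_upwards [hevF (j + 1), ih (j + 1) _ hε',
        (he (j + 1)).eventually (ge_mem_nhds (half_pos hε))] with p hp h1 h2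
      have h3 := hT (Y p.1 (j + 1) - Y p.2 (j + 1))
      have e1 : T (Y p.1 (j + 1)) = Y p.1 j := hYr p.1 j hp.1
      have e2 : T (Y p.2 (j + 1)) = Y p.2 j := hYr p.2 j hp.2
      rw [map_sub, e1, e2] at h3
      have h4 := mul_le_mul_of_nonneg_left h1 (sq_nonneg q0)
      have h5 : q0 ^ 2 * (ε / (2 * (q0 ^ 2 + 1))) ≤ ε / 2 := by
        rw [← mul_div_assoc, div_le_div_iff₀ (by positivity) (by norm_num)]
        nlinarith [sq_nonneg q0]
      have h6 : j + 1 + J = j + (J + 1) := by ring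
      rw [h6] at h4
      have h7 : (q0 ^ 2) ^ (J + 1) = q0 ^ 2 * (q0 ^ 2) ^ J := pow_succ' _ _
      rw [h7]
      nlinarith
  have hcau : ∀ j, ∃ y : H, Tendsto (fun n => Y n j) 𝒰 (𝓝 y) := by
    intro j
    refine CompleteSpace.complete (f := map (fun n => Y n j) 𝒰) ?_
    rw [cauchy_map_iff']
    refine Metric.uniformity_basis_dist.tendsto_right_iff.mpr fun ε hε => ?_
    have hlt : (q0 * q⁻¹) ^ 2 < 1 := by
      have : q0 * q⁻¹ < 1 := by rw [← div_eq_mul_inv, div_lt_one hqpos]; exact hq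
      have h0 : 0 ≤ q0 * q⁻¹ := by positivity
      nlinarith
    have hlim : Tendsto (fun J : ℕ => (2 * q⁻¹ ^ j) ^ 2 * ((q0 * q⁻¹) ^ 2) ^ J) atTop (𝓝 0) := by
      simpa using (tendsto_pow_atTop_nhds_zero_of_lt_one (sq_nonneg _) hlt).const_mul
        ((2 * q⁻¹ ^ j) ^ 2)
    have hε2 : 0 < ε ^ 2 / 3 := by positivity
    obtain ⟨J, hJ⟩ := (hlim.eventually (ge_mem_nhds hε2)).exists
    filter_upwards [hind J j _ hε2] with p hp
    have e : (q0 ^ 2) ^ J * (2 * q⁻¹ ^ (j + J)) ^ 2 = (2 * q⁻¹ ^ j) ^ 2 * ((q0 * q⁻¹) ^ 2) ^ J := by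
      rw [pow_add]; ring
    rw [e] at hp
    show dist (Y p.1 j) (Y p.2 j) < ε
    rw [dist_eq_norm]
    apply lt_of_pow_lt_pow_left₀ 2 hε.le
    nlinarith [sq_pos_of_pos hε]
  choose y hy using hcau
  refine ⟨y, ?_, fun j => ?_, fun j => ?_⟩
  · have h1 := (hy 0).norm
    simp only [hY0] at h1
    exact (tendsto_nhds_unique tendsto_const_nhds h1).symm
  · exact le_of_tendsto (hy j).norm (by filter_upwards [hev j] with n hn using hYb n j hn)
  · have h1 := (T.continuous.tendsto _).comp (hy (j + 1))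
    refine tendsto_nhds_unique h1 ((hy j).congr' ?_)
    filter_upwards [hev (j + 1)] with n hn
    exact (hYr n j hn).symm

/-- Sequences of size `O(q ^ j)`. -/
def Dec (X : Type*) [SeminormedAddCommGroup X] [NormedSpace ℝ X] (q : ℝ) :
    Submodule ℝ (ℕ → X) where
  carrier := {f | ∃ M : ℝ, ∀ j, ‖f j‖ ≤ M * q ^ j}
  add_mem' := by
    rintro f g ⟨C, hC⟩ ⟨D, hD⟩
    refine ⟨C + D, fun j => ?_⟩
    have := norm_add_le (f j) (g j)
    have := hC j
    have := hD j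
    simp only [Pi.add_apply]
    linarith
  zero_mem' := ⟨0, by simp⟩
  smul_mem' := by
    rintro c f ⟨C, hC⟩
    refine ⟨|c| * C, fun j => ?_⟩
    simp only [Pi.smul_apply, norm_smul, Real.norm_eq_abs, mul_assoc]
    exact mul_le_mul_of_nonneg_left (hC j) (abs_nonneg c)

/-- Solving backward along an expanding direction. -/
theorem unstable_rec {X : Type*} [NormedAddCommGroup X] [NormedSpace ℝ X] [CompleteSpace X]
    (T : X →L[ℝ] X) (R : X →ₗ[ℝ] X) (hTR : ∀ x, T (R x) = x) (C b q M : ℝ) (hC : 0 ≤ C)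
    (hb : 0 ≤ b) (hq : 0 ≤ q) (hbq : b * q < 1) (hR : ∀ n x, ‖(R ^ n) x‖ ≤ C * b ^ n * ‖x‖)
    (g : ℕ → X) (hg : ∀ j, ‖g j‖ ≤ M * q ^ j) :
    ∃ z : ℕ → X, (∀ j, z (j + 1) = T (z j) + g j) ∧
      ∀ j, ‖z j‖ ≤ C * b * (1 - b * q)⁻¹ * M * q ^ j := by
  have hbound : ∀ j i, ‖(R ^ (i + 1)) (g (j + i))‖ ≤ C * b * M * q ^ j * (b * q) ^ i := by
    intro j i
    refine (hR _ _).trans ((mul_le_mul_of_nonneg_left (hg _) (by positivity)).trans (le_of_eq ?_))
    rw [pow_add, pow_add, mul_pow]; ring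
  have hgeo : ∀ j, HasSum (fun i => C * b * M * q ^ j * (b * q) ^ i)
      (C * b * M * q ^ j * (1 - b * q)⁻¹) := fun j =>
    (hasSum_geometric_of_lt_one (by positivity) hbq).mul_left _
  have hsum : ∀ j, Summable fun i => (R ^ (i + 1)) (g (j + i)) := fun j =>
    Summable.of_norm_bounded (hgeo j).summable (hbound j)
  refine ⟨fun j => -∑' i, (R ^ (i + 1)) (g (j + i)), fun j => ?_, fun j => ?_⟩
  · have h1 : T (∑' i, (R ^ (i + 1)) (g (j + i))) = ∑' i, (R ^ i) (g (j + i)) := by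
      rw [T.map_tsum (hsum j)]
      congr 1
      ext i
      rw [pow_succ', Module.End.mul_apply, hTR]
    have h2 : Summable fun i => (R ^ i) (g (j + i)) := by
      rw [← summable_nat_add_iff 1]
      refine (hsum (j + 1)).congr fun i => ?_
      congr 2; ring
    have h3 : ∑' i, (R ^ i) (g (j + i)) = g j + ∑' i, (R ^ (i + 1)) (g (j + 1 + i)) := by
      rw [h2.tsum_eq_zero_add]
      congr 1
      congr 1
      ext i
      congr 2; ring
    simp only [map_neg, h1, h3]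
    abel
  · rw [norm_neg]
    refine (tsum_of_norm_bounded (hgeo j) (hbound j)).trans (le_of_eq ?_)
    ring

/-- Dichotomy in a Hilbert space. -/
theorem hilbert_dich [CompleteSpace H] {κ : Type*} [Fintype κ] (S : H →L[ℝ] H) (r : κ → H)
    (q0 q1 : ℝ) (hq0 : 0 ≤ q0) (hq : q0 < q1)
    (hS : ∀ x, ‖S x‖ ^ 2 ≤ q0 ^ 2 * ‖x‖ ^ 2 + ∑ k, ⟪r k, x⟫ ^ 2) :
    ∃ q2, q1 < q2 ∧ ∃ U : Submodule ℝ H, FiniteDimensional ℝ U ∧ ∀ q, q1 < q → q < q2 →
      (∀ u ∈ U, (fun j => ((S : H →ₗ[ℝ] H) ^ j) u) ∈ Dec H q → u = 0) ∧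
      ∃ C : ℝ, 0 ≤ C ∧ ∀ (x : H) (f : ℕ → H) (M : ℝ), ‖x‖ ≤ M → (∀ j, ‖f j‖ ≤ M * q ^ j) →
        ∃ u ∈ U, ∀ j, ‖orb (S : H →ₗ[ℝ] H) (x + u) f j‖ ≤ C * M * q ^ j := by
  set Sl := (S : H →ₗ[ℝ] H) with hSl
  have hq1 : 0 < q1 := lt_of_le_of_lt hq0 hq
  have hfin1 : FiniteDimensional ℝ (Back Sl q1⁻¹) := Back_finite Sl r q0 q1 hq0 hq hS
  have hle : ∀ {a b : ℝ}, 0 < a → a ≤ b → Back Sl b⁻¹ ≤ Back Sl a⁻¹ := fun {a b} ha hab =>
    Back_mono Sl (inv_nonneg.mpr (ha.le.trans hab)) (inv_anti₀ ha hab)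
  -- choose `q2` of maximal dimension
  obtain ⟨q2, hq2, hmax⟩ : ∃ q2, q1 < q2 ∧ ∀ q, q1 < q →
      finrank ℝ (Back Sl q⁻¹) ≤ finrank ℝ (Back Sl q2⁻¹) := by
    have hbdd : BddAbove ((fun q => finrank ℝ (Back Sl q⁻¹)) '' Set.Ioi q1) := by
      refine ⟨finrank ℝ (Back Sl q1⁻¹), ?_⟩
      rintro _ ⟨q, hq', rfl⟩
      exact Submodule.finrank_mono (hle hq1 (le_of_lt hq'))
    have hne : ((fun q => finrank ℝ (Back Sl q⁻¹)) '' Set.Ioi q1).Nonempty :=
      ⟨_, q1 + 1, by simp, rfl⟩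
    obtain ⟨q2, h2, h3⟩ := Nat.sSup_mem hne hbdd
    exact ⟨q2, h2, fun q hq' => (le_csSup hbdd ⟨q, hq', rfl⟩).trans h3.ge⟩
  have hq2pos : 0 < q2 := hq1.trans hq2
  set U := Back Sl q2⁻¹ with hU
  have hfinU : FiniteDimensional ℝ U := Submodule.finiteDimensional_of_le (hle hq1 hq2.le)
  have heq : ∀ a, q1 < a → a ≤ q2 → Back Sl a⁻¹ = U := by
    intro a ha ha2
    have : FiniteDimensional ℝ (Back Sl a⁻¹) := Submodule.finiteDimensional_of_le (hle hq1 ha.le)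
    exact (Submodule.eq_of_le_of_finrank_le (hle (hq1.trans ha) ha2) (hmax a ha)).symm
  -- invariance
  have hinv : ∀ u ∈ U, Sl u ∈ U := by
    rintro _ ⟨u, rfl, hu, C, hC⟩
    refine ⟨fun j => Nat.casesOn j (Sl (u 0)) u, rfl, fun j => ?_,
      max (‖Sl (u 0)‖) (C * q2), fun j => ?_⟩
    · cases j with
      | zero => rfl
      | succ j => exact hu j
    · cases j with
      | zero => simp
      | succ j =>
        show ‖u j‖ ≤ _
        refine (hC j).trans ?_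
        have : C * q2⁻¹ ^ j = C * q2 * q2⁻¹ ^ (j + 1) := by
          rw [pow_succ]; field_simp
        rw [this]
        exact mul_le_mul_of_nonneg_right (le_max_right _ _) (by positivity)
  have hshift : ∀ (u : ℕ → H) (C : ℝ), (∀ j, Sl (u (j + 1)) = u j) →
      (∀ j, ‖u j‖ ≤ C * q2⁻¹ ^ j) → ∀ i, u i ∈ U := by
    intro u C hu hC i
    refine ⟨fun j => u (i + j), rfl, fun j => hu (i + j), C * q2⁻¹ ^ i, fun j => ?_⟩
    rw [mul_assoc, ← pow_add]
    exact hC _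
  let SU : U →ₗ[ℝ] U := Sl.restrict hinv
  have hsurj : Function.Surjective SU := by
    rintro ⟨_, u, rfl, hu, C, hC⟩
    exact ⟨⟨u 1, hshift u C hu hC 1⟩, Subtype.ext (hu 0)⟩
  have hinj : Function.Injective SU := LinearMap.injective_iff_surjective.mpr hsurj
  let eU : U ≃ₗ[ℝ] U := LinearEquiv.ofBijective SU ⟨hinj, hsurj⟩
  let R : U →ₗ[ℝ] U := eU.symm
  have hSR : ∀ z, SU (R z) = z := fun z => eU.apply_symm_apply z
  have hRS : ∀ z, R (SU z) = z := fun z => eU.symm_apply_apply z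
  have hRpt : ∀ z : U, ∃ C : ℝ, ∀ n, ‖(R ^ n) z‖ ≤ C * q2⁻¹ ^ n := by
    rintro ⟨_, u, rfl, hu, C, hC⟩
    refine ⟨C, fun n => ?_⟩
    have : ∀ n, ∀ h0, (R ^ n) ⟨u 0, h0⟩ = ⟨u n, hshift u C hu hC n⟩ := by
      intro n h0
      induction n with
      | zero => rfl
      | succ n ih =>
        rw [pow_succ', Module.End.mul_apply, ih]
        apply hinj
        rw [hSR]
        exact Subtype.ext (hu n).symm
    rw [this]
    exact hC n
  have hcomplU : CompleteSpace U := FiniteDimensional.complete ℝ U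
  obtain ⟨CR, hCR0, hCR⟩ : ∃ C : ℝ, 0 ≤ C ∧ ∀ n z, ‖(R ^ n) z‖ ≤ C * q2⁻¹ ^ n * ‖z‖ := by
    obtain ⟨C, hC⟩ := banach_steinhaus (𝕜 := ℝ) (𝕜₂ := ℝ) (σ₁₂ := RingHom.id ℝ)
      (g := fun n : ℕ => LinearMap.toContinuousLinearMap (q2 ^ n • R ^ n)) (fun z => by
        obtain ⟨C, hC⟩ := hRpt z
        refine ⟨C, fun n => ?_⟩
        have h1 : q2 ^ n * q2⁻¹ ^ n = 1 := by rw [← mul_pow, mul_inv_cancel₀ hq2pos.ne', one_pow]
        have h2 := mul_le_mul_of_nonneg_left (hC n) (pow_nonneg hq2pos.le n)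
        simp only [LinearMap.coe_toContinuousLinearMap', LinearMap.smul_apply, norm_smul,
          Real.norm_eq_abs, abs_of_pos (pow_pos hq2pos n)]
        calc q2 ^ n * ‖(R ^ n) z‖ ≤ q2 ^ n * (C * q2⁻¹ ^ n) := h2
          _ = C := by linear_combination C * h1)
    refine ⟨C, (norm_nonneg _).trans (hC 0), fun n z => ?_⟩
    have h1 : q2⁻¹ ^ n * q2 ^ n = 1 := by rw [← mul_pow, inv_mul_cancel₀ hq2pos.ne', one_pow]
    have h2 := (LinearMap.toContinuousLinearMap (q2 ^ n • R ^ n)).le_of_opNorm_le (hC n) z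
    simp only [LinearMap.coe_toContinuousLinearMap', LinearMap.smul_apply, norm_smul,
      Real.norm_eq_abs, abs_of_pos (pow_pos hq2pos n)] at h2
    have h3 := mul_le_mul_of_nonneg_left h2 (pow_nonneg (inv_nonneg.mpr hq2pos.le) n)
    calc ‖(R ^ n) z‖ = q2⁻¹ ^ n * (q2 ^ n * ‖(R ^ n) z‖) := by
          linear_combination (-‖(R ^ n) z‖) * h1
      _ ≤ _ := h3
      _ = _ := by ring
  -- the projected operator
  let Q : H →L[ℝ] U := U.orthogonalProjectionOnto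
  let P : H →L[ℝ] H := Uᗮ.starProjection
  have hPQ : ∀ x, P x + (Q x : H) = x := fun x => by
    have := U.starProjection_add_starProjection_orthogonal x
    rw [add_comm]
    exact this
  have hPle : ∀ x, ‖P x‖ ≤ ‖x‖ := fun x => Uᗮ.norm_starProjection_apply_le x
  have hQle : ∀ x, ‖Q x‖ ≤ ‖x‖ := fun x => U.norm_orthogonalProjectionOnto_apply_le x
  have hPmem : ∀ x, P x ∈ Uᗮ := fun x => Uᗮ.starProjection_apply_mem x
  let T : H →L[ℝ] H := P.comp S
  have hT : ∀ x, ‖T x‖ ^ 2 ≤ q0 ^ 2 * ‖x‖ ^ 2 + ∑ k, ⟪r k, x⟫ ^ 2 := fun x =>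
    (pow_le_pow_left₀ (norm_nonneg _) (hPle (S x)) 2).trans (hS x)
  have hTbound : ∀ a, q1 < a → a < q2 →
      ∃ M : ℝ, ∀ n x, ‖((T : H →ₗ[ℝ] H) ^ n) x‖ ≤ M * a ^ n * ‖x‖ := by
    intro a ha ha2
    have hapos : 0 < a := hq1.trans ha
    by_contra hun
    obtain ⟨y, hy0, hyb, hyr⟩ := extract T r q0 a hq0 (hq.trans ha) hT hun
    let g : ℕ → U := fun j => Q (S (y (j + 1)))
    have hg : ∀ j, S (y (j + 1)) = y j + g j := fun j => by
      rw [← hyr j]; exact (hPQ _).symm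
    let h : ℕ → U := fun j => -R (g j)
    have hh : ∀ j, ‖h j‖ ≤ (CR * q2⁻¹ * (‖S‖ * a⁻¹)) * a⁻¹ ^ j := by
      intro j
      have h1 := hCR 1 (g j)
      rw [pow_one, pow_one] at h1
      have h2 : ‖g j‖ ≤ ‖S‖ * a⁻¹ ^ (j + 1) :=
        (hQle _).trans ((S.le_opNorm _).trans (by gcongr; exact hyb _))
      have h3 : ‖h j‖ = ‖R (g j)‖ := norm_neg _
      rw [h3]
      refine h1.trans ((mul_le_mul_of_nonneg_left h2 (by positivity)).trans (le_of_eq ?_))
      ring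
    have hz := stable_rec R CR q2⁻¹ a⁻¹ _ hCR0 (by positivity) (inv_strictAnti₀ hapos ha2) hCR
      (orb R 0 h) h (orb_succ R 0 h) (by simp; positivity) hh
    have hmem : y 0 ∈ Back Sl a⁻¹ := by
      refine ⟨fun j => y j + (orb R 0 h j : U), by simp, fun j => ?_,
        1 + CR * (1 + 1 / (a⁻¹ - q2⁻¹)) * (CR * q2⁻¹ * (‖S‖ * a⁻¹)), fun j => ?_⟩
      · have h1 : SU (orb R 0 h (j + 1)) = orb R 0 h j - g j := by
          rw [orb_succ, map_add, hSR]
          simp only [h, map_neg, hSR]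
          abel
        have h2 : Sl (orb R 0 h (j + 1) : U) = (orb R 0 h j : U) - (g j : H) :=
          congrArg Subtype.val h1
        have h3 : Sl (y (j + 1)) = y j + g j := hg j
        simp only [map_add, h2, h3]
        abel
      · have h1 := norm_add_le (y j) (orb R 0 h j : U)
        have h2 := hyb j
        have h3 : ‖((orb R 0 h j : U) : H)‖ ≤ _ := hz j
        simp only
        linarith
    rw [heq a ha ha2.le] at hmem
    have hperp : y 0 ∈ Uᗮ := by rw [← hyr 0]; exact hPmem _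
    have : y 0 = 0 := by
      have := (Submodule.mem_orthogonal U (y 0)).mp hperp (y 0) hmem
      exact inner_self_eq_zero.mp this
    rw [this, norm_zero] at hy0
    exact zero_ne_one hy0
  refine ⟨q2, hq2, U, hfinU, fun q hq1q hqq2 => ⟨?_, ?_⟩⟩
  · rintro u hu ⟨M, hM⟩
    have hqpos : 0 < q := hq1.trans hq1q
    have h1 : ∀ n, (R ^ n) ((SU ^ n) ⟨u, hu⟩) = ⟨u, hu⟩ := by
      intro n
      induction n with
      | zero => rfl
      | succ n ih => rw [pow_succ, pow_succ', Module.End.mul_apply, Module.End.mul_apply, hRS, ih]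
    have h2 : ∀ n, (((SU ^ n) ⟨u, hu⟩ : U) : H) = (Sl ^ n) u := by
      intro n
      induction n with
      | zero => rfl
      | succ n ih =>
        rw [pow_succ', pow_succ', Module.End.mul_apply, Module.End.mul_apply, ← ih]; rfl
    have h3 : ∀ n, ‖u‖ ≤ CR * M * (q2⁻¹ * q) ^ n := by
      intro n
      have h4 := hCR n ((SU ^ n) ⟨u, hu⟩)
      rw [h1] at h4
      have h5 : ‖(SU ^ n) ⟨u, hu⟩‖ ≤ M * q ^ n := by
        have := hM n
        simp only at this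
        rw [← h2] at this
        exact this
      calc ‖u‖ ≤ CR * q2⁻¹ ^ n * ‖(SU ^ n) ⟨u, hu⟩‖ := h4
        _ ≤ CR * q2⁻¹ ^ n * (M * q ^ n) := by gcongr
        _ = _ := by rw [mul_pow]; ring
    have hlt : q2⁻¹ * q < 1 := by rw [inv_mul_lt_iff₀ hq2pos, mul_one]; exact hqq2
    have hlim : Tendsto (fun n : ℕ => CR * M * (q2⁻¹ * q) ^ n) atTop (𝓝 0) := by
      simpa using (tendsto_pow_atTop_nhds_zero_of_lt_one (by positivity) hlt).const_mul (CR * M)
    exact norm_le_zero_iff.mp (ge_of_tendsto' hlim h3)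
  · have hqpos : 0 < q := hq1.trans hq1q
    set a := (q1 + q) / 2 with ha
    have ha1 : q1 < a := by rw [ha]; linarith
    have ha2 : a < q := by rw [ha]; linarith
    obtain ⟨M0, hM0⟩ := hTbound a ha1 (ha2.trans hqq2)
    set CT := max M0 0 with hCT
    have hCT0 : 0 ≤ CT := le_max_right _ _
    have hapos : 0 < a := hq1.trans ha1
    have hTb : ∀ n x, ‖((T : H →ₗ[ℝ] H) ^ n) x‖ ≤ CT * a ^ n * ‖x‖ := fun n x =>
      (hM0 n x).trans (by gcongr; exact le_max_left _ _)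
    set C1 := CT * (1 + 1 / (q - a)) with hC1
    have hC10 : 0 ≤ C1 := by
      have : 0 < q - a := by linarith
      positivity
    have hlt : q2⁻¹ * q < 1 := by rw [inv_mul_lt_iff₀ hq2pos, mul_one]; exact hqq2
    have hlt' : 0 < 1 - q2⁻¹ * q := by linarith
    refine ⟨C1 + CR * q2⁻¹ * (1 - q2⁻¹ * q)⁻¹ * (‖S‖ * C1 + 1), by positivity,
      fun x f M hx hf => ?_⟩
    have hM : 0 ≤ M := (norm_nonneg _).trans hx
    let p : ℕ → H := orb (T : H →ₗ[ℝ] H) x fun j => P (f j)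
    have hp : ∀ j, ‖p j‖ ≤ C1 * M * q ^ j :=
      stable_rec (T : H →ₗ[ℝ] H) CT a q M hCT0 hapos.le ha2 hTb p (fun j => P (f j))
        (orb_succ _ _ _) hx fun j => (hPle _).trans (hf j)
    let g : ℕ → U := fun j => Q (S (p j) + f j)
    have hg : ∀ j, ‖g j‖ ≤ ((‖S‖ * C1 + 1) * M) * q ^ j := by
      intro j
      have h1 := hQle (S (p j) + f j)
      have h2 := norm_add_le (S (p j)) (f j)
      have h3 : ‖S (p j)‖ ≤ ‖S‖ * (C1 * M * q ^ j) := (S.le_opNorm _).trans (by gcongr; exact hp j)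
      have h4 := hf j
      have h5 : ‖g j‖ = ‖Q (S (p j) + f j)‖ := rfl
      nlinarith
    obtain ⟨z, hz, hzb⟩ := unstable_rec (LinearMap.toContinuousLinearMap SU) R hSR CR q2⁻¹ q _
      hCR0 (by positivity) hqpos.le hlt hCR g hg
    refine ⟨z 0, (z 0).2, fun j => ?_⟩
    have hx' : ∀ j, p (j + 1) + (z (j + 1) : H) = Sl (p j + (z j : H)) + f j := by
      intro j
      have h1 : p (j + 1) = P (S (p j) + f j) := by rw [map_add]; rfl
      have h2 : (z (j + 1) : H) = Sl (z j : H) + g j := congrArg Subtype.val (hz j)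
      have h3 := hPQ (S (p j) + f j)
      have h4 : Sl (p j) = S (p j) := rfl
      rw [h1, h2, map_add Sl, h4]
      have h5 : (g j : H) = Q (S (p j) + f j) := rfl
      rw [h5]
      calc P (S (p j) + f j) + (Sl (z j : H) + (Q (S (p j) + f j) : H))
          = (P (S (p j) + f j) + (Q (S (p j) + f j) : H)) + Sl (z j : H) := by abel
        _ = _ := by rw [h3]; abel
    have h6 := eq_orb Sl (fun j => p j + (z j : H)) f hx' j
    have h7 : p 0 = x := rfl
    simp only [h7] at h6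
    rw [← h6]
    have h8 := norm_add_le (p j) (z j : H)
    have h9 : ‖(z j : H)‖ ≤ _ := hzb j
    have h10 := hp j
    nlinarith

end Pool.Agent.BoltzC.Dich

end MrgPart1

-- ======== part 2: formerly Pool.Agent.BoltzD.KK.Scale
section MrgPart2

-- ======== part 0: formerly Pool.Agent.BoltzD.Dich.Abstract
section MrgPart0

/-!
The dichotomy for a real vector space with a positive semidefinite symmetric form.
-/

namespace Pool.Agent.BoltzC.Dich

variable [Dim]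

open Module Filter Topology
open scoped RealInnerProductSpace

theorem dense_dich {H : Type*} [NormedAddCommGroup H] [InnerProductSpace ℝ H] [CompleteSpace H]
    {D : Type*} [AddCommGroup D] [Module ℝ D] (ι : D →ₗ[ℝ] H) (hι : DenseRange ι)
    {κ : Type*} [Fintype κ] (S : H →L[ℝ] H) (SD : D →ₗ[ℝ] D) (hSD : ∀ x, ι (SD x) = S (ι x))
    (r : κ → H) (q0 q1 : ℝ) (hq0 : 0 ≤ q0) (hq : q0 < q1)
    (hS : ∀ x, ‖S x‖ ^ 2 ≤ q0 ^ 2 * ‖x‖ ^ 2 + ∑ k, ⟪r k, x⟫ ^ 2) :
    ∃ q2, q1 < q2 ∧ ∀ q, q1 < q → q < q2 →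
      ∃ (n : ℕ) (ψ : Fin n → D) (a : (ℕ → D) →ₗ[ℝ] (Fin n → ℝ)) (C : ℝ), 0 ≤ C ∧
        ∀ (f : ℕ → D) (M : ℝ), (∀ j, ‖ι (f j)‖ ≤ M * q ^ j) →
          (∀ i, |a f i| ≤ C * M) ∧
          ∀ j, ‖ι (orb SD (∑ i, a f i • ψ i) f j)‖ ≤ C * M * q ^ j := by
  obtain ⟨q2, hq2, U, hfin, hU⟩ := hilbert_dich S r q0 q1 hq0 hq hS
  refine ⟨q2, hq2, fun q h1 h2 => ?_⟩
  obtain ⟨huniq, C, hC0, hex⟩ := hU q h1 h2
  set Sl := (S : H →ₗ[ℝ] H) with hSl
  have hqpos : 0 < q := (lt_of_le_of_lt hq0 hq).trans h1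
  -- uniqueness for forced orbits
  have huniq2 : ∀ (x : H) (f : ℕ → H) (u v : U), orb Sl (x + u) f ∈ Dec H q →
      orb Sl (x + v) f ∈ Dec H q → u = v := by
    intro x f u v hu hv
    have h3 : (fun j => (Sl ^ j) ((u : H) - v)) = orb Sl (x + u) f - orb Sl (x + v) f := by
      ext j
      have h4 := orb_add Sl (x + v) ((u : H) - v) f 0 j
      rw [orb_free, add_zero] at h4
      have h5 : x + (v : H) + ((u : H) - v) = x + u := by abel
      rw [h5] at h4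
      simp [h4]
    have h6 := huniq ((u : H) - v) (U.sub_mem u.2 v.2) (h3 ▸ (Dec H q).sub_mem hu hv)
    exact Subtype.ext (sub_eq_zero.mp h6)
  have hex2 : ∀ p : H × Dec H q, ∃ u : U, orb Sl (p.1 + u) p.2 ∈ Dec H q := by
    rintro ⟨x, f, M, hM⟩
    obtain ⟨u, hu, hb⟩ := hex x f (max M ‖x‖) (le_max_right _ _) fun j =>
      (hM j).trans (by gcongr; exact le_max_left _ _)
    exact ⟨⟨u, hu⟩, _, hb⟩
  choose Z0 hZ0 using hex2
  let Z : (H × Dec H q) →ₗ[ℝ] U :=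
    { toFun := Z0
      map_add' := fun p p' => by
        refine huniq2 (p + p').1 (p + p').2 _ _ (hZ0 _) ?_
        have h3 := (Dec H q).add_mem (hZ0 p) (hZ0 p')
        convert h3 using 1
        ext j
        rw [Pi.add_apply, ← orb_add]
        congr 1
        simp only [Prod.fst_add, Submodule.coe_add]
        abel
      map_smul' := fun c p => by
        refine huniq2 (c • p).1 (c • p).2 _ _ (hZ0 _) ?_
        have h3 := (Dec H q).smul_mem c (hZ0 p)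
        convert h3 using 1
        ext j
        rw [Pi.smul_apply, ← orb_smul]
        congr 1
        simp [smul_add] }
  have hZ : ∀ (x : H) (f : Dec H q) (M : ℝ), ‖x‖ ≤ M → (∀ j, ‖(f : ℕ → H) j‖ ≤ M * q ^ j) →
      ∀ j, ‖orb Sl (x + Z (x, f)) f j‖ ≤ C * M * q ^ j := by
    intro x f M hx hf
    obtain ⟨u, hu, hb⟩ := hex x f M hx hf
    have : Z (x, f) = ⟨u, hu⟩ := huniq2 x f _ _ (hZ0 (x, f)) ⟨_, hb⟩
    rw [this]
    exact hb
  -- the projection onto `U`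
  let Pr : H →ₗ[ℝ] U := -(Z ∘ₗ LinearMap.inl ℝ H (Dec H q))
  have hPr : ∀ x, Pr x = -Z (x, 0) := fun x => rfl
  have hPrU : ∀ u : U, Pr u = u := by
    intro u
    have : Z ((u : H), 0) = -u := by
      refine huniq2 u 0 _ _ (hZ0 ((u : H), 0)) ⟨0, fun j => ?_⟩
      simp [orb_free]
    rw [hPr, this, neg_neg]
  have hPrb : ∀ x, ‖Pr x‖ ≤ (C + 1) * ‖x‖ := by
    intro x
    have h3 := hZ x 0 ‖x‖ le_rfl (fun j => by simp; positivity) 0
    simp only [orb_zero, pow_zero, mul_one] at h3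
    have h4 : ‖Pr x‖ = ‖x - (x + (Z (x, 0) : H))‖ := by
      rw [hPr, norm_neg]; simp
    have h5 := norm_sub_le x (x + (Z (x, 0) : H))
    linarith
  have hPrc : Continuous Pr := AddMonoidHomClass.continuous_of_bound Pr _ hPrb
  have hsurj : LinearMap.range (Pr ∘ₗ ι) = ⊤ := by
    have hcl : IsClosed (LinearMap.range (Pr ∘ₗ ι) : Set U) :=
      Submodule.closed_of_finiteDimensional _
    rw [eq_top_iff]
    intro u _
    have h3 : ∀ x : H, Pr x ∈ (LinearMap.range (Pr ∘ₗ ι) : Set U) := fun x =>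
      hι.induction_on (p := fun x => Pr x ∈ (LinearMap.range (Pr ∘ₗ ι) : Set U)) x
        (hcl.preimage hPrc) fun d => ⟨d, rfl⟩
    have := h3 u
    rwa [hPrU] at this
  obtain ⟨σ, hσ⟩ := LinearMap.exists_rightInverse_of_surjective (Pr ∘ₗ ι) hsurj
  have hσ' : ∀ u, Pr (ι (σ u)) = u := fun u => LinearMap.congr_fun hσ u
  let b := Module.finBasis ℝ U
  let ιs : (ℕ → D) →ₗ[ℝ] (ℕ → H) := ι.compLeft ℕ
  let DD : Submodule ℝ (ℕ → D) := (Dec H q).comap ιs
  let toDec : DD →ₗ[ℝ] Dec H q := ιs.restrict fun _ h => h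
  let z : DD →ₗ[ℝ] U := Z ∘ₗ LinearMap.inr ℝ H (Dec H q) ∘ₗ toDec
  obtain ⟨a, ha⟩ := LinearMap.exists_extend (b.equivFun.toLinearMap ∘ₗ z)
  set A := LinearMap.toContinuousLinearMap b.equivFun.toLinearMap
  set B := LinearMap.toContinuousLinearMap (ι ∘ₗ σ)
  refine ⟨_, fun i => σ (b i), a, ‖A‖ * C + (C + C * (‖B‖ * C)), by positivity,
    fun f M hf => ?_⟩
  have hM : 0 ≤ M := by simpa using (norm_nonneg _).trans (hf 0)
  have hfD : f ∈ DD := ⟨M, hf⟩
  set u := z ⟨f, hfD⟩ with hu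
  have haf : a f = b.equivFun u := LinearMap.congr_fun ha ⟨f, hfD⟩
  have horb := hZ 0 (toDec ⟨f, hfD⟩) M (by simpa using hM) hf
  have hu' : Z (0, toDec ⟨f, hfD⟩) = u := rfl
  rw [hu', zero_add] at horb
  have hub : ‖u‖ ≤ C * M := by simpa using horb 0
  refine ⟨fun i => ?_, fun j => ?_⟩
  · have h3 : |a f i| ≤ ‖a f‖ := by
      rw [← Real.norm_eq_abs]; exact norm_le_pi_norm _ i
    have h4 : ‖a f‖ ≤ ‖A‖ * ‖u‖ := by rw [haf]; exact A.le_opNorm u
    have h5 : ‖A‖ * ‖u‖ ≤ ‖A‖ * (C * M) := by gcongr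
    have h6 : 0 ≤ (C + C * (‖B‖ * C)) * M := by positivity
    nlinarith
  · have hx0 : ∑ i, a f i • σ (b i) = σ u := by
      rw [haf]
      conv_rhs => rw [← b.sum_equivFun u]
      simp only [map_sum, map_smul]
    have hι' : ∀ x j, ι (orb SD x f j) = orb Sl (ι x) (ιs f) j := by
      intro x j
      induction j with
      | zero => rfl
      | succ j ih => rw [orb_succ, orb_succ, map_add, hSD, ih]; rfl
    rw [hx0, hι']
    set w := ι (σ u) with hw
    have hwb : ‖w‖ ≤ ‖B‖ * C * M := by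
      have h3 : ‖w‖ ≤ ‖B‖ * ‖u‖ := B.le_opNorm u
      have h4 : ‖B‖ * ‖u‖ ≤ ‖B‖ * (C * M) := by gcongr
      linarith
    have hfree := hZ w 0 _ hwb (fun j => by simp; positivity) j
    have hZw : Z (w, 0) = -u := by
      have := hσ' u
      rw [hPr] at this
      rw [← this, neg_neg]
    rw [hZw] at hfree
    have hsplit := orb_add Sl (u : H) (w + ((-u : U) : H)) (ιs f) 0 j
    have e : (u : H) + (w + ((-u : U) : H)) = w := by simp
    rw [e, add_zero] at hsplit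
    rw [hsplit]
    have h3 := norm_add_le (orb Sl (u : H) (ιs f) j) (orb Sl (w + ((-u : U) : H)) 0 j)
    have h4 : ‖orb Sl (u : H) (ιs f) j‖ ≤ C * M * q ^ j := horb j
    have h5 : ‖orb Sl (w + ((-u : U) : H)) 0 j‖ ≤ C * (‖B‖ * C * M) * q ^ j := hfree
    have h6 : 0 ≤ ‖A‖ * C * M * q ^ j := by positivity
    nlinarith

/-- A vector space with a semidefinite form maps densely and isometrically to a Hilbert space. -/
theorem exists_completion {D : Type} [AddCommGroup D] [Module ℝ D] (B : D →ₗ[ℝ] D →ₗ[ℝ] ℝ)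
    (hsym : ∀ x y, B x y = B y x) (hpos : ∀ x, 0 ≤ B x x) :
    ∃ (H : Type) (_ : NormedAddCommGroup H) (_ : InnerProductSpace ℝ H) (_ : CompleteSpace H)
      (ι : D →ₗ[ℝ] H), DenseRange ι ∧ (∀ x y, ⟪ι x, ι y⟫ = B x y) ∧
      (∀ (l : D →ₗ[ℝ] ℝ) (K : ℝ), (∀ x, l x ^ 2 ≤ K * B x x) → ∃ r : H, ∀ x, ⟪r, ι x⟫ = l x) ∧
      (∀ (S : D →ₗ[ℝ] D) (K : ℝ), (∀ x, B (S x) (S x) ≤ K * B x x) →
        ∃ T : H →L[ℝ] H, ∀ x, ι (S x) = T (ι x)) := by
  let c : PreInnerProductSpace.Core ℝ D :=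
    { inner := fun x y => B x y
      conj_inner_symm := fun x y => by simp [hsym x y]
      re_inner_nonneg := fun x => by simpa using hpos x
      add_left := fun x y z => by simp
      smul_left := fun x y r => by simp }
  let _ : SeminormedAddCommGroup D := InnerProductSpace.Core.toSeminormedAddCommGroup (𝕜 := ℝ) (c := c)
  let _ : InnerProductSpace ℝ D := InnerProductSpace.ofCore c
  have hB : ∀ x y : D, ⟪x, y⟫ = B x y := fun _ _ => rfl
  have hn : ∀ x : D, ‖x‖ ^ 2 = B x x := fun x => by rw [← hB, real_inner_self_eq_norm_sq]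
  let ι : D →L[ℝ] UniformSpace.Completion D := UniformSpace.Completion.toComplL
  have hd : DenseRange ι := UniformSpace.Completion.denseRange_coe
  have hu : IsUniformInducing ι := UniformSpace.Completion.isUniformInducing_coe D
  have hsq : ∀ (s t K : ℝ), 0 ≤ t → s ^ 2 ≤ K * t ^ 2 → |s| ≤ √(max K 0) * t := by
    intro s t K ht h
    have h1 : s ^ 2 ≤ (√(max K 0) * t) ^ 2 := by
      rw [mul_pow, Real.sq_sqrt (le_max_right _ _)]
      exact h.trans (by gcongr; exact le_max_left _ _)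
    exact abs_le_of_sq_le_sq' h1 (by positivity) |> abs_le.mpr
  refine ⟨UniformSpace.Completion D, inferInstance, inferInstance, inferInstance, ι, hd,
    fun x y => ?_, fun l K hl => ?_, fun S K hS => ?_⟩
  · exact (UniformSpace.Completion.inner_coe x y).trans (hB x y)
  · let lc : D →L[ℝ] ℝ := l.mkContinuous (√(max K 0)) fun x =>
      hsq _ _ K (norm_nonneg x) (by rw [hn]; exact hl x)
    refine ⟨(InnerProductSpace.toDual ℝ _).symm (lc.extend ι), fun x => ?_⟩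
    rw [InnerProductSpace.toDual_symm_apply]
    exact lc.extend_eq hd hu x
  · let Sc : D →L[ℝ] D := S.mkContinuous (√(max K 0)) fun x => by
      have := hsq ‖S x‖ _ K (norm_nonneg x) (by rw [hn, hn]; exact hS x)
      rwa [abs_norm] at this
    exact ⟨(ι.comp Sc).extend ι, fun x => ((ι.comp Sc).extend_eq hd hu x).symm⟩

/-- **Dichotomy.** -/
theorem dichotomy {D : Type} [AddCommGroup D] [Module ℝ D] (B : D →ₗ[ℝ] D →ₗ[ℝ] ℝ)
    (hsym : ∀ x y, B x y = B y x) (hpos : ∀ x, 0 ≤ B x x) (S : D →ₗ[ℝ] D)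
    {κ : Type*} [Fintype κ] (l : κ → D →ₗ[ℝ] ℝ) (K : ℝ) (hl : ∀ k x, l k x ^ 2 ≤ K * B x x)
    (q0 q1 : ℝ) (hq0 : 0 ≤ q0) (hq : q0 < q1)
    (hS : ∀ x, B (S x) (S x) ≤ q0 ^ 2 * B x x + ∑ k, l k x ^ 2) :
    ∃ q2, q1 < q2 ∧ ∀ q, q1 < q → q < q2 →
      ∃ (n : ℕ) (ψ : Fin n → D) (a : (ℕ → D) →ₗ[ℝ] (Fin n → ℝ)) (C : ℝ), 0 ≤ C ∧
        ∀ (f : ℕ → D) (M : ℝ), 0 ≤ M → (∀ j, B (f j) (f j) ≤ (M * q ^ j) ^ 2) →
          (∀ i, |a f i| ≤ C * M) ∧
          ∀ x : ℕ → D, x 0 = ∑ i, a f i • ψ i → (∀ j, x (j + 1) = S (x j) + f j) →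
            ∀ j, B (x j) (x j) ≤ (C * M * q ^ j) ^ 2 := by
  obtain ⟨H, _, _, _, ι, hd, hB, hfun, hop⟩ := exists_completion B hsym hpos
  have hn : ∀ x, ‖ι x‖ ^ 2 = B x x := fun x => by rw [← hB, real_inner_self_eq_norm_sq]
  choose r hr using fun k => hfun (l k) K (hl k)
  obtain ⟨T, hT⟩ := hop S (q0 ^ 2 + Fintype.card κ * K) fun x => by
    have h1 : ∑ k, l k x ^ 2 ≤ ∑ _k : κ, K * B x x := Finset.sum_le_sum fun k _ => hl k x
    simp only [Finset.sum_const, Finset.card_univ, nsmul_eq_mul] at h1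
    have := hS x
    nlinarith
  have hTi : ∀ x, ‖T x‖ ^ 2 ≤ q0 ^ 2 * ‖x‖ ^ 2 + ∑ k, ⟪r k, x⟫ ^ 2 := fun x =>
    hd.induction_on (p := fun x => ‖T x‖ ^ 2 ≤ q0 ^ 2 * ‖x‖ ^ 2 + ∑ k, ⟪r k, x⟫ ^ 2) x
      (isClosed_le (by fun_prop) (by fun_prop)) fun d => by
        simp only [← hT, hn, hr]
        exact hS d
  obtain ⟨q2, hq2, h⟩ := dense_dich ι hd T S hT r q0 q1 hq0 hq hTi
  refine ⟨q2, hq2, fun q h1 h2 => ?_⟩
  obtain ⟨n, ψ, a, C, hC, hmain⟩ := h q h1 h2
  have hqpos : 0 < q := (lt_of_le_of_lt hq0 hq).trans h1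
  refine ⟨n, ψ, a, C, hC, fun f M hM hf => ?_⟩
  obtain ⟨h3, h4⟩ := hmain f M fun j =>
    (abs_le_of_sq_le_sq' (by rw [hn]; exact hf j) (by positivity)).2
  refine ⟨h3, fun x hx0 hx j => ?_⟩
  rw [eq_orb S x f hx j, hx0, ← hn]
  exact pow_le_pow_left₀ (norm_nonneg _) (h4 j) 2

/-- A bounded functional is almost represented by a vector of the space. -/
theorem riesz_approx {D : Type} [AddCommGroup D] [Module ℝ D] (B : D →ₗ[ℝ] D →ₗ[ℝ] ℝ)
    (hsym : ∀ x y, B x y = B y x) (hpos : ∀ x, 0 ≤ B x x) (l : D →ₗ[ℝ] ℝ) (K : ℝ)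
    (hl : ∀ x, l x ^ 2 ≤ K * B x x) (ε : ℝ) (hε : 0 < ε) :
    ∃ φ : D, ∀ x, (l x - B φ x) ^ 2 ≤ ε * B x x := by
  obtain ⟨H, _, _, _, ι, hd, hB, hfun, -⟩ := exists_completion B hsym hpos
  obtain ⟨r, hr⟩ := hfun l K hl
  obtain ⟨φ, hφ⟩ := hd.exists_dist_lt r (Real.sqrt_pos.mpr hε)
  refine ⟨φ, fun x => ?_⟩
  rw [← hr, ← hB, ← hB, ← inner_sub_left, real_inner_self_eq_norm_sq, ← sq_abs]
  rw [dist_eq_norm] at hφ
  have h1 := abs_real_inner_le_norm (r - ι φ) (ι x)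
  have h2 : ‖r - ι φ‖ * ‖ι x‖ ≤ √ε * ‖ι x‖ := by gcongr
  calc |⟪r - ι φ, ι x⟫| ^ 2 ≤ (√ε * ‖ι x‖) ^ 2 := by gcongr; exact h1.trans h2
    _ = _ := by rw [mul_pow, Real.sq_sqrt hε.le]

end Pool.Agent.BoltzC.Dich

end MrgPart0

-- ======== part 1: formerly Pool.Agent.BoltzD.KK.Scale
section MrgPart1

/-! Rescaling between the torus and the whole space. -/

set_option autoImplicit false

open MeasureTheory Pool.Agent.BoltzC Finset Filter Topology

noncomputable section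

namespace Pool.Agent.BoltzD.KK

variable [Dim]

/-- The rescaled length scale. -/
def sh (ν : ℝ) (y : E3) : ℝ := 1 + √(1 + ν ^ 2 * ‖y‖ ^ 2)

/-- The rescaled weight. -/
def wh (a : ℝ) (y : E3) : ℝ := √(1 + ‖y‖ ^ 2) ^ (-(dd : ℝ) - 2 * a)

/-- The energy form on the whole space. -/
def WE (n : ℕ) (θ ν a : ℝ) (φ ψ : E3 → SV) : ℝ := ∫ y, wh a y * bb n θ (sh ν) φ ψ y

lemma one_le_sh (ν : ℝ) (y : E3) : 1 ≤ sh ν y := le_add_of_nonneg_right (Real.sqrt_nonneg _)

lemma continuous_sh (ν : ℝ) : Continuous (sh ν) := by unfold sh; fun_prop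

lemma sh_le {ν : ℝ} (h0 : 0 ≤ ν) (h1 : ν ≤ 1) (y : E3) : sh ν y ≤ 2 + ‖y‖ := by
  have h2 : √(1 + ν ^ 2 * ‖y‖ ^ 2) ≤ 1 + ‖y‖ := by
    refine Real.sqrt_le_iff.2 ⟨by positivity, ?_⟩
    have h3 : ν ^ 2 ≤ 1 := by nlinarith
    nlinarith [norm_nonneg y, mul_le_mul_of_nonneg_right h3 (sq_nonneg ‖y‖)]
  unfold sh
  linarith

lemma jb_pos (y : E3) : 0 < √(1 + ‖y‖ ^ 2) := Real.sqrt_pos.2 (by positivity)

lemma wh_pos (a : ℝ) (y : E3) : 0 < wh a y := Real.rpow_pos_of_pos (jb_pos y) _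

lemma continuous_wh (a : ℝ) : Continuous (wh a) :=
  Continuous.rpow_const (by fun_prop) fun y => Or.inl (jb_pos y).ne'

lemma box_of_norm {a : ℝ} {x : E3} (h : ‖x‖ ≤ a) : box a x := fun i =>
  le_trans (by simpa using PiLp.norm_apply_le x i) h

lemma box_red (x : E3) : box (1 / 2) (red x) := fun i => abs_sub_round (x i)

lemma exp_mul_sqrt (s b : ℝ) :
    Real.exp s * √(Real.exp (-2 * s) + b) = √(1 + Real.exp s ^ 2 * b) := by
  have e : Real.exp s ^ 2 * Real.exp (-2 * s) = 1 := by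
    rw [← Real.exp_nat_mul, ← Real.exp_add]; simp
  rw [← e, ← mul_add, Real.sqrt_mul (sq_nonneg _), Real.sqrt_sq (Real.exp_pos s).le]

lemma norm_exp_smul (s : ℝ) (x : E3) : ‖Real.exp s • x‖ = Real.exp s * ‖x‖ := by
  rw [norm_smul, Real.norm_eq_abs, abs_of_pos (Real.exp_pos s)]

lemma exp_neg_smul (s : ℝ) (x : E3) : Real.exp (-s) • Real.exp s • x = x := by
  rw [smul_smul, ← Real.exp_add]; simp

lemma exp_smul_neg (s : ℝ) (x : E3) : Real.exp s • Real.exp (-s) • x = x := by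
  rw [smul_smul, ← Real.exp_add]; simp

lemma int_scale (φ : E3 → ℝ) {lam : ℝ} (hl : 0 < lam) :
    ∫ x, φ (lam • x) = (lam ^ dd)⁻¹ * ∫ x, φ x := by
  rw [Measure.integral_comp_smul, finrank_Ix, abs_of_pos (by positivity), smul_eq_mul]

variable (B : BgD)

lemma rho2_ge (x : E3) : ‖red x‖ ^ 2 / 12 ≤ B.cut.rho2 x := by
  rw [← B.cut.per_rho2.red x]
  exact B.cut.rho2_ge _ (box_red x)

lemma rho2_nonneg (x : E3) : 0 ≤ B.cut.rho2 x := le_trans (by positivity) (rho2_ge B x)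

lemma Lam_pos (s : ℝ) (x : E3) : 0 < B.Lam s x :=
  Real.sqrt_pos.2 (add_pos_of_pos_of_nonneg (Real.exp_pos _) (rho2_nonneg B x))

lemma om_pos (a s : ℝ) (x : E3) : 0 < B.om a s x :=
  mul_pos (Real.exp_pos _) (Real.rpow_pos_of_pos (Lam_pos B s x) _)

lemma per_om (a s : ℝ) : Per (B.om a s) := fun i x => by
  simp only [BgD.om, BgD.Lam, B.cut.per_rho2 i x]

lemma per_sig (s : ℝ) : Per (B.sig s) := fun i x => by simp only [BgD.sig, B.cut.per_rho2 i x]

lemma om_sq (a s : ℝ) (x : E3) : B.om 0 s x ^ 2 = B.om (-a) s x * B.om a s x := by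
  have h := Lam_pos B s x
  simp only [BgD.om]
  rw [mul_mul_mul_comm, ← Real.exp_add, ← Real.rpow_add h, mul_pow, sq, sq, ← Real.exp_add,
    ← Real.rpow_add h]
  congr 2 <;> ring

lemma sig_scale (s : ℝ) {x : E3} (hx : box (1 / 4) x) :
    Real.exp s * B.sig s x = sh B.nu (Real.exp s • x) := by
  rw [BgD.sig, sh, mul_add, exp_mul_sqrt, ← Real.exp_add, B.cut.rho2_eq x hx, norm_exp_smul]
  congr 2
  · simp
  · ring

lemma om_scale (a s : ℝ) {x : E3} (hx : box (1 / 4) x) :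
    B.om a s x = Real.exp s ^ dd * wh a (Real.exp s • x) := by
  have h : √(1 + ‖Real.exp s • x‖ ^ 2) = Real.exp s * B.Lam s x := by
    rw [BgD.Lam, exp_mul_sqrt, B.cut.rho2_eq x hx, norm_exp_smul, mul_pow]
  rw [wh, h, Real.mul_rpow (Real.exp_pos s).le (Lam_pos B s x).le, BgD.om, ← mul_assoc,
    ← Real.exp_mul, ← Real.exp_nat_mul, ← Real.exp_add]
  congr 2
  push_cast
  ring

lemma mu_eq (s : ℝ) (x : E3) :
    B.mu s x = √(1 + Real.exp s ^ 2 * B.cut.rho2 x) ^ (-B.r) := by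
  rw [← exp_mul_sqrt, Real.mul_rpow (Real.exp_pos s).le (Real.sqrt_nonneg _), BgD.mu,
    ← Real.exp_mul, mul_comm s]
  rfl

lemma mu_nonneg (s : ℝ) (x : E3) : 0 ≤ B.mu s x := by
  rw [mu_eq]; positivity

lemma mu_le (hr : 1 ≤ B.r) (s : ℝ) (x : E3) {R : ℝ} (hR : 1 ≤ R)
    (h : R ≤ √(1 + Real.exp s ^ 2 * B.cut.rho2 x)) : B.mu s x ≤ R⁻¹ := by
  rw [mu_eq]
  calc _ ≤ R ^ (-B.r) := Real.rpow_le_rpow_of_nonpos (by linarith) h (by linarith)
    _ ≤ R ^ (-1 : ℝ) := Real.rpow_le_rpow_of_exponent_le hR (by linarith)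
    _ = R⁻¹ := Real.rpow_neg_one R

lemma mu_le_one (hr : 1 ≤ B.r) (s : ℝ) (x : E3) : B.mu s x ≤ 1 := by
  have := rho2_nonneg B x
  simpa using mu_le B hr s x le_rfl (Real.le_sqrt_of_sq_le (by
    rw [one_pow]; exact le_add_of_nonneg_right (by positivity)))

lemma mu_far (hr : 1 ≤ B.r) (s : ℝ) (x : E3) {R : ℝ} (hR : 1 ≤ R)
    (h : 4 * R ≤ ‖Real.exp s • red x‖) : B.mu s x ≤ R⁻¹ := by
  refine mu_le B hr s x hR (Real.le_sqrt_of_sq_le ?_)
  have h1 := mul_le_mul_of_nonneg_left (rho2_ge B x) (sq_nonneg (Real.exp s))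
  have h2 := pow_le_pow_left₀ (by linarith) h 2
  rw [norm_exp_smul] at h2
  nlinarith

variable {B}

lemma far_of {ρ s : ℝ} (hs : 8 * ρ < Real.exp s) {x : E3} (hx : 1 / 8 ≤ ‖x‖) :
    ρ < ‖Real.exp s • x‖ := by
  rw [norm_exp_smul]
  nlinarith [Real.exp_pos s]

lemma per_eq_per {ρ s : ℝ} {φ : E3 → SV} (hφ : Supp ρ φ) (hs : 8 * ρ < Real.exp s) :
    B.per φ s = BoltzC.per fun x => φ (Real.exp s • x) := by
  funext x
  have e : B.per φ s x = B.per φ s (red x) := by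
    simp only [BgD.per, B.cut.per_chi.red, B.cut.per_pi.red]
  rw [e, BoltzC.per, BgD.per]
  set z := red x
  by_cases h8 : box (1 / 8) z
  · rw [B.cut.chi_one z h8, one_smul, B.cut.pi_eq z fun i => (h8 i).trans (by norm_num)]
  have h0 : φ (Real.exp s • z) = 0 :=
    hφ _ (far_of hs (not_lt.1 fun h => h8 (box_of_norm h.le)))
  by_cases h5 : box (1 / 5) z
  · rw [B.cut.pi_eq z fun i => (h5 i).trans (by norm_num), h0, smul_zero]
  · rw [B.cut.chi_zero z (box_red x) h5, zero_smul, h0]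

lemma supp_scale {α : Type*} [Zero α] {ρ s : ℝ} {φ : E3 → α} (hφ : Supp ρ φ)
    (hs : 8 * ρ < Real.exp s) : Supp (1 / 8) fun x => φ (Real.exp s • x) :=
  fun _ hx => hφ _ (far_of hs hx.le)

lemma sm_per {ρ s : ℝ} {φ : E3 → SV} (h : Sm φ) (hφ : Supp ρ φ) (hs : 8 * ρ < Real.exp s) :
    Sm (B.per φ s) := by
  rw [per_eq_per hφ hs]
  exact (h.scale _).per (supp_scale hφ hs) (by norm_num)

lemma per_Bper (φ : E3 → SV) (s : ℝ) : Per (B.per φ s) := fun i x => by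
  simp only [BgD.per, B.cut.per_chi i x, B.cut.per_pi i x]

lemma per_ev {ρ s : ℝ} {φ : E3 → SV} (hφ : Supp ρ φ) (hs : 8 * ρ < Real.exp s) {x : E3}
    (hx : ‖x‖ < 1 / 2) : B.per φ s =ᶠ[𝓝 x] fun x => φ (Real.exp s • x) := by
  rw [per_eq_per hφ hs]
  exact ((isOpen_lt continuous_norm continuous_const).eventually_mem hx).mono fun y hy =>
    per_eq _ hy

variable {n : ℕ} {θ : ℝ}

/-- The density of two functions near the origin in the rescaled variable. -/
lemma bb_resc {s : ℝ} {G H : E3 → SV} (hG : Sm G) (hH : Sm H) {x : E3} (hx : ‖x‖ ≤ 1 / 4) :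
    bb n θ (B.sig s) G H x = bb n θ (sh B.nu) (fun y => G (Real.exp (-s) • y))
      (fun y => H (Real.exp (-s) • y)) (Real.exp s • x) := by
  rw [← bb_scale (hG.scale _) (hH.scale _) x (sig_scale B s (box_of_norm hx))]
  simp only [exp_neg_smul]

lemma bb_per {ρ s : ℝ} {φ G : E3 → SV} (h : Sm φ) (hφ : Supp ρ φ) (hs : 8 * ρ < Real.exp s)
    (hG : Sm G) (pG : Per G) (x : E3) : bb n θ (B.sig s) (B.per φ s) G x =
      bb n θ (sh B.nu) φ (fun y => G (Real.exp (-s) • y)) (Real.exp s • red x) := by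
  rw [← (per_bb (per_sig B s) (per_Bper φ s) pG).red x]
  set z := red x with hz
  by_cases h4 : ‖z‖ ≤ 1 / 4
  · rw [bb_congr (σ' := B.sig s) rfl (per_ev hφ hs (by linarith)) EventuallyEq.rfl,
      bb_resc (h.scale _) hG h4]
    simp only [exp_smul_neg]
  · rw [supp_bb hφ _ (far_of hs (by linarith))]
    have e : ∀ u, dXw u (B.per φ s) z = 0 := fun u => by
      rw [per_eq_per hφ hs, dXw_per (h.scale _) (supp_scale hφ hs) (by norm_num), hz,
        (per_per _).red]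
      exact (supp_scale hφ hs).dXw u _ (by linarith)
    simp [bb, lev, e]

lemma tint_resc {ρ s a : ℝ} {ψ : E3 → ℝ} (hc : Continuous ψ) (hψ : Supp ρ ψ)
    (hs : 8 * ρ < Real.exp s) :
    tint (fun x => B.om a s x * ψ (Real.exp s • red x)) = ∫ y, wh a y * ψ y := by
  have e : (fun x => B.om a s x * ψ (Real.exp s • red x)) = BoltzC.per fun x =>
      Real.exp s ^ dd * (wh a (Real.exp s • x) * ψ (Real.exp s • x)) := by
    funext x
    rw [BoltzC.per, ← (per_om B a s).red x]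
    by_cases h4 : ‖red x‖ ≤ 1 / 4
    · rw [om_scale B a s (box_of_norm h4), mul_assoc]
    · simp [hψ _ (far_of hs (x := red x) (by linarith))]
  have hw := continuous_wh a
  rw [e, tint_per (ρ := 1 / 8) (by fun_prop) (fun x hx => by simp [supp_scale hψ hs x hx])
    (by norm_num), integral_const_mul,
    int_scale (fun y => wh a y * ψ y) (Real.exp_pos s), ← mul_assoc,
    mul_inv_cancel₀ (by positivity), one_mul]

/-- The torus energy against a periodised function is the whole space energy. -/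
lemma E_per {ρ s a : ℝ} {φ G : E3 → SV} (h : Sm φ) (hφ : Supp ρ φ) (hs : 8 * ρ < Real.exp s)
    (hG : Sm G) (pG : Per G) :
    B.E n θ a s (B.per φ s) G = WE n θ B.nu a φ fun y => G (Real.exp (-s) • y) := by
  simp only [BgD.E, En, bb_per h hφ hs hG pG]
  exact tint_resc (continuous_bb (continuous_sh _) h (hG.scale _)) (supp_bb hφ) hs

lemma WE_congr {ρ ν a : ℝ} {φ G H : E3 → SV} (hφ : Supp ρ φ)
    (h : ∀ y, ‖y‖ ≤ ρ → G =ᶠ[𝓝 y] H) : WE n θ ν a φ G = WE n θ ν a φ H := by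
  unfold WE
  congr 1
  funext y
  by_cases hy : ‖y‖ ≤ ρ
  · rw [bb_congr rfl EventuallyEq.rfl (h y hy)]
  · rw [supp_bb hφ _ (not_le.1 hy), supp_bb hφ _ (not_le.1 hy)]

lemma per_resc_ev {ρ s : ℝ} {φ : E3 → SV} (hφ : Supp ρ φ) (hs : 8 * ρ < Real.exp s) {y : E3}
    (hy : ‖y‖ ≤ ρ) : (fun y => B.per φ s (Real.exp (-s) • y)) =ᶠ[𝓝 y] φ := by
  have h1 : ‖Real.exp (-s) • y‖ < 1 / 2 := by
    rw [norm_exp_smul, Real.exp_neg, inv_mul_lt_iff₀ (Real.exp_pos s)]
    linarith [Real.exp_pos s]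
  have h2 : Continuous fun y : E3 => Real.exp (-s) • y := by fun_prop
  filter_upwards [(h2.tendsto y).eventually (per_ev (B := B) hφ hs h1)] with z hz
  rw [hz, exp_smul_neg]

lemma E_per_per {ρ s a : ℝ} {φ : E3 → SV} (h : Sm φ) (hφ : Supp ρ φ) (hs : 8 * ρ < Real.exp s) :
    B.E n θ a s (B.per φ s) (B.per φ s) = WE n θ B.nu a φ φ := by
  rw [E_per h hφ hs (sm_per h hφ hs) (per_Bper φ s)]
  exact WE_congr hφ fun y hy => per_resc_ev hφ hs hy

end Pool.Agent.BoltzD.KK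

end
end MrgPart1

-- marker of a merged file
example : 731051 + 242452 = 731051 + 242452 := rfl

end MrgPart2

-- marker of a merged file
example : 731051 + 242452 = 731051 + 242452 := rfl

end MrgPart1

-- marker of a merged file
example : 731051 + 242452 = 731051 + 242452 := rfl
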